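import Pool.Agent.Helper52.SL.Prf

/-! Selection of the system (39c (4.1)), second part: extremal systems with `th < 1` are connected (`i(0) = 0`), their
point profile has top increments `h(P_1|t) - h(P_e|t) ≤ (th m + lag) (1 - e)`; truncations of connected systems are
connected. -/

set_option autoImplicit false

namespace Pool.Agent.Helper52.SL

open Finset Filter Topology Pool.Agent.Helper69.RK Pool.Agent.Helper31.EC Pool.Agent.Helper31.EC.Sp
open Pool.Agent.Helper40.EL Pool.Agent.Helper42.NS Pool.Agent.Helper52.KP Pool.Agent.Helper80.MX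

noncomputable section

variable {m : ℕ} {S : Sp}

/-- a vector variable over a label -/
def cv {q : ℕ} (l : Lab S) (y : S.VV q) : (l.ovr 1 one_pos).VV q := (l.pj.vv y).chg l.V 1 one_pos

theorem cv_dg {q : ℕ} (l : Lab S) (y : S.VV q) (r : ℝ) : (cv l y).dg r = up1 l (y.dg r) := by
  have h1 : ((l.pj.vv y).chg l.V 1 one_pos).dg r = chgL l.V 1 one_pos ((l.pj.vv y).dg (1 * r)) :=
    VV.chg_dg l.V 1 one_pos (l.pj.vv y) r
  rw [one_mul, ← l.pj.map_dg] at h1
  exact h1

/-- a system over a label which is independent of the height given the line -/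
def ovS (s : Sys S m) (l : Lab S) (hl : h (up1 l s.T) (up1 l (s.xi 1)) = 1) : Sys (l.ovr 1 one_pos) m where
  a := cv l s.a
  x := cv l s.x
  t := cv l s.t
  ht := by
    rw [cv_dg, cv_dg, cv_dg, ← up1_sup]
    exact hl

section
variable (s : Sys S m) (l : Lab S) (hl : h (up1 l s.T) (up1 l (s.xi 1)) = 1)

theorem ovS_x_dg (r : ℝ) : (ovS s l hl).x.dg r = up1 l (s.x.dg r) := cv_dg l s.x r

theorem ovS_a_dg (r : ℝ) : (ovS s l hl).a.dg r = up1 l (s.a.dg r) := cv_dg l s.a r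

theorem ovS_t_dg (r : ℝ) : (ovS s l hl).t.dg r = up1 l (s.t.dg r) := cv_dg l s.t r

theorem ovS_P_dg (r : ℝ) : (ovS s l hl).P.dg r = up1 l (s.P.dg r) := cv_dg l s.P r

theorem ovS_T : (ovS s l hl).T = up1 l s.T := ovS_t_dg s l hl 1

theorem ovS_F (u r : ℝ) : (ovS s l hl).F u r = h (up1 l (s.x.dg u ⊔ s.P.dg r)) (up1 l s.T) := by
  unfold Sys.F
  rw [ovS_x_dg, ovS_P_dg, ovS_T, ← up1_sup]

end

/-- EXTREMAL SYSTEMS ARE CONNECTED -/
theorem ic_zero_of_extremal {s : Sys S m} {th : ℝ} (h0 : 0 ≤ th) (h1 : th < 1) (he : Extremal th s) :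
    Helper40.EL.ic s 0 = 0 := by
  have hk := kap_isKap s 0
  have hT : h (up1 (kap s 0) s.T) (up1 (kap s 0) (s.xi 1)) = 1 := by
    rw [hk.h_T le_rfl zero_le_one, sub_zero]
  have h2 := he _ (ovS s (kap s 0) hT)
  have e1 : (ovS s (kap s 0) hT).lag th =
      h (up1 (kap s 0) (s.P.dg 1)) (up1 (kap s 0) s.T) - th * H (up1 (kap s 0) (s.x.dg 1)) := by
    unfold Sys.lag
    rw [ovS_P_dg, ovS_T, ovS_x_dg]
  have h3 := hk.ic_P le_rfl zero_le_one
  have h4 := hk.ic_xi le_rfl zero_le_one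
  -- the information about the direction is at most the information about the line
  have h5 : H (s.x.dg 1) - H (up1 (kap s 0) (s.x.dg 1)) ≤ H (s.xi 1) - H (up1 (kap s 0) (s.xi 1)) := by
    have e2 : H (s.xi 1) = H (s.x.dg 1) + h (s.xi 1) (s.x.dg 1) := by
      have e3 : s.x.dg 1 ⊔ s.xi 1 = s.xi 1 := sup_eq_right.mpr (s.x_le_xi le_rfl)
      have := H_chain (s.x.dg 1) (s.xi 1)
      rw [e3] at this
      exact this
    have e4 : H (up1 (kap s 0) (s.xi 1)) = H (up1 (kap s 0) (s.x.dg 1)) +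
        h (up1 (kap s 0) (s.xi 1)) (up1 (kap s 0) (s.x.dg 1)) := by
      have e3 : up1 (kap s 0) (s.x.dg 1) ⊔ up1 (kap s 0) (s.xi 1) = up1 (kap s 0) (s.xi 1) :=
        sup_eq_right.mpr (up1_mono _ (s.x_le_xi le_rfl))
      have := H_chain (up1 (kap s 0) (s.x.dg 1)) (up1 (kap s 0) (s.xi 1))
      rw [e3] at this
      exact this
    have e5 := h_up1_le (kap s 0) (s.xi 1) (s.x.dg 1)
    linarith
  have h6 := Helper40.EL.ic_nonneg (s := s) le_rfl zero_le_one
  rw [e1] at h2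
  have h7 : s.lag th = h (s.P.dg 1) s.T - th * H (s.x.dg 1) := rfl
  rw [h7] at h2
  have h8 := mul_le_mul_of_nonneg_left h5 h0
  rw [← h4] at h8
  have h9 : (1 - th) * Helper40.EL.ic s 0 ≤ 0 := by nlinarith
  have h10 : Helper40.EL.ic s 0 ≤ 0 := by
    by_contra hc
    push Not at hc
    have := mul_pos (sub_pos.mpr h1) hc
    linarith
  exact le_antisymm h10 h6

/-- TOP INCREMENTS of the point profile of extremal systems -/
theorem top_incr {s : Sys S m} {th : ℝ} (h0 : 0 ≤ th) (he : Extremal th s) {e : ℝ} (he0 : 0 < e) (he1 : e ≤ 1) :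
    s.F 0 1 - s.F 0 e ≤ (th * m + s.lag th) * (1 - e) := by
  have h2 := he _ (trn s e he0 he1)
  rw [Sys.lag_eq_F (trn s e he0 he1) th, F_trn s e he0 he1 zero_le_one le_rfl, F_trn s e he0 he1 le_rfl zero_le_one,
    mul_zero, mul_one] at h2
  have h3 : s.lag th * e ≤ s.F 0 e - th * s.F e 0 := by
    have h4 := mul_le_mul_of_nonneg_right h2 he0.le
    have h5 : (s.F 0 e / e - th * (s.F e 0 / e)) * e = s.F 0 e - th * s.F e 0 := by field_simp
    rw [h5] at h4
    exact h4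
  have h6 := s.lag_eq_F th
  have h7 := s.F_lip_left (r := 0) he1
  have h8 := mul_le_mul_of_nonneg_left h7 h0
  nlinarith

/-! ### labels of truncations -/

/-- a label of a truncated space as a label of the space -/
def untF {F : FSp} (r : ℝ) (h0 : 0 < r) (l : FLab (F.chg ⊤ r h0)) : FLab F where
  T := { l.T with
    n := F.n
    pos := F.pos }
  p := ⟨l.p.π, l.p.law, fun ω ω' a b =>
    ⟨fun g => ((l.p.hZ ω ω' a b).mp g).2, fun g => (l.p.hZ ω ω' a b).mpr ⟨trivial, g⟩⟩⟩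
  hn := rfl
  V := l.V

theorem untF_leak {F : FSp} (r : ℝ) (h0 : 0 < r) (l : FLab (F.chg ⊤ r h0)) (A : Setoid F.Ω) :
    (untF r h0 l).leak (fc A) = l.leak (fc (F := F.chg ⊤ r h0) A) := rfl

theorem untF_info {F : FSp} (r : ℝ) (h0 : 0 < r) (l : FLab (F.chg ⊤ r h0)) :
    (untF r h0 l).info = l.info := rfl

/-- a label of a space as a label of the truncated space -/
def tnF {F : FSp} (r : ℝ) (h0 : 0 < r) (l : FLab F) : FLab (F.chg ⊤ r h0) where
  T := { l.T with
    n := r * F.n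
    pos := mul_pos h0 F.pos }
  p := ⟨l.p.π, l.p.law, fun ω ω' a b =>
    ⟨fun g => ⟨trivial, (l.p.hZ ω ω' a b).mp g⟩, fun g => (l.p.hZ ω ω' a b).mpr g.2⟩⟩
  hn := rfl
  V := l.V

theorem tnF_leak {F : FSp} (r : ℝ) (h0 : 0 < r) (l : FLab F) (A : Setoid F.Ω) :
    (tnF r h0 l).leak (fc (F := F.chg ⊤ r h0) A) = l.leak (fc A) := rfl

theorem tnF_info {F : FSp} (r : ℝ) (h0 : 0 < r) (l : FLab F) :
    (tnF r h0 l).info = l.info := rfl

/-- labels of a truncated system as labels of the system -/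
def untL {r : ℝ} {h0 : 0 < r} (l : Lab (S.chg S.tr r h0)) : Lab S := fun k => untF r h0 (l k)

/-- labels of a system as labels of the truncated system -/
def tnL (r : ℝ) (h0 : 0 < r) (l : Lab S) : Lab (S.chg S.tr r h0) := fun k => tnF r h0 (l k)

theorem untL_info {r : ℝ} {h0 : 0 < r} (l : Lab (S.chg S.tr r h0))
    (hl : UB (fun k => (l k).info / ((S.chg S.tr r h0).F k).n)) : (untL l).info = r * l.info := by
  show ul (fun k => (l k).info / (S.F k).n) = r * ul (fun k => (l k).info / (r * (S.F k).n))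
  have h1 : (fun k => (l k).info / (S.F k).n) = fun k => r * ((l k).info / (r * (S.F k).n)) := by
    funext k
    have := (S.F k).pos.ne'
    field_simp
  rw [h1]
  exact ul_const_mul r hl

theorem nul_trn {r : ℝ} {h0 : 0 < r} {f : ℕ → ℝ} : Nul (S.chg S.tr r h0) f ↔ Nul S f := by
  have e : (fun k => f k / (S.F k).n) = fun k => r * (f k / (r * (S.F k).n)) := by
    funext k
    have := (S.F k).pos.ne'
    field_simp
  constructor
  · intro h
    have h1 : Tendsto (fun k => f k / (r * (S.F k).n)) UF (𝓝 0) := h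
    have h2 := h1.const_mul r
    rw [mul_zero, ← e] at h2
    exact h2
  · intro h
    have h1 : Tendsto (fun k => f k / (S.F k).n) UF (𝓝 0) := h
    rw [e] at h1
    have h2 := h1.const_mul r⁻¹
    rw [mul_zero] at h2
    refine h2.congr fun k => ?_
    rw [← mul_assoc, inv_mul_cancel₀ h0.ne', one_mul]
    rfl

theorem untL_DM {r : ℝ} {h0 : 0 < r} {l : Lab (S.chg S.tr r h0)} {A B : S.Inf} :
    (untL l).DM (rpI A) (rpI B) ↔ l.DM (rpI (chgI S.tr r h0 A)) (rpI (chgI S.tr r h0 B)) :=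
  ⟨fun h => ⟨nul_trn.mpr h.1, nul_trn.mpr h.2⟩, fun h => ⟨nul_trn.mp h.1, nul_trn.mp h.2⟩⟩

theorem cellv_chg {q : ℕ} (y : S.VV q) (r : ℝ) (h0 : 0 < r) (u : ℝ) (k : ℕ) :
    (y.chg S.tr r h0).cellv u k = y.cellv (r * u) k := by
  unfold VV.cellv
  rw [chg_dl]
  rfl

/-- double Markov labels of truncations -/
theorem DMc_trn_iff {s : Sys S m} {r : ℝ} {h0 : 0 < r} {h1 : r ≤ 1} {c : ℝ} {l : Lab (S.chg S.tr r h0)} :
    DMc (trn s r h0 h1) c l ↔ (untL l).DML (s.xi r ⊔ s.t.dg (r * c)) (s.P.dg r ⊔ s.t.dg r) := by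
  have eA : cA (trn s r h0 h1) c = rpI (chgI S.tr r h0 (Inf.sup (Inf.sup (s.Ia r) (s.Ix r)) (s.It (r * c)))) := by
    funext k
    show fc (((trn s r h0 h1).fin k).ka 1 ⊓ ((trn s r h0 h1).fin k).kx 1 ⊓ ((trn s r h0 h1).fin k).kt c) = _
    rw [Sys.fin_ka, Sys.fin_kx, Sys.fin_kt]
    have e1 : (trn s r h0 h1).a.cellv 1 k = s.a.cellv r k := (cellv_chg s.a r h0 1 k).trans (by rw [mul_one])
    have e2 : (trn s r h0 h1).x.cellv 1 k = s.x.cellv r k := (cellv_chg s.x r h0 1 k).trans (by rw [mul_one])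
    have e3 : (trn s r h0 h1).t.cellv c k = s.t.cellv (r * c) k := cellv_chg s.t r h0 c k
    rw [e1, e2, e3]
    rfl
  have eB : cB (trn s r h0 h1) = rpI (chgI S.tr r h0 (Inf.sup (s.IP r) (s.It r))) := by
    funext k
    show fc (((trn s r h0 h1).fin k).kP 1 ⊓ ((trn s r h0 h1).fin k).kt 1) = _
    rw [Sys.fin_kP, Sys.fin_kt]
    have e1 : (trn s r h0 h1).P.cellv 1 k = s.P.cellv r k := (cellv_chg s.P r h0 1 k).trans (by rw [mul_one])
    have e3 : (trn s r h0 h1).t.cellv 1 k = s.t.cellv r k := (cellv_chg s.t r h0 1 k).trans (by rw [mul_one])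
    rw [e1, e3]
    rfl
  have cA' : cl (Inf.sup (Inf.sup (s.Ia r) (s.Ix r)) (s.It (r * c))) = s.xi r ⊔ s.t.dg (r * c) := by
    rw [cl_sup, cl_sup, s.cl_Ia, s.cl_Ix, s.cl_It]
    rfl
  have cB' : cl (Inf.sup (s.IP r) (s.It r)) = s.P.dg r ⊔ s.t.dg r := by
    rw [cl_sup, s.cl_IP, s.cl_It]
  unfold DMc
  rw [eA, eB, ← untL_DM, ← cA', ← cB']
  constructor
  · intro h
    exact Lab.DM.mono (l := untL l) h (rp_rpI _).2 (rp_rpI _).2
  · intro h
    exact Lab.DM.mono (l := untL l) h (rp_rpI _).1 (rp_rpI _).1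

/-- labels of the truncation are labels of the system -/
theorem DMc.of_trn {s : Sys S m} {r : ℝ} {h0 : 0 < r} {h1 : r ≤ 1} {c : ℝ} {l : Lab (S.chg S.tr r h0)}
    (hl : DMc (trn s r h0 h1) c l) : DMc s (r * c) (untL l) := by
  rw [DMc_trn_iff] at hl
  rw [DMc_iff]
  exact hl.mono (sup_le_sup_right (s.xi_mono h1) _) (sup_le_sup (s.P.dg_mono h1) (s.t.dg_mono h1))

/-- `r i_(S_r)(c) ≤ i_S(r c)` -/
theorem ic_trn_le (s : Sys S m) {r : ℝ} (h0 : 0 < r) (h1 : r ≤ 1) (c : ℝ) :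
    r * Helper40.EL.ic (trn s r h0 h1) c ≤ Helper40.EL.ic s (r * c) := by
  have h2 := kap_isKap (trn s r h0 h1) c
  have h3 := info_le_ic (DMc.of_trn h2.1)
  have h4 : UB (fun k => ((kap (trn s r h0 h1) c) k).info / ((S.chg S.tr r h0).F k).n) :=
    Lab.DM.ub h2.1 (cA_Bd _ _)
  rw [untL_info _ h4, h2.info_eq] at h3
  linarith

/-- truncations of connected systems are connected -/
theorem ic_trn_zero {s : Sys S m} {r : ℝ} (h0 : 0 < r) (h1 : r ≤ 1) (hs : Helper40.EL.ic s 0 = 0) :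
    Helper40.EL.ic (trn s r h0 h1) 0 = 0 := by
  have h2 := ic_trn_le s h0 h1 0
  rw [mul_zero, hs] at h2
  have h3 := Helper40.EL.ic_nonneg (s := trn s r h0 h1) le_rfl zero_le_one
  have h4 : Helper40.EL.ic (trn s r h0 h1) 0 ≤ 0 := by
    by_contra hc
    push Not at hc
    have := mul_pos h0 hc
    linarith
  exact le_antisymm h4 h3

end

end Pool.Agent.Helper52.SL
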