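import Pool.Agent.Helper52.SL.Plv
import Pool.Agent.Helper42.NS.Hfb

/-! Robustness of the values of forms on fixed linear projections carried by the labels of the windows of the big
system: a countable list of functionals which gives robustness for all real windows; the gauge of thickness `HfP` of
helper3 as a gauge in the sense of helper42. -/

set_option autoImplicit false

namespace Pool.Agent.Helper52.SL

open Finset Filter Topology Matrix Pool.Agent.Helper69.RK Pool.Agent.Helper31.EC Pool.Agent.Helper31.EC.Sp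
open Pool.Agent.Helper40.EL Pool.Agent.Helper42.NS Pool.Agent.Helper52.KP
open Pool.Agent.Helper95.LF Pool.Agent.Helper3.LF Pool.Agent.Helper48.NS Pool.Agent.Helper89.LX
open Pool.Agent.Helper3.PR Pool.Agent.Helper59.EV Pool.Agent.Helper3.SG

noncomputable section

variable {m q D : ℕ}

/-! ### robustness of one value -/

section
variable {V : FV q D} {R : Matrix (Fin q) (Fin m) ℝ} {S : Sp} {s : Sys S m}

theorem pvF_le (V : FV q D) (R : Matrix (Fin q) (Fin m) ℝ) (c : ℝ) {S : Sp} (s : Sys S m) :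
    (pvF V R c).f S s ≤ V.M := gvf_le V (prB R s) (cA s c) (cB s)

theorem pvF_mono (V : FV q D) (R : Matrix (Fin q) (Fin m) ℝ) {c c' : ℝ} (h : c ≤ c') {S : Sp} (s : Sys S m) :
    (pvF V R c).f S s ≤ (pvF V R c').f S s := gvf_window_mono V s (prB R s) h

theorem pvF_right (V : FV q D) (R : Matrix (Fin q) (Fin m) ℝ) {S : Sp} (s : Sys S m) {c v : ℝ}
    (h : ∀ c', c < c' → v ≤ (pvF V R c').f S s) : v ≤ (pvF V R c).f S s := gvf_right V s (prB R s) h

/-- rational windows are enough -/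
theorem pvF_rob_of_rat (h : ∀ r : ℚ, RobF (pvF V R (r : ℝ)) s) (c : ℝ) : RobF (pvF V R c) s := by
  intro T p E hE
  apply le_antisymm
  · apply pvF_right
    intro c' hc'
    obtain ⟨r, h1, h2⟩ := exists_rat_btwn hc'
    refine (pvF_mono V R h1.le _).trans ?_
    rw [h r T p E hE]
    exact pvF_mono V R h2.le s
  · apply pvF_right
    intro c' hc'
    obtain ⟨r, h1, h2⟩ := exists_rat_btwn hc'
    refine (pvF_mono V R h1.le _).trans ?_
    rw [← h r T p E hE]
    exact pvF_mono V R h2.le _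

end

/-! ### countable lists -/

/-- a value and a fixed projection -/
structure Vp (m : ℕ) where
  q : ℕ
  D : ℕ
  V : FV q D
  R : Matrix (Fin q) (Fin m) ℝ

/-- the functional of a value and a window -/
def Vp.F (v : Vp m) (c : ℝ) : Fnl m := pvF v.V v.R c

theorem Vp.F_le (v : Vp m) (c : ℝ) (S : Sp) (s : Sys S m) : (v.F c).f S s ≤ v.V.M := pvF_le v.V v.R c s

/-- the normalised functional -/
def Vp.N (v : Vp m) (c : ℝ) : Fnl m := (v.F c).smul (v.V.M + 1)⁻¹ (by have := v.V.M0; positivity) v.V.M (v.F_le c)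

theorem Vp.N_le (v : Vp m) (c : ℝ) (S : Sp) (s : Sys S m) : (v.N c).f S s ≤ 1 := by
  have h1 := v.F_le c S s
  have h2 := v.V.M0
  show (v.V.M + 1)⁻¹ * (v.F c).f S s ≤ 1
  rw [inv_mul_le_iff₀ (by linarith), mul_one]
  linarith

/-- the zero functional -/
def Fz (m : ℕ) : Fnl m where
  f := fun _ _ => 0
  nn := fun _ _ => le_rfl
  usc := fun _ _ _ => ⟨fun _ _ _ => True, fun _ _ => Eventually.of_forall fun _ => trivial, fun _ _ _ _ =>
    ul_le_const (UB_const 0) (Eventually.of_forall fun _ => le_rfl)⟩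
  spl := fun _ _ _ _ _ _ _ => by simp
  typ := fun _ _ _ _ _ _ _ => le_rfl
  pull := fun _ _ _ _ => rfl

variable {ι : Type} [Encodable ι]

/-- the list of functionals of a family of values -/
def valN (v : ι → Vp m) (n : ℕ) : Fnl m := match (Encodable.decode n : Option (ι × ℚ)) with
  | none => Fz m
  | some w => (v w.1).N (w.2 : ℝ)

theorem valN_le (v : ι → Vp m) (n : ℕ) (S : Sp) (s : Sys S m) : (valN v n).f S s ≤ 1 := by
  unfold valN
  rcases (Encodable.decode n : Option (ι × ℚ)) with _ | w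
  · exact zero_le_one
  · exact (v w.1).N_le _ S s

/-- robust for the family of values, all windows -/
def RobV {κ : Type} (v : κ → Vp m) {S : Sp} (s : Sys S m) : Prop := ∀ i (c : ℝ), RobF ((v i).F c) s

theorem robV_of_nat {v : ι → Vp m} {S : Sp} {s : Sys S m} (h : ∀ n, RobF (valN v n) s) : RobV v s := by
  intro i
  apply pvF_rob_of_rat
  intro r
  have h1 := h (Encodable.encode (i, r))
  unfold valN at h1
  rw [Encodable.encodek] at h1
  exact RobF_smul (by have := (v i).V.M0; positivity) h1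

theorem RobV.im {κ : Type} {v : κ → Vp m} {S : Sp} {s : Sys S m} (h : RobV v s) {T : Sp} (p : Pj T S)
    (E : ∀ k, (T.F k).Ω → Prop) (hE : 0 < ul (T.pr E)) : RobV v (s.im p E hE) := fun i c => RobF.im (h i c) p E hE

theorem RobV.pull {κ : Type} {v : κ → Vp m} {S : Sp} {s : Sys S m} (h : RobV v s) {T : Sp} (p : Pj T S) :
    RobV v (s.pull p) := fun i c => RobF.pull (h i c) p

/-- the volume of the forms of degree `D` on the projection `R` -/
def Vp.vol (R : Matrix (Fin q) (Fin m) ℝ) (D : ℕ) : Vp m := ⟨q, D, FV.vol q D, R⟩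

/-- the logarithmic determinant of the forms of degree `D` on the projection `R` -/
def Vp.det (R : Matrix (Fin q) (Fin m) ℝ) (D : ℕ) : Vp m := ⟨q, D, FV.det q D, R⟩

theorem Vp.vol_F (R : Matrix (Fin q) (Fin m) ℝ) (D : ℕ) (c : ℝ) {S : Sp} (s : Sys S m) :
    ((Vp.vol R D).F c).f S s = lvolP s (prB R s) D c / 2 := by
  show gvf (FV.vol q D) (prB R s) (cA s c) (cB s) = 2 * gvf (FV.vol q D) (prB R s) (cA s c) (cB s) / 2
  ring

section
variable {R : Matrix (Fin q) (Fin m) ℝ} {c : ℝ} {S : Sp} {s : Sys S m}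

/-- ROBUSTNESS OF THE VOLUME of the projection, labels of the window `c` of the big system -/
theorem lvolP_rob (h : RobF ((Vp.vol R D).F c) s) {T : Sp} (p : Pj T S) (E : ∀ k, (T.F k).Ω → Prop)
    (hE : 0 < ul (T.pr E)) : lvolP (s.im p E hE) (prB R (s.im p E hE)) D c = lvolP s (prB R s) D c := by
  have h1 := h T p E hE
  rw [Vp.vol_F, Vp.vol_F] at h1
  linarith

/-- the same with the restricted projection -/
theorem lvolP_rob' (h : RobF ((Vp.vol R D).F c) s) {T : Sp} (p : Pj T S) (E : ∀ k, (T.F k).Ω → Prop)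
    (hE : 0 < ul (T.pr E)) : lvolP (s.im p E hE) ((prB R s).im p E hE) D c = lvolP s (prB R s) D c :=
  lvolP_rob h p E hE

/-- forms on an event of an extension carried by labels of the window `c` of the restricted system have at most the
volume of the canonical form of the window `c` of `s` -/
theorem lgd_le_rob (h : RobF ((Vp.vol R D).F c) s) {T : Sp} (p : Pj T S) (E : ∀ k, (T.F k).Ω → Prop)
    (hE : 0 < ul (T.pr E)) {x : ∀ k, FD ((Sp.im p E).F k) (Mon (q + 1) D)}
    (hx : (gau (prB R (s.im p E hE)) D).Ad (cA (s.im p E hE) c) (cB (s.im p E hE)) x) :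
    ul (fun k => lgd (prB R (s.im p E hE)) D x k / ((Sp.im p E).F k).n) ≤ lvolP s (prB R s) D c := by
  rw [← lvolP_rob h p E hE]
  exact lgd_le_lvolP (s.im p E hE) (prB R (s.im p E hE)) hx

end

/-! ### the gauge of the thickness of the projection -/

/-- the gauge of polynomials of degree at most `D` on the projection -/
def GDP (R : Matrix (Fin q) (Fin m) ℝ) (D : ℕ) : Gg m where
  Frm := Matrix (Mon (q + 1) D) (Mon (q + 1) D) ℝ
  cap := fun n A => Cpd (2 ^ ((2 * (D : ℝ) + 1 + 1) * n)) A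
  phi := fun n A a x t => Pool.Agent.Helper3.LF.phi (2 ^ (-(1 * n))) A
    (pl (fun i => ∑ j, R i j * a j) (fun i => ∑ j, R i j * x j) t)
  gam := fun n A a x t => Pool.Agent.Helper3.LF.gam (2 ^ (-(1 * n))) A
    (pl (fun i => ∑ j, R i j * a j) (fun i => ∑ j, R i j * x j) t)
  one := fun _ => 1
  cap_one := fun n hn => Cpd_one (Real.one_le_rpow (by norm_num) (by positivity))
  D := 4 * D
  C := nn (q + 1) D * Fintype.card (Mon (q + 1) D) * (m * mbd R + 1) ^ (2 * D)
  C0 := by
    have := nn_one (q + 1) D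
    have := mbd_nonneg R
    positivity
  phi_one := fun n a x t K hn hK ha hx ht => by
    have hd0 : (0 : ℝ) < 2 ^ (-(1 * n)) := by positivity
    have hd : (2 : ℝ) ^ (-(1 * n)) ≤ 1 := Real.rpow_le_one_of_one_le_of_nonpos (by norm_num) (by linarith)
    have hb0 := mbd_nonneg R
    have hmb : 0 ≤ (m : ℝ) * mbd R := by positivity
    have hsum : ∀ (y : Fin m → ℝ), (∀ i, |y i| ≤ K) → ∀ i, |∑ j, R i j * y j| ≤ m * mbd R * K := by
      intro y hy i
      refine (Finset.abs_sum_le_sum_abs _ _).trans ((Finset.sum_le_card_nsmul _ _ (mbd R * K) fun j _ => ?_).trans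
        (le_of_eq ?_))
      · rw [abs_mul]
        exact mul_le_mul (le_mbd R i j) (hy j) (abs_nonneg _) hb0
      · rw [nsmul_eq_mul, Finset.card_univ, Fintype.card_fin]
        ring
    set b : ℝ := m * mbd R with hb
    have h2 := phi_le (1 : Matrix (Mon (q + 1) D) (Mon (q + 1) D) ℝ) 1 (fun x => by
      rw [Matrix.one_mulVec, one_mul]) zero_le_one (2 ^ (-(1 * n))) ((b + 1) * (K + 2) ^ 2) hd0.le
      (by nlinarith [mul_nonneg hmb (sq_nonneg (K + 2))])
      (pl (fun i => ∑ j, R i j * a j) (fun i => ∑ j, R i j * x j) t) (fun i => by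
        have h3 : |pl (fun i => ∑ j, R i j * a j) (fun i => ∑ j, R i j * x j) t i| ≤ K + b * K + K * (b * K) := by
          refine Fin.cases ?_ (fun j => ?_) i
          · show |t| ≤ _
            have e1 : 0 ≤ b * K := mul_nonneg hmb hK
            have e2 : 0 ≤ K * (b * K) := mul_nonneg hK e1
            linarith
          · show |(∑ l, R j l * a l) + t * (∑ l, R j l * x l)| ≤ _
            have e1 := abs_add_le (∑ l, R j l * a l) (t * (∑ l, R j l * x l))
            rw [abs_mul] at e1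
            have e2 : |t| * |∑ l, R j l * x l| ≤ K * (b * K) := mul_le_mul ht (hsum x hx j) (abs_nonneg _) hK
            have e3 := hsum a ha j
            linarith
        have e4 : 0 ≤ b * K := mul_nonneg hmb hK
        nlinarith [mul_nonneg hmb hK, mul_nonneg hmb (sq_nonneg K)])
    rw [mul_one] at h2
    refine h2.trans (le_of_eq ?_)
    rw [mul_pow, ← pow_mul]
    have e5 : 2 * (2 * D) = 4 * D := by ring
    rw [e5]
    ring

section
variable {R : Matrix (Fin q) (Fin m) ℝ} {S : Sp} {s : Sys S m}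

/-- a label with form as a label with two forms -/
def toFDP {k : ℕ} (f : FFm (GDP R D) (s.fin k)) : FD (S.F k) (Mon (q + 1) D) where
  l := f.l
  g := f.A
  g' := f.A
  meas := fun ω ω' a b c d => ⟨f.hA ω ω' a b c d, f.hA ω ω' a b c d⟩

/-- a label with two forms as a label with form -/
def ofFDP {k : ℕ} (x : FD (S.F k) (Mon (q + 1) D))
    (h : ∀ ω, x.l.T.μ ω ≠ 0 → Cpd (2 ^ ((2 * (D : ℝ) + 1 + 1) * (S.F k).n)) (x.g ω)) : FFm (GDP R D) (s.fin k) where
  l := x.l
  A := x.g
  hA := fun ω ω' a b c d => (x.meas ω ω' a b c d).1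
  hc := h

theorem HH_of_HfP {c σ : ℝ} (h : HfP s (prB R s) D c σ) : HH (GDP R D) s c σ := by
  classical
  obtain ⟨x, hx, hl⟩ := h
  set f : LFm (GDP R D) s := fun k =>
    if hk : ∀ ω, (x k).l.T.μ ω ≠ 0 → Cpd (2 ^ ((2 * (D : ℝ) + 1 + 1) * (S.F k).n)) ((x k).g ω) then ofFDP (x k) hk
    else FFm.triv (GDP R D) (s.fin k) with hf
  have hcp : ∀ᶠ k in UF, ∀ ω, (x k).l.T.μ ω ≠ 0 → Cpd (2 ^ ((2 * (D : ℝ) + 1 + 1) * (S.F k).n)) ((x k).g ω) := by
    filter_upwards [hx 1 one_pos] with k hk ω hω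
    exact (hk.2.2.1 ω hω).1
  have hfk : ∀ᶠ k in UF, ∃ hk, f k = ofFDP (x k) hk := by
    filter_upwards [hcp] with k hk
    exact ⟨hk, by rw [hf]; exact dif_pos hk⟩
  have hlk : ∀ A : Part S, (∀ η : ℝ, 0 < η → ∀ᶠ k in UF, (x k).l.leak (A k) ≤ η * (S.F k).n) →
      Nul S (fun k => (f.lab k).leak (A k)) := by
    intro A hA
    show Tendsto (fun k => (f.lab k).leak (A k) / (S.F k).n) UF (𝓝 0)
    rw [Metric.tendsto_nhds]
    intro e he
    filter_upwards [hfk, hA (e / 2) (by linarith)] with k ⟨hk, h1⟩ h2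
    have h3 : (f.lab k).leak (A k) = (x k).l.leak (A k) := by
      show (f k).l.leak (A k) = _
      rw [h1]; rfl
    have hn := (S.F k).pos
    rw [Real.dist_eq, sub_zero, h3, abs_of_nonneg (div_nonneg (FLab.leak_nonneg _ _) hn.le), div_lt_iff₀ hn]
    nlinarith
  refine ⟨f, ⟨hlk _ fun η hη => ?_, hlk _ fun η hη => ?_⟩, fun e he => ?_, fun e he => ?_⟩
  · filter_upwards [hx η hη] with k hk using hk.1
  · filter_upwards [hx η hη] with k hk using hk.2.1
  · filter_upwards [hfk, hx e he] with k ⟨hk, h1⟩ h2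
    rw [h1]
    exact pb_of_compl h2.2.2.2.1
  · have h3 := (hl e he).eventually (gt_mem_nhds he)
    filter_upwards [hfk, h3] with k ⟨hk, h1⟩ h2
    rw [h1]
    exact pb_of_compl h2.le

theorem HfP_of_HH {c σ : ℝ} (h : HH (GDP R D) s c σ) : HfP s (prB R s) D c σ := by
  obtain ⟨f, hf, hb, hl⟩ := h
  refine ⟨fun k => toFDP (f k), fun η hη => ?_, fun e he => ?_⟩
  · filter_upwards [hf.1.eventually (gt_mem_nhds hη), hf.2.eventually (gt_mem_nhds hη), hb η hη] with k a b d
    rw [div_lt_iff₀ (S.F k).pos] at a b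
    exact ⟨a.le, b.le, fun ω hω => ⟨(f k).hc ω hω, (f k).hc ω hω⟩, pb_compl_le d, pb_compl_le d⟩
  · rw [Metric.tendsto_nhds]
    intro ε hε
    have he2 : 0 < min e (ε / 2) := lt_min he (by linarith)
    filter_upwards [hl _ he2] with k hk
    rw [Real.dist_eq, sub_zero, abs_of_nonneg (FSp.pb_nonneg _ _)]
    have h1 := (f k).gp_anti (show 2 * (σ - e) ≤ 2 * (σ - min e (ε / 2)) by
      have := min_le_left e (ε / 2)
      linarith)
    have h2 : (toFDP (f k)).l.T.pb (fun ω => ¬ 2 ^ (2 * (σ - e) * (S.F k).n) ≤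
        sga (prB R s) D k ((toFDP (f k)).l.p.π ω) ((toFDP (f k)).g ω)) ≤ min e (ε / 2) :=
      pb_compl_le (hk.trans h1)
    have := min_le_right e (ε / 2)
    linarith

/-- THE BRIDGE -/
theorem HfP_iff_HH {c σ : ℝ} : HfP s (prB R s) D c σ ↔ HH (GDP R D) s c σ := ⟨HH_of_HfP, HfP_of_HH⟩

theorem HfP_iff_psi {c σ : ℝ} : HfP s (prB R s) D c σ ↔ psi (GDP R D) s c σ = 1 := HfP_iff_HH.trans (HH_iff s)

/-- ROBUSTNESS of the thickness of the projection, labels of the windows of the big system -/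
theorem HfP_im {κ : Type} {G : κ → Gg m} (h : RobustG G s) {i : κ} (hi : G i = GDP R D) {T : Sp} (p : Pj T S)
    (E : ∀ k, (T.F k).Ω → Prop) (hE : 0 < ul (T.pr E)) {c σ : ℝ} :
    HfP (s.im p E hE) (prB R (s.im p E hE)) D c σ ↔ HfP s (prB R s) D c σ := by
  rw [HfP_iff_psi, HfP_iff_psi, ← hi, h i T p E hE c σ]

theorem lamP_im {κ : Type} {G : κ → Gg m} (h : RobustG G s) {i : κ} (hi : G i = GDP R D) {T : Sp} (p : Pj T S)
    (E : ∀ k, (T.F k).Ω → Prop) (hE : 0 < ul (T.pr E)) (c : ℝ) :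
    lamP (s.im p E hE) (prB R (s.im p E hE)) D c = lamP s (prB R s) D c := by
  unfold lamP
  simp only [HfP_im h hi p E hE]

end

end

end Pool.Agent.Helper52.SL
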