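import Pool.Agent.Helper52.SL.Stage
import Pool.Agent.Helper52.SL.Ext
import Pool.Agent.Helper54.NS.Dens

/-! SELECTION (39c (4.1), 55b sect. 4): from a system with `h(x) = m`, `h(P|t) < m` to a class of extremal, rich,
connected systems on which the profile, `i`, the `psi` of countably many gauges and countably many functionals are
constant (so every member is robust), closed under diagonals and restrictions to events of extensions; choice of the
truncation level. -/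

set_option autoImplicit false

namespace Pool.Agent.Helper52.SL

open Finset Filter Topology Pool.Agent.Helper69.RK Pool.Agent.Helper31.EC Pool.Agent.Helper31.EC.Sp
open Pool.Agent.Helper40.EL Pool.Agent.Helper42.NS Pool.Agent.Helper52.KP Pool.Agent.Helper80.MX MeasureTheory Set

noncomputable section

variable {m : ℕ}

/-- the class of extremal systems -/
theorem cls_extremal {th : ℝ} (h0 : 0 ≤ th) : Cls (fun (S : Sp) (s : Sys S m) => Extremal th s) where
  dg := diag_extremal th h0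
  im := fun _ _ hs _ p E hE => Sys.Extremal.im hs p E hE
  ne := exists_extremal m th h0

/-- `S` is extremal, rich and connected -/
structure Good (th g : ℝ) {S : Sp} (s : Sys S m) : Prop where
  ex : Extremal th s
  lag : s.lag th ≤ -g
  rich : Rich s g
  con : Helper40.EL.ic s 0 = 0

/-- increments of the point profile are at most `m` per level -/
theorem y_incr {S : Sp} (s : Sys S m) {a b : ℝ} (h : a ≤ b) : s.F 0 b - s.F 0 a ≤ m * (b - a) := by
  have := s.F_lip_right (u := 0) h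
  linarith

theorem y_mono {S : Sp} (s : Sys S m) {a b : ℝ} (h : a ≤ b) : s.F 0 a ≤ s.F 0 b := s.F_mono le_rfl h

open scoped NNReal in
theorem y_lip {S : Sp} (s : Sys S m) : LipschitzWith (m : ℝ≥0) (s.F 0) := by
  apply LipschitzWith.of_le_add_mul
  intro a b
  have e : ((m : ℝ≥0) : ℝ) = m := by simp
  rw [e, Real.dist_eq]
  rcases le_total a b with h | h
  · have h1 := y_mono s h
    have h2 : 0 ≤ (m : ℝ) * |a - b| := by positivity
    linarith
  · have h1 := y_incr s h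
    rw [abs_of_nonneg (sub_nonneg.mpr h)]
    linarith

/-- SELECTION -/
theorem select {S0 : Sp} (s0 : Sys S0 m) (hx : H (s0.x.dg 1) = m) (hP : h (s0.P.dg 1) s0.T < m) (G : ℕ → Gg m)
    (Φ : ℕ → Fnl m) (M : ℝ) (hM : ∀ q S s, (Φ q).f S s ≤ M) :
    ∃ (th g : ℝ), 0 ≤ th ∧ th < 1 ∧ 0 < g ∧
    ∃ (F0 : ℝ → ℝ → ℝ) (i0 : ℝ → ℝ) (ψ0 : ℕ → ℝ → ℝ → ℝ) (φ0 : ℕ → ℝ) (C' : ∀ S : Sp, Sys S m → Prop), Cls C' ∧
      (∀ S s, C' S s → Good th g s ∧ Val G Φ F0 i0 ψ0 φ0 s ∧ RobA G Φ s) ∧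
      ∀ L : ℕ → Lv, ∃ (F1 : ℕ → ℝ → ℝ → ℝ) (i1 : ℕ → ℝ → ℝ) (ψ1 : ℕ → ℕ → ℝ → ℝ → ℝ) (φ1 : ℕ → ℕ → ℝ)
        (C'' : ∀ S : Sp, Sys S m → Prop), Cls C'' ∧ (∀ S s, C'' S s → C' S s) ∧
        ∀ S (s : Sys S m), C'' S s → ∀ q, Val G Φ (F1 q) (i1 q) (ψ1 q) (φ1 q) (trn s (L q).1 (L q).2.1 (L q).2.2) ∧
          RobA G Φ (trn s (L q).1 (L q).2.1 (L q).2.2) := by
  obtain ⟨th, g, h0, h1, hg, -, h2⟩ := exists_rich s0 hx hP
  obtain ⟨F0, i0, ψ0, φ0, C', hC', hv, hL⟩ := two_steps (cls_extremal (m := m) h0) G Φ M hM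
  refine ⟨th, g, h0, h1, hg, F0, i0, ψ0, φ0, C', hC', fun S s hs => ?_, hL⟩
  obtain ⟨he, hval, hrob⟩ := hv S s hs
  exact ⟨⟨he, (h2 S s he).1, (h2 S s he).2, ic_zero_of_extremal h0 h1 he⟩, hval, hrob⟩

/-- top increments of the point profile of good systems -/
theorem Good.top {th g : ℝ} (h0 : 0 ≤ th) (h1 : th < 1) {S : Sp} {s : Sys S m} (h : Good th g s) {e : ℝ} (he0 : 0 ≤ e)
    (he1 : e ≤ 1) : s.F 0 1 - s.F 0 e ≤ (m - g) * (1 - e) := by
  have hm : (0 : ℝ) ≤ m := Nat.cast_nonneg m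
  have key : ∀ e : ℝ, 0 < e → e ≤ 1 → s.F 0 1 - s.F 0 e ≤ (m - g) * (1 - e) := by
    intro e he0 he1
    refine (top_incr h0 h.ex he0 he1).trans (mul_le_mul_of_nonneg_right ?_ (by linarith))
    have := h.lag
    nlinarith
  rcases he0.eq_or_lt with rfl | he0
  · have t1 : Tendsto (fun e : ℝ => s.F 0 1 - s.F 0 e) (𝓝[>] 0) (𝓝 (s.F 0 1 - s.F 0 0)) :=
      (((y_lip s).continuous.tendsto 0).const_sub _).mono_left nhdsWithin_le_nhds
    have t2 : Tendsto (fun e : ℝ => ((m : ℝ) - g) * (1 - e)) (𝓝[>] 0) (𝓝 (((m : ℝ) - g) * (1 - 0))) :=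
      ((tendsto_id.const_sub 1).const_mul _).mono_left nhdsWithin_le_nhds
    refine le_of_tendsto_of_tendsto t1 t2 ?_
    filter_upwards [Ioc_mem_nhdsGT (show (0 : ℝ) < 1 from one_pos)] with e he
    exact key e he.1 he.2
  · exact key e he0 he1

/-- the set of levels at which the point profile has derivative at most `b` -/
def defic {S : Sp} (s : Sys S m) (b : ℝ) : Set ℝ := {r | ∃ y' ≤ b, HasDerivAt (s.F 0) y' r}

/-- CHOICE OF THE LEVEL `l`: in every interval `(p, 1)`, with any property of almost all levels; `l` is a left density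
point of the levels at which the point profile has derivative at most `m - g / 2` -/
theorem Good.level {th g : ℝ} (h0 : 0 ≤ th) (h1 : th < 1) (hg : 0 < g) {S : Sp} {s : Sys S m} (h : Good th g s) {p : ℝ}
    (hp0 : 0 ≤ p) (hp1 : p < 1) {Q : ℝ → Prop} (hQ : ∀ᵐ l, Q l) :
    ∃ l ∈ Ioo p 1, Q l ∧ l ∈ defic s (m - g / 2) ∧
      Tendsto (fun δ : ℝ => volume (Ioo (l - δ) l \ defic s (m - g / 2)) / ENNReal.ofReal δ) (𝓝[>] 0) (𝓝 0) := by
  have h2 := h.top h0 h1 hp0 hp1.le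
  have h3 : s.F 0 1 - s.F 0 p < (m - g / 2) * (1 - p) := by nlinarith
  exact Pool.Agent.Helper54.NS.exists_level hp1 ((y_lip s).lipschitzOnWith) h3 hQ

/-- truncations of good systems -/
theorem Good.trn_rich {th g : ℝ} {S : Sp} {s : Sys S m} (h : Good th g s) {l : ℝ} (h0 : 0 < l) (h1 : l ≤ 1) :
    Rich (Pool.Agent.Helper42.NS.trn s l h0 h1) g := h.rich.trn h0 h1

theorem Good.trn_con {th g : ℝ} {S : Sp} {s : Sys S m} (h : Good th g s) {l : ℝ} (h0 : 0 < l) (h1 : l ≤ 1) :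
    Helper40.EL.ic (Pool.Agent.Helper42.NS.trn s l h0 h1) 0 = 0 := ic_trn_zero h0 h1 h.con

/-- members of a class with the same values have the same deficient levels inside `(0,1)` -/
theorem defic_iff {G : ℕ → Gg m} {Φ : ℕ → Fnl m} {F0 : ℝ → ℝ → ℝ} {i0 : ℝ → ℝ} {ψ0 : ℕ → ℝ → ℝ → ℝ} {φ0 : ℕ → ℝ}
    {S : Sp} {s : Sys S m} (h : Val G Φ F0 i0 ψ0 φ0 s) {b r : ℝ} (hr : r ∈ Ioo (0 : ℝ) 1) :
    r ∈ defic s b ↔ ∃ y' ≤ b, HasDerivAt (F0 0) y' r := by
  have he : s.F 0 =ᶠ[𝓝 r] F0 0 := by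
    filter_upwards [Ioo_mem_nhds hr.1 hr.2] with v hv
    exact h.F 0 v le_rfl zero_le_one hv.1.le hv.2.le
  constructor
  · rintro ⟨y', h1, h2⟩
    exact ⟨y', h1, h2.congr_of_eventuallyEq he.symm⟩
  · rintro ⟨y', h1, h2⟩
    exact ⟨y', h1, h2.congr_of_eventuallyEq he⟩

/-- the point profile of the truncation -/
theorem y_trn {S : Sp} (s : Sys S m) {l : ℝ} (h0 : 0 < l) (h1 : l ≤ 1) {r : ℝ} (hr : r ≤ 1) :
    (trn s l h0 h1).F 0 r = s.F 0 (l * r) / l := by
  rw [F_trn s l h0 h1 zero_le_one hr, mul_zero]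

/-- deficient levels of the truncation -/
theorem defic_trn {S : Sp} (s : Sys S m) {l : ℝ} (h0 : 0 < l) (h1 : l ≤ 1) {b r : ℝ} (hr : r < 1) :
    r ∈ defic (trn s l h0 h1) b ↔ l * r ∈ defic s b := by
  have he : (trn s l h0 h1).F 0 =ᶠ[𝓝 r] fun v => s.F 0 (l * v) / l := by
    filter_upwards [Iio_mem_nhds hr] with v hv
    exact y_trn s h0 h1 (le_of_lt hv)
  have hm : ∀ y' : ℝ, HasDerivAt (fun v => s.F 0 (l * v) / l) y' r ↔ HasDerivAt (s.F 0) y' (l * r) := by
    intro y'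
    constructor
    · intro hd
      have h2 : HasDerivAt (fun w : ℝ => w / l) (1 / l) (l * r) := (hasDerivAt_id _).div_const l
      have e1 : l * r / l = r := by field_simp
      have h3 : HasDerivAt (fun v => s.F 0 (l * v) / l) y' (l * r / l) := by rw [e1]; exact hd
      have h4 := (h3.comp (l * r) h2).mul_const l
      have e2 : y' * (1 / l) * l = y' := by field_simp
      rw [e2] at h4
      refine h4.congr_of_eventuallyEq (Eventually.of_forall fun w => ?_)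
      show s.F 0 w = s.F 0 (l * (w / l)) / l * l
      have e3 : l * (w / l) = w := by field_simp
      rw [e3]
      field_simp
    · intro hd
      have h2 : HasDerivAt (fun v : ℝ => l * v) (l * 1) r := (hasDerivAt_id r).const_mul l
      have h4 := (hd.comp r h2).div_const l
      have e2 : y' * (l * 1) / l = y' := by field_simp
      rw [e2] at h4
      exact h4
  constructor
  · rintro ⟨y', h2, h3⟩
    exact ⟨y', h2, (hm y').mp (h3.congr_of_eventuallyEq he.symm)⟩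
  · rintro ⟨y', h2, h3⟩
    exact ⟨y', h2, ((hm y').mpr h3).congr_of_eventuallyEq he⟩

/-- density at the top level of the truncation -/
theorem dens_trn {S : Sp} (s : Sys S m) {l : ℝ} (h0 : 0 < l) (h1 : l ≤ 1) {b : ℝ}
    (hd : Tendsto (fun δ : ℝ => volume (Ioo (l - δ) l \ defic s b) / ENNReal.ofReal δ) (𝓝[>] 0) (𝓝 0)) :
    Tendsto (fun δ : ℝ => volume (Ioo (1 - δ) 1 \ defic (trn s l h0 h1) b) / ENNReal.ofReal δ) (𝓝[>] 0) (𝓝 0) := by
  have t1 : Tendsto (fun δ : ℝ => l * δ) (𝓝[>] 0) (𝓝[>] 0) := by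
    apply tendsto_nhdsWithin_of_tendsto_nhds_of_eventually_within
    · have : Tendsto (fun δ : ℝ => l * δ) (𝓝 0) (𝓝 (l * 0)) := tendsto_id.const_mul l
      rw [mul_zero] at this
      exact this.mono_left nhdsWithin_le_nhds
    · filter_upwards [self_mem_nhdsWithin] with δ hδ using mul_pos h0 hδ
  refine (hd.comp t1).congr' ?_
  filter_upwards [self_mem_nhdsWithin] with δ hδ
  have hδ' : (0 : ℝ) < δ := hδ
  have e1 : Ioo (1 - δ) 1 \ defic (trn s l h0 h1) b = (fun v => l * v) ⁻¹' (Ioo (l - l * δ) l \ defic s b) := by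
    ext v
    simp only [Set.mem_preimage, Set.mem_sdiff, Set.mem_Ioo]
    constructor
    · rintro ⟨⟨a1, a2⟩, a3⟩
      refine ⟨⟨by nlinarith, by nlinarith⟩, fun h => a3 ?_⟩
      rwa [defic_trn s h0 h1 a2]
    · rintro ⟨⟨a1, a2⟩, a3⟩
      have a4 : v < 1 := by
        by_contra hc
        push Not at hc
        nlinarith
      refine ⟨⟨?_, a4⟩, fun h => a3 ?_⟩
      · by_contra hc
        push Not at hc
        nlinarith
      · rwa [defic_trn s h0 h1 a4] at h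
  have e2 := Real.volume_preimage_mul_left h0.ne' (Ioo (l - l * δ) l \ defic s b)
  show volume (Ioo (l - l * δ) l \ defic s b) / ENNReal.ofReal (l * δ) = _
  rw [e1]
  have e3 : volume ((fun v => l * v) ⁻¹' (Ioo (l - l * δ) l \ defic s b)) =
      ENNReal.ofReal |l⁻¹| * volume (Ioo (l - l * δ) l \ defic s b) := e2
  rw [e3, abs_of_pos (inv_pos.mpr h0), ENNReal.ofReal_mul h0.le, ENNReal.ofReal_inv_of_pos h0]
  have hl0 : ENNReal.ofReal l ≠ 0 := by simp [h0]
  have hlt : ENNReal.ofReal l ≠ ⊤ := ENNReal.ofReal_ne_top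
  have hd0 : ENNReal.ofReal δ ≠ 0 := by simp [hδ']
  have hdt : ENNReal.ofReal δ ≠ ⊤ := ENNReal.ofReal_ne_top
  rw [ENNReal.div_eq_inv_mul, ENNReal.div_eq_inv_mul, ENNReal.mul_inv (Or.inl hl0) (Or.inl hlt)]
  ring

end

end Pool.Agent.Helper52.SL
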