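import Pool.Agent.Helper52.SL.Vol
import Pool.Agent.Helper59.EV.Chain

/-! THEOREM ROB, third part: passage to the space over the label `kappa_0`; if the statement `ST D m` fails, there is
a class of connected systems, closed under diagonals and under restrictions to events of extensions, on which the
regular volume exceeds the entropy of the points by a fixed amount. -/

set_option autoImplicit false

namespace Pool.Agent.Helper52.SL

open Finset Filter Topology Matrix Pool.Agent.Helper69.RK Pool.Agent.Helper31.EC Pool.Agent.Helper31.EC.Sp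
open Pool.Agent.Helper40.EL Pool.Agent.Helper42.NS Pool.Agent.Helper52.KP
open Pool.Agent.Helper95.LF Pool.Agent.Helper3.LF Pool.Agent.Helper48.NS Pool.Agent.Helper89.LX
open Pool.Agent.Helper3.PR Pool.Agent.Helper59.EV

noncomputable section

variable {m : ℕ} {S : Sp}

/-! ### the system over a label -/

section
variable (s : Sys S m) (l : Lab S) (hl : h (up1 l s.T) (up1 l (s.xi 1)) = 1)

theorem lA_ovS (c : ℝ) : lA (ovS s l hl) c = up1 l (lA s c) := by
  unfold lA Sys.xi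
  rw [ovS_a_dg, ovS_x_dg, ovS_t_dg, ← up1_sup, ← up1_sup]

theorem lB_ovS : lB (ovS s l hl) = up1 l (lB s) := by
  unfold lB
  rw [ovS_P_dg, ovS_T, ← up1_sup]

/-- systems over the maximal label of the window zero are connected -/
theorem ic_ovS_zero (hk : IsKap s 0 l) : Helper40.EL.ic (ovS s l hl) 0 = 0 := by
  have h1 := kap_isKap (ovS s l hl) 0
  have h2 := DMc_iff.mp h1.dm
  rw [lA_ovS, lB_ovS] at h2
  have h3 := Lab.IsMaxL.triv (IsKap_iff.mp hk) (kap (ovS s l hl) 0) h2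
  have h4 := h1.info_eq
  linarith

/-! the digits in the space over the label are exactly the digits of the space -/

theorem dl_ovS (r : ℝ) (k : ℕ) : ((ovS s l hl).fin k).dl r = (s.fin k).dl r := by
  have h1 : ((ovS s l hl).fin k).F.n = (s.fin k).F.n := ovr_n l k
  unfold FSy.dl
  rw [h1]

theorem ka_ovS (r : ℝ) (k : ℕ) : ((ovS s l hl).fin k).ka r = Setoid.comap (l k).p.π ((s.fin k).ka r) := by
  have h1 := dl_ovS s l hl r k
  unfold FSy.ka
  rw [h1]
  rfl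

theorem kx_ovS (r : ℝ) (k : ℕ) : ((ovS s l hl).fin k).kx r = Setoid.comap (l k).p.π ((s.fin k).kx r) := by
  have h1 := dl_ovS s l hl r k
  unfold FSy.kx
  rw [h1]
  rfl

theorem kt_ovS (r : ℝ) (k : ℕ) : ((ovS s l hl).fin k).kt r = Setoid.comap (l k).p.π ((s.fin k).kt r) := by
  have h1 := dl_ovS s l hl r k
  unfold FSy.kt
  rw [h1]
  rfl

theorem kP_ovS (r : ℝ) (k : ℕ) : ((ovS s l hl).fin k).kP r = Setoid.comap (l k).p.π ((s.fin k).kP r) := by
  have h1 := dl_ovS s l hl r k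
  unfold FSy.kP
  rw [h1]
  rfl

theorem cA_ovS (c : ℝ) : cA (ovS s l hl) c = l.up 1 one_pos (cA s c) := by
  funext k
  unfold cA
  rw [ka_ovS, kx_ovS, kt_ovS]
  rfl

theorem cB_ovS : cB (ovS s l hl) = l.up 1 one_pos (cB s) := by
  funext k
  unfold cB
  rw [kP_ovS, kt_ovS]
  rfl

end

/-- a label with forms over a label, as a label with forms of the space -/
def cmpFD {F : FSp} {ι : Type} (l : FLab F) (y : FD (l.ovr 1 one_pos) ι) : FD F ι where
  l := l.comp 1 one_pos y.l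
  g := y.g
  g' := y.g'
  meas := by
    intro ω ω' h h' hV hZ
    have h1 : l.T.μ (y.l.p.π ω) ≠ 0 := y.l.p.supp ω h
    have h2 : l.T.μ (y.l.p.π ω') ≠ 0 := y.l.p.supp ω' h'
    exact y.meas ω ω' h h' hV.2 ((y.l.p.hZ ω ω' h h').mpr ⟨hV.1, (l.p.hZ _ _ h1 h2).mpr hZ⟩)

section
variable {D : ℕ} {s : Sys S m} {l : Lab S} {hl : h (up1 l s.T) (up1 l (s.xi 1)) = 1}

theorem sph_ovS (k : ℕ) (ω : ((l.ovr 1 one_pos).F k).Ω) (A : Matrix (Mon (m + 1) D) (Mon (m + 1) D) ℝ) :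
    sph (ovS s l hl) D k ω A = sph s D k ((l k).p.π ω) A := by
  unfold sph
  rw [ovr_dl]
  rfl

theorem cp_ovS (k : ℕ) : (gau (ovS s l hl) D).cp k = (gau s D).cp k := by
  have h1 : (gau (ovS s l hl) D).C = (gau s D).C := rfl
  unfold Gau.cp
  rw [h1, ovr_n]

/-- admissible labels over an admissible label are admissible -/
theorem cmp_Ad {c : ℝ} (hd : DMc s c l) {y : ∀ k, FD ((l.ovr 1 one_pos).F k) (Mon (m + 1) D)}
    (hy : (gau (ovS s l hl) D).Ad (cA (ovS s l hl) c) (cB (ovS s l hl)) y) :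
    (gau s D).Ad (cA s c) (cB s) (fun k => cmpFD (l k) (y k)) := by
  intro η hη
  have h2 : 0 < η / 2 := half_pos hη
  filter_upwards [hy _ h2, hd.1.eventually (gt_mem_nhds h2), hd.2.eventually (gt_mem_nhds h2)] with k a b c'
  have hn := (S.F k).pos
  have en : ((l.ovr 1 one_pos).F k).n = (S.F k).n := ovr_n l k
  rw [div_lt_iff₀ hn] at b c'
  obtain ⟨a1, a2, a3, a4, a5⟩ := a
  rw [en, cA_ovS] at a1
  rw [en, cB_ovS] at a2
  rw [en] at a4 a5
  have e2 : η / 2 * (S.F k).n ≤ η * (S.F k).n := by nlinarith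
  have hpow : (2 : ℝ) ^ (η / 2 * (S.F k).n) ≤ 2 ^ (η * (S.F k).n) :=
    Real.rpow_le_rpow_of_exponent_le (by norm_num) e2
  have hb : ∀ g : (y k).l.T.Ω → Matrix (Mon (m + 1) D) (Mon (m + 1) D) ℝ,
      (y k).l.T.pb (fun ω => ¬ (gau (ovS s l hl) D).φ k ((y k).l.p.π ω) (g ω) ≤ 2 ^ (η / 2 * (S.F k).n)) ≤ η / 2 →
      (y k).l.T.pb (fun ω => ¬ sph s D k ((l k).p.π ((y k).l.p.π ω)) (g ω) ≤ 2 ^ (η * (S.F k).n)) ≤ η := by
    intro g hg
    refine le_trans (FSp.pb_mono _ ?_) (hg.trans (by linarith))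
    intro ω _ h4 h5
    apply h4
    have h6 : sph (ovS s l hl) D k ((y k).l.p.π ω) (g ω) ≤ 2 ^ (η / 2 * (S.F k).n) := h5
    rw [sph_ovS] at h6
    exact h6.trans hpow
  refine ⟨?_, ?_, fun ω hω => ?_, hb (y k).g a4, hb (y k).g' a5⟩
  · have := (l k).comp_leak_le 1 one_pos (y k).l (cA s c k)
    exact le_trans this (le_trans (add_le_add b.le a1) (by linarith))
  · have := (l k).comp_leak_le 1 one_pos (y k).l (cB s k)
    exact le_trans this (le_trans (add_le_add c'.le a2) (by linarith))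
  · have h3 := a3 ω hω
    rw [cp_ovS] at h3
    exact h3

theorem lgd_cmp (y : ∀ k, FD ((l.ovr 1 one_pos).F k) (Mon (m + 1) D)) (k : ℕ) :
    lgd s D (fun k => cmpFD (l k) (y k)) k = lgd (ovS s l hl) D y k := by
  have h1 : ∀ ω : (y k).l.T.Ω, Real.logb 2 (GG (S.dl 1 k) ((y k).g ω) (ptf s k ((l k).p.π ((y k).l.p.π ω)))) =
      Real.logb 2 (GG ((l.ovr 1 one_pos).dl 1 k) ((y k).g ω) (ptf (ovS s l hl) k ((y k).l.p.π ω))) := fun ω => by
    rw [ovr_dl]
    rfl
  exact Finset.sum_congr rfl fun ω _ => congrArg (fun z => (y k).l.T.μ ω * z) (h1 ω)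

/-- VOLUMES OVER A LABEL: the volume determinant over a label of the window is at most the one of the window -/
theorem lvol_ovS_le {c : ℝ} (hd : DMc s c l) : lvol (ovS s l hl) D c ≤ lvol s D c := by
  obtain ⟨y, hy⟩ := exists_can (ovS s l hl) D c
  have h1 := lgd_le_lvol s (cmp_Ad hd hy.1.1)
  have h2 := lvol_eq (ovS s l hl) hy.1
  have h3 : ∀ k, lgd (ovS s l hl) D y k / ((l.ovr 1 one_pos).F k).n =
      lgd s D (fun k => cmpFD (l k) (y k)) k / (S.F k).n := fun k =>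
    congrArg₂ (· / ·) (lgd_cmp (s := s) (hl := hl) y k).symm (ovr_n l k)
  rw [← h2]
  exact (congrArg ul (funext h3)).le.trans h1

end

/-! ### the regular volume -/

theorem rvol_eq (s : Sys S m) {D : ℕ} {x : ∀ k, FD (S.F k) (Mon (m + 1) D)}
    (hx : (gau s D).Opt (cA s 0) (cB s) x) : rvol s D x = m - lvol s D 0 / 2 := by
  have h1 := lvol_eq s hx
  unfold rvol
  rw [← h1]
  congr 1
  have h2 : (fun k => ∑ ω, (x k).l.T.μ ω *
      (Real.logb 2 (GG (S.dl 1 k) ((x k).g ω) (ptf s k ((x k).l.p.π ω))) / (2 * (S.F k).n))) =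
      fun k => lgd s D x k / (S.F k).n / 2 := by
    funext k
    rw [← sum_gX]
    rfl
  rw [h2]
  exact ul_eq ((ul_tendsto (lgd_UB s hx.1)).div_const 2)

theorem F_zero_one (s : Sys S m) : s.F 0 1 = h (s.P.dg 1) s.T := by
  unfold Sys.F
  rw [s.x.dg_nonpos le_rfl, bot_sup_eq]

/-- THEOREM ROB FOR THE REGULAR VOLUME, from one connected system -/
theorem exists_cls_vol {D : ℕ} (s0 : Sys S m) (h0 : Helper40.EL.ic s0 0 = 0) {d : ℝ}
    (hd : s0.F 0 1 + lvol s0 D 0 / 2 < m - d) :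
    ∃ (C : ∀ S : Sp, Sys S m → Prop) (d' : ℝ), d < d' ∧ Cls C ∧ ∀ (S : Sp) (s : Sys S m), C S s →
      Helper40.EL.ic s 0 = 0 ∧ s.F 0 1 + lvol s D 0 / 2 ≤ m - d' := by
  set e : ℝ := (m - d - (s0.F 0 1 + lvol s0 D 0 / 2)) / 2 with he
  have he0 : 0 < e := by rw [he]; linarith
  obtain ⟨η, hη, h1⟩ := volL_small D s0 e he0
  obtain ⟨C, B', h2, h3, h4⟩ := exists_cls_con s0 h0 (((volF η hη D).sfn).add (SFn.prof 0 1))
    (B := m - d + 2 / η) (by
      show (volF η hη D).f S s0 + s0.F 0 1 < _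
      rw [volF_f]
      linarith)
  refine ⟨C, m + 2 / η - B', by linarith, h3, fun T s hs => ⟨(h4 T s hs).1, ?_⟩⟩
  have h5 : (volF η hη D).f T s + s.F 0 1 ≤ B' := (h4 T s hs).2
  rw [volF_f] at h5
  have h6 := lvol_le_volL hη D s
  linarith

/-- THEOREM ROB for `ST D m` -/
theorem exists_cls_of_not_ST {D : ℕ} (hST : ¬ Pool.Agent.Helper59.EV.ST D m) :
    ∃ (C : ∀ S : Sp, Sys S m → Prop) (d : ℝ), 0 < d ∧ Cls C ∧ ∀ (S : Sp) (s : Sys S m), C S s →
      Helper40.EL.ic s 0 = 0 ∧ s.F 0 1 + lvol s D 0 / 2 ≤ m - d := by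
  unfold Pool.Agent.Helper59.EV.ST at hST
  push Not at hST
  obtain ⟨S, s, x, hx, hlt⟩ := hST
  have hk : IsKap s 0 (Pool.Agent.Helper59.EV.lb x) := hx.2
  have hl : h (up1 (Pool.Agent.Helper59.EV.lb x) s.T) (up1 (Pool.Agent.Helper59.EV.lb x) (s.xi 1)) = 1 := by
    have := hk.h_T le_rfl zero_le_one
    rwa [sub_zero] at this
  have h1 := ic_ovS_zero s (Pool.Agent.Helper59.EV.lb x) hl hk
  have h2 : (ovS s (Pool.Agent.Helper59.EV.lb x) hl).F 0 1 = h (up1 (Pool.Agent.Helper59.EV.lb x) (s.P.dg 1)) (up1 (Pool.Agent.Helper59.EV.lb x) s.T) := by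
    rw [F_zero_one, ovS_P_dg, ovS_T]
  have h3 := lvol_ovS_le (D := D) (hl := hl) hk.dm
  rw [rvol_eq s hx.1] at hlt
  exact exists_cls_vol (ovS s (Pool.Agent.Helper59.EV.lb x) hl) h1 (d := 0) (by rw [h2]; linarith)

/-- the conclusion in terms of canonical forms -/
theorem rvol_ge {D : ℕ} {s : Sys S m} {d : ℝ} (h0 : Helper40.EL.ic s 0 = 0)
    (h1 : s.F 0 1 + lvol s D 0 / 2 ≤ m - d) {x : ∀ k, FD (S.F k) (Mon (m + 1) D)} (hx : IsCan s D 0 x) :
    h (s.P.dg 1) s.T + d ≤ rvol s D x ∧ h (up1 (Pool.Agent.Helper59.EV.lb x) (s.P.dg 1)) (up1 (Pool.Agent.Helper59.EV.lb x) s.T) = h (s.P.dg 1) s.T := by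
  have hk : IsKap s 0 (Pool.Agent.Helper59.EV.lb x) := hx.2
  have h2 := hk.ic_P le_rfl zero_le_one
  rw [h0] at h2
  rw [F_zero_one] at h1
  rw [rvol_eq s hx.1]
  exact ⟨by linarith, by linarith⟩

end

end Pool.Agent.Helper52.SL
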