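import Pool.Agent.Helper52.SL.Fvl
import Pool.Agent.Helper52.SL.Std

/-! The suprema of values of forms over the admissible labels of a window are functionals in the sense of helper42;
they are attained. Instances: the regular volume and the expected logarithmic determinant of the canonical form.
SELECTION for `ST D m`. -/

set_option autoImplicit false

namespace Pool.Agent.Helper52.SL

open Finset Filter Topology Matrix Pool.Agent.Helper69.RK Pool.Agent.Helper31.EC Pool.Agent.Helper31.EC.Sp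
open Pool.Agent.Helper40.EL Pool.Agent.Helper42.NS Pool.Agent.Helper52.KP
open Pool.Agent.Helper95.LF Pool.Agent.Helper3.LF Pool.Agent.Helper48.NS Pool.Agent.Helper89.LX
open Pool.Agent.Helper3.PR Pool.Agent.Helper59.EV

noncomputable section

variable {m D : ℕ} (V : FV m D)

/-- the limit of the penalised values -/
def fvl (η c : ℝ) {S : Sp} (s : Sys S m) : ℝ := ul (fun k => fvo V η c (s.fin k))

theorem fvo_UB {η : ℝ} (h0 : 0 < η) (c : ℝ) {S : Sp} (s : Sys S m) : UB (fun k => fvo V η c (s.fin k)) :=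
  ⟨2 / η + V.M, Eventually.of_forall fun k => by
    have h1 := fvo_ge V h0 c (s.fin k)
    have h2 := fvo_le V h0 c (s.fin k)
    have h3 := V.M0
    have h4 : 0 < 2 / η := by positivity
    rw [abs_le]
    constructor <;> linarith⟩

theorem fvl_le {η : ℝ} (h0 : 0 < η) (c : ℝ) {S : Sp} (s : Sys S m) : fvl V η c s ≤ V.M :=
  ul_le_const (fvo_UB V h0 c s) (Eventually.of_forall fun k => fvo_le V h0 c (s.fin k))

theorem fvl_mono {η η' : ℝ} (h0 : 0 < η) (h : η ≤ η') (c : ℝ) {S : Sp} (s : Sys S m) : fvl V η c s ≤ fvl V η' c s :=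
  ul_mono (fvo_UB V h0 c s) (fvo_UB V (h0.trans_le h) c s) (Eventually.of_forall fun _ => fvo_mono V h0 h c _)

/-- the expected value of the first forms of a sequence of labels with forms -/
def ev {S : Sp} (s : Sys S m) (x : ∀ k, FD (S.F k) (Mon (m + 1) D)) (k : ℕ) : ℝ :=
  ∑ ω, (x k).l.T.μ ω * V.v (s.fin k) ((x k).l.p.π ω) ((x k).g ω)

theorem ev_bounds {S : Sp} (s : Sys S m) {A B : Part S} {x : ∀ k, FD (S.F k) (Mon (m + 1) D)}
    (hx : (gau s D).Ad A B x) : ∀ᶠ k in UF, 0 ≤ ev V s x k ∧ ev V s x k ≤ V.M := by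
  filter_upwards [V.le S s, hx 1 one_pos] with k h1 h2
  constructor
  · unfold ev
    refine Finset.sum_nonneg fun ω _ => ?_
    by_cases h0 : (x k).l.T.μ ω = 0
    · rw [h0, zero_mul]
    · exact mul_nonneg ((x k).l.T.nn ω) (V.nn (s.fin k) _ _ (h2.2.2.1 ω h0).1)
  · unfold ev
    exact sum_mul_le (F := (x k).l.T) _ _ fun ω hω => h1 _ ((x k).l.p.supp ω hω) _ (h2.2.2.1 ω hω).1

theorem ev_UB {S : Sp} (s : Sys S m) {A B : Part S} {x : ∀ k, FD (S.F k) (Mon (m + 1) D)}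
    (hx : (gau s D).Ad A B x) : UB (ev V s x) :=
  UB_of_nonneg_le ((ev_bounds V s hx).mono fun _ h => h.1) ((ev_bounds V s hx).mono fun _ h => h.2)

theorem fval2_wv (η : ℝ) (X : FSy m) (y : FD X.F (Mon (m + 1) D)) :
    fval2 (wv V η X) y = ∑ ω, y.l.T.μ ω * min (V.v X (y.l.p.π ω) (y.g ω)) V.M -
      (y.l.T.pb (fun ω => ¬ phi (X.dl 1) (y.g ω) (ptX X (y.l.p.π ω)) ≤ 2 ^ (η * X.F.n)) +
       y.l.T.pb (fun ω => ¬ phi (X.dl 1) (y.g' ω) (ptX X (y.l.p.π ω)) ≤ 2 ^ (η * X.F.n))) / η := by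
  rw [← sum_bX η D X y.l.T y.l.p.π y.g, ← sum_bX η D X y.l.T y.l.p.π y.g', ← Finset.sum_add_distrib,
    Finset.sum_div, ← Finset.sum_sub_distrib]
  unfold fval2 wv
  refine Finset.sum_congr rfl fun ω _ => ?_
  ring

theorem fvv_sys (η c : ℝ) {S : Sp} (s : Sys S m) (k : ℕ) (w : FD (S.F k) (Mon (m + 1) D)) :
    fvv V η c (s.fin k) w = ∑ ω, w.l.T.μ ω * min (V.v (s.fin k) (w.l.p.π ω) (w.g ω)) V.M -
      (w.l.T.pb (fun ω => ¬ sph s D k (w.l.p.π ω) (w.g ω) ≤ 2 ^ (η * (S.F k).n)) +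
       w.l.T.pb (fun ω => ¬ sph s D k (w.l.p.π ω) (w.g' ω) ≤ 2 ^ (η * (S.F k).n))) / η -
      (w.l.leak (cA s c k) + w.l.leak (cB s k)) / η / (S.F k).n :=
  congrArg (fun z => z - (w.l.leak (PA (s.fin k) c) + w.l.leak (PB (s.fin k))) / η / (s.fin k).F.n)
    (fval2_wv V η (s.fin k) w)

/-- admissible labels with forms -/
theorem ev_le_fvl {η : ℝ} (h0 : 0 < η) (c : ℝ) {S : Sp} (s : Sys S m) {x : ∀ k, FD (S.F k) (Mon (m + 1) D)}
    (hA : (gau s D).Ad (cA s c) (cB s) x) : ul (ev V s x) ≤ fvl V η c s := by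
  have hdm := Gau.Ad.dm (gau s D) hA
  -- the bad events
  have hbad : ∀ (g : ∀ k, (x k).l.T.Ω → Matrix (Mon (m + 1) D) (Mon (m + 1) D) ℝ)
      (_ : ∀ e : ℝ, 0 < e → ∀ᶠ k in UF, (x k).l.T.pb (fun ω => ¬ sph s D k ((x k).l.p.π ω) (g k ω) ≤
        2 ^ (e * (S.F k).n)) ≤ e),
      Tendsto (fun k => (x k).l.T.pb (fun ω => ¬ sph s D k ((x k).l.p.π ω) (g k ω) ≤ 2 ^ (η * (S.F k).n))) UF (𝓝 0) := by
    intro g hg
    rw [Metric.tendsto_nhds]
    intro e he
    filter_upwards [hg (min η (e / 2)) (lt_min h0 (half_pos he))] with k hk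
    rw [Real.dist_eq, sub_zero, abs_of_nonneg ((x k).l.T.pb_nonneg _)]
    have h2 : (x k).l.T.pb (fun ω => ¬ sph s D k ((x k).l.p.π ω) (g k ω) ≤ 2 ^ (η * (S.F k).n)) ≤
        (x k).l.T.pb (fun ω => ¬ sph s D k ((x k).l.p.π ω) (g k ω) ≤ 2 ^ (min η (e / 2) * (S.F k).n)) := by
      apply FSp.pb_mono
      intro ω _ h3 h4
      apply h3
      refine h4.trans (Real.rpow_le_rpow_of_exponent_le (by norm_num) ?_)
      exact mul_le_mul_of_nonneg_right (min_le_left _ _) (S.F k).pos.le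
    have h5 := min_le_right η (e / 2)
    linarith
  have t1 := hbad (fun k => (x k).g) fun e he => (hA e he).mono fun k hk => hk.2.2.2.1
  have t2 := hbad (fun k => (x k).g') fun e he => (hA e he).mono fun k hk => hk.2.2.2.2
  have t3 := ul_tendsto (ev_UB V s hA)
  have t4 : Tendsto (fun k => ev V s x k -
      ((x k).l.T.pb (fun ω => ¬ sph s D k ((x k).l.p.π ω) ((x k).g ω) ≤ 2 ^ (η * (S.F k).n)) +
       (x k).l.T.pb (fun ω => ¬ sph s D k ((x k).l.p.π ω) ((x k).g' ω) ≤ 2 ^ (η * (S.F k).n))) / η -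
      ((x k).l.leak (cA s c k) / (S.F k).n + (x k).l.leak (cB s k) / (S.F k).n) / η) UF
      (𝓝 (ul (ev V s x) - (0 + 0) / η - (0 + 0) / η)) :=
    (t3.sub ((t1.add t2).div_const η)).sub
      ((Filter.Tendsto.add (show Tendsto _ _ _ from hdm.1) (show Tendsto _ _ _ from hdm.2)).div_const η)
  rw [add_zero, zero_div, sub_zero, sub_zero] at t4
  refine le_of_tendsto_of_tendsto t4 (ul_tendsto (fvo_UB V h0 c s)) ?_
  filter_upwards [V.le S s, hA 1 one_pos] with k h1 h2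
  have hn := (S.F k).pos
  have hcap : capd D (s.fin k) (x k) := fun ω hω => h2.2.2.1 ω hω
  refine le_trans (le_of_eq ?_) (fvv_le_fvo V h0 c (s.fin k) hcap)
  have e2 : ∑ ω, (x k).l.T.μ ω * min (V.v (s.fin k) ((x k).l.p.π ω) ((x k).g ω)) V.M = ev V s x k := by
    refine Finset.sum_congr rfl fun ω _ => ?_
    by_cases h0 : (x k).l.T.μ ω = 0
    · rw [h0, zero_mul, zero_mul]
    · congr 1
      exact min_eq_left (h1 _ ((x k).l.p.supp ω h0) _ (h2.2.2.1 ω h0).1)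
  refine Eq.trans ?_ (fvv_sys V η c s k (x k)).symm
  rw [e2]
  have e3 : ∀ a b c n : ℝ, (a / n + b / n) / c = (a + b) / c / n := fun a b c n => by ring
  exact congrArg (fun z => ev V s x k -
    ((x k).l.T.pb (fun ω => ¬ sph s D k ((x k).l.p.π ω) ((x k).g ω) ≤ 2 ^ (η * (S.F k).n)) +
     (x k).l.T.pb (fun ω => ¬ sph s D k ((x k).l.p.π ω) ((x k).g' ω) ≤ 2 ^ (η * (S.F k).n))) / η - z)
    (e3 ((x k).l.leak (cA s c k)) ((x k).l.leak (cB s k)) η (S.F k).n)

theorem fvl_nonneg {η : ℝ} (h0 : 0 < η) (c : ℝ) {S : Sp} (s : Sys S m) : 0 ≤ fvl V η c s := by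
  have hA := (gau s D).triv_Ad (cA s c) (cB s)
  exact (const_le_ul (ev_UB V s hA) ((ev_bounds V s hA).mono fun _ h => h.1)).trans (ev_le_fvl V h0 c s hA)

/-- labels with forms of large penalised value are admissible -/
theorem adm_of_fvv {S : Sp} (s : Sys S m) {η η' v c : ℝ} (h0 : 0 < η) (hη : η * (V.M + 1) ≤ η') (hη' : η ≤ η')
    (hv : -1 ≤ v) {k : ℕ} {w : FD (S.F k) (Mon (m + 1) D)} (hcap : capd D (s.fin k) w)
    (h1 : v ≤ fvv V η c (s.fin k) w) :
    (gau s D).Adm (cA s c) (cB s) η' k w ∧ v ≤ ∑ ω, w.l.T.μ ω * V.v (s.fin k) (w.l.p.π ω) (w.g ω) := by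
  rw [fvv_sys] at h1
  have hn := (S.F k).pos
  have hm1 : ∑ ω, w.l.T.μ ω * min (V.v (s.fin k) (w.l.p.π ω) (w.g ω)) V.M ≤ V.M :=
    sum_mul_le (F := w.l.T) _ _ fun ω _ => min_le_right _ _
  have hm2 : ∑ ω, w.l.T.μ ω * min (V.v (s.fin k) (w.l.p.π ω) (w.g ω)) V.M ≤
      ∑ ω, w.l.T.μ ω * V.v (s.fin k) (w.l.p.π ω) (w.g ω) :=
    Finset.sum_le_sum fun ω _ => mul_le_mul_of_nonneg_left (min_le_left _ _) (w.l.T.nn ω)
  have ha := w.l.leak_nonneg (cA s c k)
  have hb := w.l.leak_nonneg (cB s k)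
  have kb : ∀ g : w.l.T.Ω → Matrix (Mon (m + 1) D) (Mon (m + 1) D) ℝ,
      w.l.T.pb (fun ω => ¬ (gau s D).φ k (w.l.p.π ω) (g ω) ≤ 2 ^ (η' * (S.F k).n)) ≤
      w.l.T.pb (fun ω => ¬ sph s D k (w.l.p.π ω) (g ω) ≤ 2 ^ (η * (S.F k).n)) := by
    intro g
    apply FSp.pb_mono
    intro ω _ h4 h5
    apply h4
    have h6 : (gau s D).φ k (w.l.p.π ω) (g ω) ≤ 2 ^ (η * (S.F k).n) := h5
    refine h6.trans (Real.rpow_le_rpow_of_exponent_le (by norm_num) ?_)
    exact mul_le_mul_of_nonneg_right hη' hn.le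
  have kb1 := kb w.g
  have kb2 := kb w.g'
  have hb10 : 0 ≤ w.l.T.pb (fun ω => ¬ sph s D k (w.l.p.π ω) (w.g ω) ≤ 2 ^ (η * (S.F k).n)) := w.l.T.pb_nonneg _
  have hb20 : 0 ≤ w.l.T.pb (fun ω => ¬ sph s D k (w.l.p.π ω) (w.g' ω) ≤ 2 ^ (η * (S.F k).n)) := w.l.T.pb_nonneg _
  generalize w.l.T.pb (fun ω => ¬ sph s D k (w.l.p.π ω) (w.g ω) ≤ 2 ^ (η * (S.F k).n)) = b1 at h1 kb1 hb10
  generalize w.l.T.pb (fun ω => ¬ sph s D k (w.l.p.π ω) (w.g' ω) ≤ 2 ^ (η * (S.F k).n)) = b2 at h1 kb2 hb20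
  generalize ∑ ω, w.l.T.μ ω * min (V.v (s.fin k) (w.l.p.π ω) (w.g ω)) V.M = M1 at h1 hm1 hm2
  have hl0 : 0 ≤ (w.l.leak (cA s c k) + w.l.leak (cB s k)) / η / (S.F k).n := by positivity
  have hb0 : 0 ≤ (b1 + b2) / η := by positivity
  have k1 : (b1 + b2) / η ≤ V.M + 1 := by linarith
  have k2 : (w.l.leak (cA s c k) + w.l.leak (cB s k)) / η / (S.F k).n ≤ V.M + 1 := by linarith
  rw [div_le_iff₀ h0] at k1
  rw [div_div, div_le_iff₀ (by positivity)] at k2
  have k4 : (V.M + 1) * (η * (S.F k).n) ≤ η' * (S.F k).n := by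
    have := mul_le_mul_of_nonneg_right hη hn.le
    linarith
  have c1 : w.l.leak (cA s c k) ≤ η' * (S.F k).n := by linarith
  have c2 : w.l.leak (cB s k) ≤ η' * (S.F k).n := by linarith
  exact ⟨⟨c1, c2, fun ω hω => hcap ω hω, by linarith, by linarith⟩, by linarith⟩

/-- the penalties -/
theorem exists_index {η : ℝ} (h0 : 0 < η) : ∃ j : ℕ, (1 : ℝ) / ((j : ℝ) + 1) ≤ η := by
  obtain ⟨j, hj⟩ := exists_nat_one_div_lt h0
  exact ⟨j, hj.le⟩

/-- THE VALUE of the window `c` -/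
def fvf (c : ℝ) {S : Sp} (s : Sys S m) : ℝ := ⨅ j : ℕ, fvl V (1 / ((j : ℝ) + 1)) c s

section
variable (c : ℝ) {S : Sp} (s : Sys S m)

theorem inv_pos_j (j : ℕ) : (0 : ℝ) < 1 / ((j : ℝ) + 1) := by positivity

theorem fvf_bdd : BddBelow (Set.range fun j : ℕ => fvl V (1 / ((j : ℝ) + 1)) c s) :=
  ⟨0, by rintro r ⟨j, rfl⟩; exact fvl_nonneg V (inv_pos_j j) c s⟩

theorem fvf_nonneg : 0 ≤ fvf V c s := le_ciInf fun j => fvl_nonneg V (inv_pos_j j) c s

theorem fvf_le_fvl {η : ℝ} (h0 : 0 < η) : fvf V c s ≤ fvl V η c s := by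
  obtain ⟨j, hj⟩ := exists_index h0
  exact (ciInf_le (fvf_bdd V c s) j).trans (fvl_mono V (inv_pos_j j) hj c s)

theorem fvf_le : fvf V c s ≤ V.M := (fvf_le_fvl V c s one_pos).trans (fvl_le V one_pos c s)

theorem fvf_tendsto : Tendsto (fun j : ℕ => fvl V (1 / ((j : ℝ) + 1)) c s) atTop (𝓝 (fvf V c s)) := by
  apply tendsto_atTop_ciInf _ (fvf_bdd V c s)
  intro i j hij
  apply fvl_mono V (inv_pos_j j)
  apply one_div_le_one_div_of_le (by positivity)
  have : (i : ℝ) ≤ j := by exact_mod_cast hij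
  linarith

/-- values of admissible labels -/
theorem ev_le_fvf {x : ∀ k, FD (S.F k) (Mon (m + 1) D)} (hA : (gau s D).Ad (cA s c) (cB s) x) :
    ul (ev V s x) ≤ fvf V c s := le_ciInf fun j => ev_le_fvl V (inv_pos_j j) c s hA

/-- the value is attained -/
theorem fvf_attained : ∃ x : ∀ k, FD (S.F k) (Mon (m + 1) D), (gau s D).Ad (cA s c) (cB s) x ∧
    ul (ev V s x) = fvf V c s := by
  set η : ℕ → ℝ := fun j => 1 / (((j : ℝ) + 1) * (V.M + 1)) with hηd
  have hM := V.M0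
  have hη0 : ∀ j, 0 < η j := fun j => by rw [hηd]; positivity
  have hηM : ∀ j, η j * (V.M + 1) ≤ 1 / ((j : ℝ) + 1) := fun j => by
    rw [hηd]
    have h1 : (1 : ℝ) / (((j : ℝ) + 1) * (V.M + 1)) * (V.M + 1) = 1 / ((j : ℝ) + 1) := by
      field_simp
    rw [h1]
  have hηl : ∀ j, η j ≤ 1 / ((j : ℝ) + 1) := fun j => by
    rw [hηd]
    apply one_div_le_one_div_of_le (by positivity)
    have : (0 : ℝ) ≤ j := Nat.cast_nonneg j
    nlinarith
  have hf := fvf_nonneg V c s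
  have h1 : ∀ j : ℕ, ∃ y : ∀ k, FD (S.F k) (Mon (m + 1) D), ∀ᶠ k in UF, capd D (s.fin k) (y k) ∧
      fvf V c s - 1 / ((j : ℝ) + 1) ≤ fvv V (η j) c (s.fin k) (y k) := by
    intro j
    have hpj := inv_pos_j j
    have h2 := eventually_gt_of_lt_ul (c := fvf V c s - 1 / ((j : ℝ) + 1)) (fvo_UB V (hη0 j) c s)
      (lt_of_lt_of_le (by linarith) (fvf_le_fvl V c s (hη0 j)))
    classical
    refine ⟨fun k => if hk : ∃ y : FD (S.F k) (Mon (m + 1) D), capd D (s.fin k) y ∧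
      fvf V c s - 1 / ((j : ℝ) + 1) ≤ fvv V (η j) c (s.fin k) y then hk.choose else trivFD (S.F k), ?_⟩
    filter_upwards [h2] with k hk
    obtain ⟨r, ⟨y, hy, rfl⟩, hr⟩ := exists_lt_of_lt_csSup (fvs_ne _ _ _ _) hk
    have hk' : ∃ y : FD (S.F k) (Mon (m + 1) D), capd D (s.fin k) y ∧
      fvf V c s - 1 / ((j : ℝ) + 1) ≤ fvv V (η j) c (s.fin k) y := ⟨y, hy, hr.le⟩
    rw [dif_pos hk']
    exact hk'.choose_spec
  choose y hy using h1
  obtain ⟨z, J, hJ, hzA, hz⟩ := (gau s D).diag (cA s c) (cB s) y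
    (fun j k w => fvf V c s - 1 / ((j : ℝ) + 1) ≤ ∑ ω, w.l.T.μ ω * V.v (s.fin k) (w.l.p.π ω) (w.g ω)) (by
      intro j
      have h2 : (1 : ℝ) / ((j : ℝ) + 1) ≤ 1 := by
        rw [div_le_one (by positivity)]
        have : (0 : ℝ) ≤ j := Nat.cast_nonneg j
        linarith
      filter_upwards [hy j] with k hk
      exact adm_of_fvv V s (hη0 j) (hηM j) (hηl j) (by linarith) hk.1 hk.2)
  refine ⟨z, hzA, le_antisymm (ev_le_fvf V c s hzA) ?_⟩
  have t0 : Tendsto (fun k => fvf V c s - 1 / ((J k : ℝ) + 1)) UF (𝓝 (fvf V c s)) := by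
    have := ((tendsto_one_div_add_atTop_nhds_zero_nat (𝕜 := ℝ)).comp hJ).const_sub (fvf V c s)
    rwa [sub_zero] at this
  refine le_of_tendsto_of_tendsto t0 (ul_tendsto (ev_UB V s hzA)) ?_
  filter_upwards [hz] with k hk using hk

end

/-- the value as a functional -/
def fvF (c : ℝ) : Fnl m where
  f := fun _ s => fvf V c s
  nn := fun _ s => fvf_nonneg V c s
  usc := by
    intro S s _
    choose E hE h1 using fun j : ℕ => diag_val (fvo V (1 / ((j : ℝ) + 1)) c)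
      (fun S s => fvo_UB V (inv_pos_j j) c s) S s
    refine ⟨fun i j k => E (Nat.unpair i).1 (Nat.unpair i).2 j k, fun i j => hE _ _ j, fun T u J hd => ?_⟩
    have hq : ∀ q, IsDiag S s (E q) u J := fun q => ⟨hd.tend, hd.fin, fun i => by
      have h2 := hd.slow (Nat.pair q i)
      simp only [Nat.unpair_pair] at h2
      exact h2⟩
    refine le_ciInf fun q => ?_
    have h2 := h1 q T u J (hq q)
    have h3 : fvl V (1 / ((q : ℝ) + 1)) c u = ul (fun k => fvl V (1 / ((q : ℝ) + 1)) c (s (J k))) := h2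
    rw [h3]
    apply ul_mono
    · exact UB_of_nonneg_le (Eventually.of_forall fun k => fvf_nonneg V c (s (J k)))
        (Eventually.of_forall fun k => fvf_le V c (s (J k)))
    · exact UB_of_nonneg_le (Eventually.of_forall fun k => fvl_nonneg V (inv_pos_j q) c (s (J k)))
        (Eventually.of_forall fun k => fvl_le V (inv_pos_j q) c (s (J k)))
    · exact Eventually.of_forall fun k => fvf_le_fvl V c (s (J k)) (inv_pos_j q)
  spl := by
    intro S s T p E hE hE'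
    have t := ((fvf_tendsto V c (s.im p E hE)).const_mul (ul (T.pr E))).add
      ((fvf_tendsto V c (s.im p (fun k ω => ¬ E k ω) hE')).const_mul (1 - ul (T.pr E)))
    refine ge_of_tendsto' t fun j => ?_
    have hj : (0 : ℝ) < 1 / ((j : ℝ) + 1) / 2 := by positivity
    have e2 : 2 * ((1 : ℝ) / ((j : ℝ) + 1) / 2) = 1 / ((j : ℝ) + 1) := by ring
    refine (fvf_le_fvl V c s hj).trans ?_
    have hq0 := inv_pos_j j
    have t1 : Tendsto (fun k => T.pr E k * fvo V (1 / ((j : ℝ) + 1)) c ((s.im p E hE).fin k) +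
        (1 - T.pr E k) * fvo V (1 / ((j : ℝ) + 1)) c ((s.im p (fun k ω => ¬ E k ω) hE').fin k) +
        (2 / (1 / ((j : ℝ) + 1) / 2)) / (S.F k).n) UF
        (𝓝 (ul (T.pr E) * fvl V (1 / ((j : ℝ) + 1)) c (s.im p E hE) +
          (1 - ul (T.pr E)) * fvl V (1 / ((j : ℝ) + 1)) c (s.im p (fun k ω => ¬ E k ω) hE') + 0)) :=
      (((ul_tendsto (Sp.UB_pr E)).mul (ul_tendsto (fvo_UB V hq0 c _))).add
        (((ul_tendsto (Sp.UB_pr E)).const_sub 1).mul (ul_tendsto (fvo_UB V hq0 c _)))).add (S.div_n_tendsto _)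
    rw [add_zero] at t1
    refine le_of_tendsto_of_tendsto (ul_tendsto (fvo_UB V hj c s)) t1 (Eventually.of_forall fun k => ?_)
    have h1 := fvo_split V hj c (s.fin k) (T.F k) (p.fp k) (p.hn k) (E k)
    rw [e2] at h1
    exact h1
  typ := by
    intro S s T p E hE ht
    refine ge_of_tendsto' (fvf_tendsto V c (s.im p E hE)) fun j => ?_
    have hj : (0 : ℝ) < 1 / ((j : ℝ) + 1) / 2 := by positivity
    have e2 : 2 * ((1 : ℝ) / ((j : ℝ) + 1) / 2) = 1 / ((j : ℝ) + 1) := by ring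
    refine (fvf_le_fvl V c s hj).trans ?_
    have hq0 := inv_pos_j j
    have tp := (Typ_iff E).mp ht
    have t1 : Tendsto (fun k => T.pr E k * fvo V (1 / ((j : ℝ) + 1)) c ((s.im p E hE).fin k) +
        (1 - T.pr E k) * V.M + (2 / (1 / ((j : ℝ) + 1) / 2)) / (S.F k).n) UF
        (𝓝 (1 * fvl V (1 / ((j : ℝ) + 1)) c (s.im p E hE) + (1 - 1) * V.M + 0)) :=
      ((tp.mul (ul_tendsto (fvo_UB V hq0 c _))).add ((tp.const_sub 1).mul_const V.M)).add (S.div_n_tendsto _)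
    rw [add_zero, sub_self, zero_mul, add_zero, one_mul] at t1
    refine le_of_tendsto_of_tendsto (ul_tendsto (fvo_UB V hj c s)) t1 (Eventually.of_forall fun k => ?_)
    have h1 := fvo_split V hj c (s.fin k) (T.F k) (p.fp k) (p.hn k) (E k)
    rw [e2] at h1
    refine h1.trans ?_
    have h2 : (1 - (T.F k).pb (E k)) * fvo V (1 / ((j : ℝ) + 1)) c (imf (s.fin k) (p.fp k) (fun ω => ¬ E k ω)) ≤
        (1 - (T.F k).pb (E k)) * V.M :=
      mul_le_mul_of_nonneg_left (fvo_le V hq0 c _) (sub_nonneg.mpr ((T.F k).pb_le_one _))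
    have h3 := add_le_add_right h2 ((T.F k).pb (E k) * fvo V (1 / ((j : ℝ) + 1)) c (imf (s.fin k) (p.fp k) (E k)))
    exact add_le_add_left h3 _
  pull := by
    intro S s T p
    have h1 : ∀ j : ℕ, fvl V (1 / ((j : ℝ) + 1)) c (s.pull p) = fvl V (1 / ((j : ℝ) + 1)) c s := by
      intro j
      unfold fvl
      congr 1
      funext k
      exact fvo_plf V (s.fin k) (p.fp k) (p.hn k) (inv_pos_j j) c
    show fvf V c (s.pull p) = fvf V c s
    unfold fvf
    exact congrArg iInf (funext h1)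

/-! ### instances -/

/-- the exponent of the volume determinant -/
def FV.vol (m D : ℕ) : FV m D where
  v := fun X => gX D X
  M := vM m D
  M0 := vM_nonneg m D
  nn := fun X ω _ hA => gX_nonneg D X ω hA
  le := by
    intro S s
    filter_upwards [GG_ub_exp s D] with k h1 ω hω A hA
    have hn := (S.F k).pos
    have h3 := h1 ω hω A hA
    have h4 : gX D (s.fin k) ω A = Real.logb 2 (GG (S.dl 1 k) A (ptf s k ω)) / (2 * (S.F k).n) := rfl
    rw [h4, div_le_iff₀ (by positivity), Real.logb_le_iff_le_rpow (by norm_num) (GG_pos' _ hA.pdM _)]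
    refine h3.trans (le_of_eq ?_)
    congr 1
    unfold vM
    ring
  im := fun _ _ _ _ _ _ => rfl
  pl := by
    intro X T p hn ω A
    have h1 := dl_plf X p hn
    have h2 : (plf X p).F.n = X.F.n := hn
    unfold gX
    rw [h1, h2]
    rfl

/-- the logarithmic determinant -/
def FV.det (m D : ℕ) : FV m D where
  v := fun X _ A => Real.logb 2 A.det / X.F.n
  M := Fintype.card (Mon (m + 1) D) * (2 * D + 2)
  M0 := by positivity
  nn := fun X _ _ hA => div_nonneg (logdet_nonneg hA) X.F.pos.le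
  le := by
    intro S s
    refine Eventually.of_forall fun k ω _ A hA => ?_
    have hn := (s.fin k).F.pos
    have h1 := logdet_le (one_le_cpX D (s.fin k)) hA
    rw [div_le_iff₀ hn]
    refine h1.trans (le_of_eq ?_)
    unfold cpX
    rw [Real.logb_rpow (by norm_num) (by norm_num)]
    ring
  im := fun _ _ _ _ _ _ => rfl
  pl := by
    intro X T p hn ω A
    have h2 : (plf X p).F.n = X.F.n := hn
    show Real.logb 2 A.det / (plf X p).F.n = _
    rw [h2]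

theorem ev_vol {S : Sp} (s : Sys S m) (x : ∀ k, FD (S.F k) (Mon (m + 1) D)) (k : ℕ) :
    ev (FV.vol m D) s x k = lgd s D x k / (S.F k).n / 2 := sum_gX s D x k

theorem ev_det {S : Sp} (s : Sys S m) (x : ∀ k, FD (S.F k) (Mon (m + 1) D)) (k : ℕ) :
    ev (FV.det m D) s x k = (x k).sc / (S.F k).n := by
  unfold ev FD.sc
  rw [Finset.sum_div]
  refine Finset.sum_congr rfl fun ω _ => ?_
  show (x k).l.T.μ ω * (Real.logb 2 ((x k).g ω).det / (S.F k).n) = _
  rw [mul_div_assoc]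

/-- the value of the volume is the volume of the canonical form -/
theorem fvf_vol {S : Sp} (s : Sys S m) (c : ℝ) : fvf (FV.vol m D) c s = lvol s D c / 2 := by
  apply le_antisymm
  · obtain ⟨x, hx, h1⟩ := fvf_attained (FV.vol m D) c s
    rw [← h1, funext (ev_vol s x)]
    have h2 := lgd_le_lvol s hx
    rw [ul_eq ((ul_tendsto (lgd_UB s hx)).div_const 2)]
    linarith
  · obtain ⟨x, hx⟩ := exists_can s D c
    have h1 := ev_le_fvf (FV.vol m D) c s hx.1.1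
    rw [funext (ev_vol s x), ul_eq ((ul_tendsto (lgd_UB s hx.1.1)).div_const 2), lvol_eq s hx.1] at h1
    exact h1

/-- the value of the logarithmic determinant is the score of the canonical form -/
theorem fvf_det {S : Sp} (s : Sys S m) (c : ℝ) {x : ∀ k, FD (S.F k) (Mon (m + 1) D)}
    (hx : (gau s D).Opt (cA s c) (cB s) x) : fvf (FV.det m D) c s = ul (fun k => (x k).sc / (S.F k).n) := by
  apply le_antisymm
  · obtain ⟨y, hy, h1⟩ := fvf_attained (FV.det m D) c s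
    rw [← h1, funext (ev_det s y)]
    exact hx.2 y hy
  · have h1 := ev_le_fvf (FV.det m D) c s hx.1
    rwa [funext (ev_det s x)] at h1

/-- THE VOLUME AS A FUNCTIONAL -/
def lvF (m D : ℕ) (c : ℝ) : Fnl m := fvF (FV.vol m D) c

theorem lvF_f {S : Sp} (s : Sys S m) (D : ℕ) (c : ℝ) : (lvF m D c).f S s = lvol s D c / 2 := fvf_vol s c

theorem lvF_le (D : ℕ) (c : ℝ) (S : Sp) (s : Sys S m) : (lvF m D c).f S s ≤ vM m D := fvf_le (FV.vol m D) c s

theorem lvol_pull {T S : Sp} (p : Pj T S) (s : Sys S m) (c : ℝ) : lvol (s.pull p) D c = lvol s D c := by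
  have h1 := (lvF m D c).pull S s T p
  rw [lvF_f, lvF_f] at h1
  linarith

/-- SELECTION FOR `ST D m`: if the statement fails, there is a class of connected systems with a deficit, with constant
profile, `i`, `psi`, and a further list of functionals, also after truncation at levels which may be chosen later -/
theorem select_ST {D : ℕ} (hST : ¬ Pool.Agent.Helper59.EV.ST D m) (G : ℕ → Gg m) (Φ : ℕ → Fnl m) (M : ℝ)
    (hM : ∀ q S s, (Φ q).f S s ≤ M) :
    ∃ d : ℝ, 0 < d ∧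
    ∃ (F0 : ℝ → ℝ → ℝ) (i0 : ℝ → ℝ) (ψ0 : ℕ → ℝ → ℝ → ℝ) (φ0 : ℕ → ℝ) (C' : ∀ S : Sp, Sys S m → Prop), Cls C' ∧
      (∀ S s, C' S s → (Helper40.EL.ic s 0 = 0 ∧ s.F 0 1 + lvol s D 0 / 2 ≤ m - d) ∧ Val G Φ F0 i0 ψ0 φ0 s ∧
        RobA G Φ s) ∧
      ∀ L : ℕ → Lv, ∃ (F1 : ℕ → ℝ → ℝ → ℝ) (i1 : ℕ → ℝ → ℝ) (ψ1 : ℕ → ℕ → ℝ → ℝ → ℝ) (φ1 : ℕ → ℕ → ℝ)
        (C'' : ∀ S : Sp, Sys S m → Prop), Cls C'' ∧ (∀ S s, C'' S s → C' S s) ∧
        ∀ S (s : Sys S m), C'' S s → ∀ q, Val G Φ (F1 q) (i1 q) (ψ1 q) (φ1 q) (trn s (L q).1 (L q).2.1 (L q).2.2) ∧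
          RobA G Φ (trn s (L q).1 (L q).2.1 (L q).2.2) := by
  obtain ⟨C, d, hd, hC, h1⟩ := exists_cls_of_not_ST hST
  obtain ⟨F0, i0, ψ0, φ0, C', hC', hv, hL⟩ := two_steps hC G Φ M hM
  exact ⟨d, hd, F0, i0, ψ0, φ0, C', hC', fun S s hs => ⟨h1 S s (hv S s hs).1, (hv S s hs).2⟩, hL⟩

end

end Pool.Agent.Helper52.SL
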