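import Pool.Agent.Helper52.SL.Min
import Pool.Agent.Helper52.SL.Ext

/-! THEOREM ROB, first part: functionals of finite systems which are superadditive up to `O (1 / n)`; the penalised
information of labels at the window zero; classes of connected systems with bounds for superadditive functionals. -/

set_option autoImplicit false

namespace Pool.Agent.Helper52.SL

open Finset Filter Topology Pool.Agent.Helper69.RK Pool.Agent.Helper31.EC Pool.Agent.Helper31.EC.Sp
open Pool.Agent.Helper40.EL Pool.Agent.Helper42.NS Pool.Agent.Helper52.KP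

noncomputable section

variable {m : ℕ}

/-- a finite system restricted to an event of an extension -/
def imf (X : FSy m) {T : FSp} (p : FPj T X.F) (E : T.Ω → Prop) : FSy m := ⟨FSp.im p E, X.a, X.x, X.t⟩

theorem im_fin {S : Sp} (s : Sys S m) {T : Sp} (p : Pj T S) (E : ∀ k, (T.F k).Ω → Prop) (hE : 0 < ul (T.pr E)) (k : ℕ) :
    (s.im p E hE).fin k = imf (s.fin k) (p.fp k) (E k) := rfl

/-- nonnegative functionals of finite systems, superadditive up to `O (1 / n)` -/
structure FinF (m : ℕ) where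
  g : FSy m → ℝ
  nn : ∀ X, 0 ≤ g X
  ub : ∀ (S : Sp) (s : Sys S m), UB (fun k => g (s.fin k))
  c : ℝ
  spl : ∀ (X : FSy m) (T : FSp) (p : FPj T X.F) (E : T.Ω → Prop),
    T.pb E * g (imf X p E) + (1 - T.pb E) * g (imf X p (fun ω => ¬ E ω)) ≤ g X + c / X.F.n

namespace FinF

variable (Φ : FinF m)

/-- the value at a system -/
def f (S : Sp) (s : Sys S m) : ℝ := ul (fun k => Φ.g (s.fin k))

theorem f_nonneg (S : Sp) (s : Sys S m) : 0 ≤ Φ.f S s := const_le_ul (Φ.ub S s) (Eventually.of_forall fun _ => Φ.nn _)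

theorem spl_lim {S : Sp} (s : Sys S m) {T : Sp} (p : Pj T S) (E : ∀ k, (T.F k).Ω → Prop) (hE : 0 < ul (T.pr E))
    (hE' : 0 < ul (T.pr fun k ω => ¬ E k ω)) :
    ul (T.pr E) * Φ.f _ (s.im p E hE) + (1 - ul (T.pr E)) * Φ.f _ (s.im p (fun k ω => ¬ E k ω) hE') ≤ Φ.f S s := by
  have t1 : Tendsto (fun k => T.pr E k * Φ.g ((s.im p E hE).fin k) +
      (1 - T.pr E k) * Φ.g ((s.im p (fun k ω => ¬ E k ω) hE').fin k)) UF
      (𝓝 (ul (T.pr E) * Φ.f _ (s.im p E hE) + (1 - ul (T.pr E)) * Φ.f _ (s.im p (fun k ω => ¬ E k ω) hE'))) :=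
    ((ul_tendsto (Sp.UB_pr E)).mul (ul_tendsto (Φ.ub _ _))).add
      (((ul_tendsto (Sp.UB_pr E)).const_sub 1).mul (ul_tendsto (Φ.ub _ _)))
  have t2 := (ul_tendsto (Φ.ub S s)).add (S.div_n_tendsto Φ.c)
  rw [add_zero] at t2
  exact le_of_tendsto_of_tendsto t1 t2 (Eventually.of_forall fun k => Φ.spl (s.fin k) (T.F k) (p.fp k) (E k))

theorem typ_lim {S : Sp} (s : Sys S m) {T : Sp} (p : Pj T S) (E : ∀ k, (T.F k).Ω → Prop) (hE : 0 < ul (T.pr E))
    (ht : Typ E) : Φ.f _ (s.im p E hE) ≤ Φ.f S s := by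
  have t0 := (Typ_iff E).mp ht
  have t1 := t0.mul (ul_tendsto (Φ.ub _ (s.im p E hE)))
  rw [one_mul] at t1
  have t2 := (ul_tendsto (Φ.ub S s)).add (S.div_n_tendsto Φ.c)
  rw [add_zero] at t2
  refine le_of_tendsto_of_tendsto t1 t2 (Eventually.of_forall fun k => ?_)
  have h1 := Φ.spl (s.fin k) (T.F k) (p.fp k) (E k)
  have h2 : 0 ≤ (1 - (T.F k).pb (E k)) * Φ.g (imf (s.fin k) (p.fp k) (fun ω => ¬ E k ω)) :=
    mul_nonneg (sub_nonneg.mpr ((T.F k).pb_le_one _)) (Φ.nn _)
  have h3 : (T.F k).pb (E k) * Φ.g (imf (s.fin k) (p.fp k) (E k)) ≤ Φ.g (s.fin k) + Φ.c / (s.fin k).F.n := by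
    linarith
  exact h3

/-- functionals of finite systems are superadditive functionals of systems -/
def sfn : SFn m where
  f := Φ.f
  nn := Φ.f_nonneg
  lsc := by
    intro S s
    obtain ⟨E, hE, h1⟩ := diag_val Φ.g Φ.ub S s
    exact ⟨E, hE, fun T u J hd _ _ => (h1 T u J hd).le⟩
  spl := fun _ s _ p E hE hE' => Φ.spl_lim s p E hE hE'
  typ := fun _ s _ p E hE ht => Φ.typ_lim s p E hE ht

end FinF

/-! ### further superadditive functionals -/

/-- the difference of a constant and a functional of helper42 -/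
def SFn.ofFnl (Φ : Fnl m) (M : ℝ) (hM : ∀ S s, Φ.f S s ≤ M) : SFn m where
  f := fun S s => M - Φ.f S s
  nn := fun S s => sub_nonneg.mpr (hM S s)
  lsc := by
    intro S s
    obtain ⟨E, hE, h1⟩ := Φ.usc S s (fun _ => trivial)
    refine ⟨E, hE, fun T u J hd _ _ => ?_⟩
    have h2 := h1 T u J hd
    have hU : UB (fun k => Φ.f (S (J k)) (s (J k))) :=
      UB_of_nonneg_le (Eventually.of_forall fun k => Φ.nn _ _) (Eventually.of_forall fun k => hM _ _)
    have h3 : ul (fun k => M - Φ.f (S (J k)) (s (J k))) = M - ul (fun k => Φ.f (S (J k)) (s (J k))) :=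
      ul_eq ((ul_tendsto hU).const_sub M)
    rw [h3]
    linarith
  spl := by
    intro S s T p E hE hE'
    have := Φ.spl S s T p E hE hE'
    nlinarith
  typ := by
    intro S s T p E hE ht
    have := Φ.typ S s T p E hE ht
    linarith

/-- the profile as a superadditive functional -/
def SFn.prof (u r : ℝ) : SFn m where
  f := fun _ s => s.F u r
  nn := fun _ s => s.F_nonneg u r
  lsc := by
    intro S s
    obtain ⟨E, hE, h1⟩ := diag_val (fun X : FSy m => X.q (X.kx u ⊓ X.kP r) (X.kt 1)) (fun S s => s.F_UB u r) S s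
    refine ⟨E, hE, fun T v J hd _ _ => ?_⟩
    have h2 := h1 T v J hd
    simp only [← Sys.F_eq] at h2
    exact h2.le
  spl := fun _ s _ p E hE hE' => (F_im_split s p E hE hE' u r).ge
  typ := fun _ s _ p E hE ht => by
    rw [F_im, (s.pull p).F_rest_typ E hE ht, F_pull]

/-- sums of superadditive functionals -/
def SFn.add (Φ Ψ : SFn m) : SFn m where
  f := fun S s => Φ.f S s + Ψ.f S s
  nn := fun S s => add_nonneg (Φ.nn S s) (Ψ.nn S s)
  lsc := by
    intro S s
    obtain ⟨E, hE, h1⟩ := Φ.lsc S s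
    obtain ⟨E', hE', h1'⟩ := Ψ.lsc S s
    refine ⟨fun i j k => E i j k ∧ E' i j k, fun i j => (hE i j).and (hE' i j), fun T u J hd M hM => ?_⟩
    have a1 := h1 T u J ⟨hd.tend, hd.fin, fun i => (hd.slow i).mono fun k hk => hk.1⟩ M
      fun k => by have := hM k; have := Ψ.nn (S (J k)) (s (J k)); linarith
    have a2 := h1' T u J ⟨hd.tend, hd.fin, fun i => (hd.slow i).mono fun k hk => hk.2⟩ M
      fun k => by have := hM k; have := Φ.nn (S (J k)) (s (J k)); linarith
    have u1 : UB (fun k => Φ.f (S (J k)) (s (J k))) := UB_of_nonneg_le (Eventually.of_forall fun k => Φ.nn _ _)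
      (Eventually.of_forall fun k => by have := hM k; have := Ψ.nn (S (J k)) (s (J k)); linarith)
    have u2 : UB (fun k => Ψ.f (S (J k)) (s (J k))) := UB_of_nonneg_le (Eventually.of_forall fun k => Ψ.nn _ _)
      (Eventually.of_forall fun k => by have := hM k; have := Φ.nn (S (J k)) (s (J k)); linarith)
    rw [ul_add u1 u2]
    linarith
  spl := by
    intro S s T p E hE hE'
    have := Φ.spl S s T p E hE hE'
    have := Ψ.spl S s T p E hE hE'
    linarith
  typ := by
    intro S s T p E hE ht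
    have := Φ.typ S s T p E hE ht
    have := Ψ.typ S s T p E hE ht
    linarith

/-! ### penalised information at the window zero -/

/-- a supremum of averages -/
theorem sup_avg {A B : Set ℝ} (hA : A.Nonempty) (hB : B.Nonempty) {P z : ℝ} (h0 : 0 ≤ P) (h1 : P ≤ 1)
    (h : ∀ a ∈ A, ∀ b ∈ B, P * a + (1 - P) * b ≤ z) : P * sSup A + (1 - P) * sSup B ≤ z := by
  have h1' : 0 ≤ 1 - P := sub_nonneg.mpr h1
  have step : ∀ b ∈ B, P * sSup A + (1 - P) * b ≤ z := by
    intro b hb
    rcases eq_or_lt_of_le h0 with h2 | h2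
    · obtain ⟨a, ha⟩ := hA
      have := h a ha b hb
      rw [← h2] at this ⊢
      linarith
    · have h3 : sSup A ≤ (z - (1 - P) * b) / P := csSup_le hA fun a ha => by
        rw [le_div_iff₀ h2]
        have := h a ha b hb
        linarith
      rw [le_div_iff₀ h2] at h3
      linarith
  rcases eq_or_lt_of_le h1' with h2 | h2
  · obtain ⟨b, hb⟩ := hB
    have := step b hb
    rw [← h2] at this ⊢
    linarith
  · have h3 : sSup B ≤ (z - P * sSup A) / (1 - P) := csSup_le hB fun b hb => by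
      rw [le_div_iff₀ h2]
      have := step b hb
      linarith
    rw [le_div_iff₀ h2] at h3
    linarith

/-- the penalised information of a label -/
def cval (η : ℝ) (X : FSy m) (l : FLab X.F) : ℝ := (l.info - (l.leak (PA X 0) + l.leak (PB X)) / η) / X.F.n

/-- the values of all labels -/
def cset (η : ℝ) (X : FSy m) : Set ℝ := {r | ∃ l : FLab X.F, r = cval η X l}

/-- the penalised connection number -/
def con (η : ℝ) (X : FSy m) : ℝ := sSup (cset η X)

theorem cset_ne (η : ℝ) (X : FSy m) : (cset η X).Nonempty := ⟨_, FLab.triv X.F, rfl⟩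

theorem cval_triv (η : ℝ) (X : FSy m) : cval η X (FLab.triv X.F) = 0 := by
  unfold cval
  rw [FLab.triv_info, FLab.triv_leak, FLab.triv_leak]
  simp

theorem cval_le {η : ℝ} (h0 : 0 < η) (h1 : η ≤ 1) (X : FSy m) (l : FLab X.F) : cval η X l ≤ H (PA X 0) / X.F.n := by
  apply div_le_div_of_nonneg_right _ X.F.pos.le
  have e1 := l.info_le (PA X 0)
  have e2 := l.leak_nonneg (PA X 0)
  have e3 := l.leak_nonneg (PB X)
  have e4 : l.leak (PA X 0) + l.leak (PB X) ≤ (l.leak (PA X 0) + l.leak (PB X)) / η := by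
    rw [le_div_iff₀ h0]
    have := mul_le_mul_of_nonneg_left h1 (add_nonneg e2 e3)
    linarith
  linarith

theorem cset_bdd {η : ℝ} (h0 : 0 < η) (h1 : η ≤ 1) (X : FSy m) : BddAbove (cset η X) := by
  refine ⟨H (PA X 0) / X.F.n, ?_⟩
  rintro r ⟨l, rfl⟩
  exact cval_le h0 h1 X l

theorem cval_le_con {η : ℝ} (h0 : 0 < η) (h1 : η ≤ 1) (X : FSy m) (l : FLab X.F) : cval η X l ≤ con η X :=
  le_csSup (cset_bdd h0 h1 X) ⟨l, rfl⟩

theorem con_nonneg {η : ℝ} (h0 : 0 < η) (h1 : η ≤ 1) (X : FSy m) : 0 ≤ con η X := by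
  rw [← cval_triv η X]
  exact cval_le_con h0 h1 X _

theorem con_le {η : ℝ} (h0 : 0 < η) (h1 : η ≤ 1) (X : FSy m) : con η X ≤ H (PA X 0) / X.F.n := by
  apply csSup_le (cset_ne η X)
  rintro r ⟨l, rfl⟩
  exact cval_le h0 h1 X l

theorem con_UB {η : ℝ} (h0 : 0 < η) (h1 : η ≤ 1) (S : Sp) (s : Sys S m) : UB (fun k => con η (s.fin k)) := by
  have h2 : UB (fun k => H (cA s 0 k) / (S.F k).n) := cA_Bd s 0
  exact UB.sandwich (UB_const 0) h2 (Eventually.of_forall fun k => con_nonneg h0 h1 _)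
    (Eventually.of_forall fun k => con_le h0 h1 (s.fin k))

/-- glued labels -/
theorem cval_glue {η : ℝ} (h0 : 0 < η) (X : FSy m) (T : FSp) (p : FPj T X.F) (E : T.Ω → Prop)
    (l1 : FLab (FSp.im p E)) (l2 : FLab (FSp.im p (fun ω => ¬ E ω))) :
    T.pb E * cval η (imf X p E) l1 + (1 - T.pb E) * cval η (imf X p (fun ω => ¬ E ω)) l2 ≤
      cval η X (glue p E l1 l2) + (1 + 2 / η) / X.F.n := by
  have g1 := (abs_le.mp (glue_info p E l1 l2)).1
  have g2 := (abs_le.mp (glue_leak p E l1 l2 (PA X 0))).2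
  have g3 := (abs_le.mp (glue_leak p E l1 l2 (PB X))).2
  have hn := X.F.pos
  have e1 : cval η (imf X p E) l1 = (l1.info - (l1.leak (FSp.imap p E (PA X 0)) + l1.leak (FSp.imap p E (PB X))) / η) /
      X.F.n := rfl
  have e2 : cval η (imf X p (fun ω => ¬ E ω)) l2 = (l2.info - (l2.leak (FSp.imap p (fun ω => ¬ E ω) (PA X 0)) +
      l2.leak (FSp.imap p (fun ω => ¬ E ω) (PB X))) / η) / X.F.n := rfl
  rw [e1, e2]
  unfold cval
  set P := T.pb E with hP
  set i0 := (glue p E l1 l2).info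
  set i1 := l1.info
  set i2 := l2.info
  set a0 := (glue p E l1 l2).leak (PA X 0)
  set b0 := (glue p E l1 l2).leak (PB X)
  set a1 := l1.leak (FSp.imap p E (PA X 0))
  set b1 := l1.leak (FSp.imap p E (PB X))
  set a2 := l2.leak (FSp.imap p (fun ω => ¬ E ω) (PA X 0))
  set b2 := l2.leak (FSp.imap p (fun ω => ¬ E ω) (PB X))
  have e3 : P * ((i1 - (a1 + b1) / η) / X.F.n) + (1 - P) * ((i2 - (a2 + b2) / η) / X.F.n) =
      ((P * i1 + (1 - P) * i2) - ((P * a1 + (1 - P) * a2) + (P * b1 + (1 - P) * b2)) / η) / X.F.n := by ring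
  rw [e3, ← add_div]
  apply div_le_div_of_nonneg_right _ hn.le
  have e4 : (a0 + b0) / η ≤ ((P * a1 + (1 - P) * a2) + (P * b1 + (1 - P) * b2)) / η + 2 / η := by
    rw [← add_div]
    apply div_le_div_of_nonneg_right _ h0.le
    linarith
  linarith

/-- the penalised connection number as a functional -/
def conF (η : ℝ) (h0 : 0 < η) (h1 : η ≤ 1) : FinF m where
  g := con η
  nn := fun X => con_nonneg h0 h1 X
  ub := fun S s => con_UB h0 h1 S s
  c := 1 + 2 / η
  spl := by
    intro X T p E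
    apply sup_avg (cset_ne _ _) (cset_ne _ _) (T.pb_nonneg E) (T.pb_le_one E)
    rintro a ⟨l1, rfl⟩ b ⟨l2, rfl⟩
    have h2 := cval_glue h0 X T p E l1 l2
    have h3 := cval_le_con h0 h1 X (glue p E l1 l2)
    linarith

/-- the maximal information at the window zero is at most the penalised connection number -/
theorem ic_le_con {η : ℝ} (h0 : 0 < η) (h1 : η ≤ 1) {S : Sp} (s : Sys S m) :
    Helper40.EL.ic s 0 ≤ (conF η h0 h1).f S s := by
  have hk := kap_isKap s 0
  have t1 := ul_tendsto (hk.1.ub (cA_Bd s 0))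
  have t2 : Tendsto (fun k => (kap s 0 k).info / (S.F k).n - ((kap s 0 k).leak (cA s 0 k) / (S.F k).n +
      (kap s 0 k).leak (cB s k) / (S.F k).n) / η) UF (𝓝 ((kap s 0).info - (0 + 0) / η)) :=
    t1.sub ((Filter.Tendsto.add (show Tendsto _ _ _ from hk.1.1) (show Tendsto _ _ _ from hk.1.2)).div_const η)
  have e1 := hk.info_eq
  rw [add_zero, zero_div, sub_zero, e1, add_zero] at t2
  refine le_of_tendsto_of_tendsto t2 (ul_tendsto (con_UB h0 h1 S s)) (Eventually.of_forall fun k => ?_)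
  have h2 := cval_le_con h0 h1 (s.fin k) (kap s 0 k)
  refine le_trans (le_of_eq ?_) h2
  show _ = ((kap s 0 k).info - ((kap s 0 k).leak (cA s 0 k) + (kap s 0 k).leak (cB s k)) / η) / (S.F k).n
  ring

/-- connected systems have small penalised connection numbers -/
theorem con_small {S : Sp} (s : Sys S m) (hs : Helper40.EL.ic s 0 = 0) (e : ℝ) (he : 0 < e) :
    ∃ (η : ℝ) (h0 : 0 < η) (h1 : η ≤ 1), (conF η h0 h1).f S s ≤ e := by
  by_contra hc
  push Not at hc
  -- near optimal labels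
  have hη0 : ∀ j : ℕ, (0 : ℝ) < 1 / ((j : ℝ) + 2) := fun j => by positivity
  have hη1 : ∀ j : ℕ, (1 : ℝ) / ((j : ℝ) + 2) ≤ 1 := fun j => by
    rw [div_le_one (by positivity)]
    have : (0 : ℝ) ≤ j := Nat.cast_nonneg j
    linarith
  have h1 : ∀ j : ℕ, ∃ l : Lab S, ∀ᶠ k in UF, e < cval (1 / ((j : ℝ) + 2)) (s.fin k) (l k) := by
    intro j
    have h2 := eventually_gt_of_lt_ul (con_UB (hη0 j) (hη1 j) S s) (hc _ (hη0 j) (hη1 j))
    classical
    refine ⟨fun k => if hk : ∃ l : FLab (S.F k), e < cval (1 / ((j : ℝ) + 2)) (s.fin k) l then hk.choose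
      else FLab.triv (S.F k), ?_⟩
    filter_upwards [h2] with k hk
    obtain ⟨r, ⟨l, rfl⟩, hr⟩ := exists_lt_of_lt_csSup (cset_ne _ _) hk
    have hk' : ∃ l : FLab (S.F k), e < cval (1 / ((j : ℝ) + 2)) (s.fin k) l := ⟨l, hr⟩
    rw [dif_pos hk']
    exact hk'.choose_spec
  choose l hl using h1
  obtain ⟨K, hK⟩ : ∃ K : ℝ, ∀ᶠ k in UF, H (cA s 0 k) / (S.F k).n ≤ K := by
    obtain ⟨K, hK⟩ := cA_Bd s 0
    exact ⟨K, hK.mono fun k hk => (abs_le.mp hk).2⟩
  have hKn : 0 ≤ K := by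
    obtain ⟨k, hk⟩ := hK.exists
    exact (div_nonneg (H_nonneg _) (S.F k).pos.le).trans hk
  -- leaks
  have hleak : ∀ j : ℕ, ∀ᶠ k in UF, ((l j k).leak (cA s 0 k) + (l j k).leak (cB s k)) / (S.F k).n ≤
      K / ((j : ℝ) + 1) := by
    intro j
    filter_upwards [hl j, hK] with k h3 h4
    have hn := (S.F k).pos
    have hj : (0 : ℝ) < (j : ℝ) + 1 := by positivity
    have h5 : e < ((l j k).info - ((l j k).leak (cA s 0 k) + (l j k).leak (cB s k)) / (1 / ((j : ℝ) + 2))) /
        (S.F k).n := h3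
    have h6 := (l j k).info_le (cA s 0 k)
    have h7 := (l j k).leak_nonneg (cB s k)
    rw [div_div_eq_mul_div, div_one] at h5
    rw [lt_div_iff₀ hn] at h5
    rw [div_le_iff₀ hn] at h4 ⊢
    rw [div_mul_eq_mul_div, le_div_iff₀ hj]
    have h8 : 0 < e * (S.F k).n := mul_pos he hn
    nlinarith
  have t0 : Tendsto (fun j : ℕ => K / ((j : ℝ) + 1)) atTop (𝓝 0) := by
    have := (tendsto_one_div_add_atTop_nhds_zero_nat (𝕜 := ℝ)).const_mul K
    rw [mul_zero] at this
    exact this.congr fun j => by ring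
  obtain ⟨y, hy, hv⟩ := Lab.approx (B := cB s) (cA_Bd s 0) l (fun j : ℕ => K / ((j : ℝ) + 1)) t0 e
    (fun j => by
      filter_upwards [hleak j] with k hk
      refine le_trans ?_ hk
      apply div_le_div_of_nonneg_right _ (S.F k).pos.le
      have := (l j k).leak_nonneg (cB s k)
      linarith)
    (fun j => by
      filter_upwards [hleak j] with k hk
      refine le_trans ?_ hk
      apply div_le_div_of_nonneg_right _ (S.F k).pos.le
      have := (l j k).leak_nonneg (cA s 0 k)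
      linarith)
    (fun j => by
      filter_upwards [hl j] with k h3
      have hn := (S.F k).pos
      have h5 : e < ((l j k).info - ((l j k).leak (cA s 0 k) + (l j k).leak (cB s k)) / (1 / ((j : ℝ) + 2))) /
        (S.F k).n := h3
      have h6 : 0 ≤ ((l j k).leak (cA s 0 k) + (l j k).leak (cB s k)) / (1 / ((j : ℝ) + 2)) :=
        div_nonneg (add_nonneg ((l j k).leak_nonneg _) ((l j k).leak_nonneg _)) (hη0 j).le
      have h7 : ((l j k).info - ((l j k).leak (cA s 0 k) + (l j k).leak (cB s k)) / (1 / ((j : ℝ) + 2))) /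
        (S.F k).n ≤ (l j k).info / (S.F k).n := div_le_div_of_nonneg_right (by linarith) hn.le
      have h8 : 0 ≤ K / ((j : ℝ) + 1) := by positivity
      linarith)
  have h9 := info_le_ic (s := s) (c := 0) hy
  rw [hs] at h9
  linarith

/-- CLASSES OF CONNECTED SYSTEMS: an upper bound of a superadditive functional at one connected system holds for a
class of connected systems -/
theorem exists_cls_con {S0 : Sp} (s0 : Sys S0 m) (h0 : Helper40.EL.ic s0 0 = 0) (Φ : SFn m) {B : ℝ}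
    (hB : Φ.f S0 s0 < B) :
    ∃ (C : ∀ S : Sp, Sys S m → Prop) (B' : ℝ), B' < B ∧ Cls C ∧
      ∀ (S : Sp) (s : Sys S m), C S s → Helper40.EL.ic s 0 = 0 ∧ Φ.f S s ≤ B' := by
  set e : ℝ := (B - Φ.f S0 s0) / 4 with he
  have he0 : 0 < e := by rw [he]; linarith
  choose η hη0 hη1 hη using fun j : ℕ => con_small s0 h0 (e * (1 / 4) ^ j) (by positivity)
  set f : ℕ → SFn m := fun j => Nat.casesOn j Φ (fun i => (conF (η i) (hη0 i) (hη1 i)).sfn) with hf
  set la : ℕ → ℝ := fun j => Nat.casesOn j 1 (fun i => (2 : ℝ) ^ i) with hla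
  have hla0 : ∀ j, 0 < la j := by
    intro j
    cases j with
    | zero => exact one_pos
    | succ i => exact pow_pos (by norm_num) i
  have hsum : ∀ N, psm f la N s0 ≤ Φ.f S0 s0 + 2 * e := by
    intro N
    have h1 := psm_mono (f := f) (fun j => (hla0 j).le) (Nat.le_succ N) s0
    refine h1.trans ?_
    unfold psm
    rw [Finset.sum_range_succ']
    have h2 : la 0 * (f 0).f S0 s0 = Φ.f S0 s0 := one_mul _
    have h3 : ∑ i ∈ Finset.range N, la (i + 1) * (f (i + 1)).f S0 s0 ≤ ∑ i ∈ Finset.range N, e * (1 / 2 : ℝ) ^ i := by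
      refine Finset.sum_le_sum fun i _ => ?_
      have h4 : la (i + 1) * (f (i + 1)).f S0 s0 ≤ 2 ^ i * (e * (1 / 4) ^ i) :=
        mul_le_mul_of_nonneg_left (hη i) (by positivity)
      refine h4.trans (le_of_eq ?_)
      rw [mul_left_comm, ← mul_pow]
      norm_num
    have h4 : ∑ i ∈ Finset.range N, e * (1 / 2 : ℝ) ^ i ≤ 2 * e := by
      rw [← Finset.mul_sum]
      have h5 : ∑ i ∈ Finset.range N, (1 / 2 : ℝ) ^ i ≤ 2 := by
        rw [geom_sum_eq (by norm_num)]
        have : (0 : ℝ) ≤ (1 / 2) ^ N := by positivity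
        norm_num
        linarith
      nlinarith
    rw [h2]
    linarith
  obtain ⟨B0, hB0, hcls⟩ := exists_min (f := f) hla0 s0 hsum
  refine ⟨_, Φ.f S0 s0 + 2 * e, by rw [he]; linarith, hcls, fun S s hs => ⟨?_, ?_⟩⟩
  · have hle := fun j => le_psm (f := f) (fun j => (hla0 j).le) s hs j
    apply le_antisymm _ (Helper40.EL.ic_nonneg (s := s) le_rfl zero_le_one)
    have h1 : ∀ i : ℕ, Helper40.EL.ic s 0 ≤ B0 * (1 / 2) ^ i := by
      intro i
      have h2 : (2 : ℝ) ^ i * (conF (η i) (hη0 i) (hη1 i)).f S s ≤ B0 := hle (i + 1)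
      have h3 := ic_le_con (hη0 i) (hη1 i) s
      have h4 : (0 : ℝ) < 2 ^ i := by positivity
      have h5 : (2 : ℝ) ^ i * Helper40.EL.ic s 0 ≤ B0 := (mul_le_mul_of_nonneg_left h3 h4.le).trans h2
      rw [one_div, inv_pow, ← div_eq_mul_inv, le_div_iff₀ h4]
      linarith
    have h2 : Tendsto (fun i : ℕ => B0 * (1 / 2 : ℝ) ^ i) atTop (𝓝 (B0 * 0)) :=
      (tendsto_pow_atTop_nhds_zero_of_lt_one (by norm_num) (by norm_num)).const_mul B0
    rw [mul_zero] at h2
    exact ge_of_tendsto' h2 h1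
  · have h1 := le_psm (f := f) (fun j => (hla0 j).le) s hs 0
    have h2 : 1 * Φ.f S s ≤ B0 := h1
    linarith

/-- THEOREM ROB for functionals of helper42 -/
theorem exists_cls_fnl {S0 : Sp} (s0 : Sys S0 m) (h0 : Helper40.EL.ic s0 0 = 0) (Φ : Fnl m) (M : ℝ)
    (hM : ∀ S s, Φ.f S s ≤ M) {x : ℝ} (hx : x < Φ.f S0 s0) :
    ∃ (C : ∀ S : Sp, Sys S m → Prop) (x' : ℝ), x < x' ∧ Cls C ∧
      ∀ (S : Sp) (s : Sys S m), C S s → Helper40.EL.ic s 0 = 0 ∧ x' ≤ Φ.f S s := by
  obtain ⟨C, B', h1, h2, h3⟩ := exists_cls_con s0 h0 (SFn.ofFnl Φ M hM) (B := M - x)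
    (by show M - Φ.f S0 s0 < M - x; linarith)
  refine ⟨C, M - B', by linarith, h2, fun S s hs => ⟨(h3 S s hs).1, ?_⟩⟩
  have h4 : M - Φ.f S s ≤ B' := (h3 S s hs).2
  linarith

end

end Pool.Agent.Helper52.SL
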