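import Pool.Agent.Helper52.SL.Vol

/-! Values of labels with forms (logarithm of the volume determinant, logarithm of the determinant, ...): the supremum
over admissible labels of a window is a functional in the sense of helper42 (usc along diagonals, average over
events of extensions, invariant under extensions), so that it joins the list of robust functionals. -/

set_option autoImplicit false

namespace Pool.Agent.Helper52.SL

open Finset Filter Topology Matrix Pool.Agent.Helper69.RK Pool.Agent.Helper31.EC Pool.Agent.Helper31.EC.Sp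
open Pool.Agent.Helper40.EL Pool.Agent.Helper42.NS Pool.Agent.Helper52.KP
open Pool.Agent.Helper95.LF Pool.Agent.Helper3.LF Pool.Agent.Helper48.NS Pool.Agent.Helper89.LX
open Pool.Agent.Helper3.PR Pool.Agent.Helper59.EV

noncomputable section

variable {m : ℕ}

/-- a finite system in an extension -/
def plf (X : FSy m) {T : FSp} (p : FPj T X.F) : FSy m :=
  ⟨T, fun ω => X.a (p.π ω), fun ω => X.x (p.π ω), fun ω => X.t (p.π ω)⟩

theorem pull_fin {S : Sp} (s : Sys S m) {T : Sp} (p : Pj T S) (k : ℕ) :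
    (s.pull p).fin k = plf (s.fin k) (p.fp k) := rfl

/-- values of forms -/
structure FV (m D : ℕ) where
  v : ∀ X : FSy m, X.F.Ω → Matrix (Mon (m + 1) D) (Mon (m + 1) D) ℝ → ℝ
  M : ℝ
  M0 : 0 ≤ M
  nn : ∀ (X : FSy m) (ω : X.F.Ω) (A : Matrix (Mon (m + 1) D) (Mon (m + 1) D) ℝ), Cpd (cpX D X) A → 0 ≤ v X ω A
  le : ∀ (S : Sp) (s : Sys S m), ∀ᶠ k in UF, ∀ ω, (S.F k).μ ω ≠ 0 →
    ∀ A : Matrix (Mon (m + 1) D) (Mon (m + 1) D) ℝ, Cpd (cpX D (s.fin k)) A → v (s.fin k) ω A ≤ M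
  im : ∀ (X : FSy m) (T : FSp) (p : FPj T X.F) (E : T.Ω → Prop) (ω : X.F.Ω)
    (A : Matrix (Mon (m + 1) D) (Mon (m + 1) D) ℝ), v (imf X p E) ω A = v X ω A
  pl : ∀ (X : FSy m) (T : FSp) (p : FPj T X.F) (_ : T.n = X.F.n) (ω : T.Ω)
    (A : Matrix (Mon (m + 1) D) (Mon (m + 1) D) ℝ), v (plf X p) ω A = v X (p.π ω) A

variable {D : ℕ} (V : FV m D)

/-- the integrand -/
def wv (η : ℝ) (X : FSy m) (ω : X.F.Ω) (A A' : Matrix (Mon (m + 1) D) (Mon (m + 1) D) ℝ) : ℝ :=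
  min (V.v X ω A) V.M - (bX η D X ω A + bX η D X ω A') / η

/-- the penalised value of a label with forms -/
def fvv (η c : ℝ) (X : FSy m) (y : FD X.F (Mon (m + 1) D)) : ℝ :=
  fval2 (wv V η X) y - (y.l.leak (PA X c) + y.l.leak (PB X)) / η / X.F.n

/-- the values of all labels with forms -/
def fvs (η c : ℝ) (X : FSy m) : Set ℝ := {r | ∃ y : FD X.F (Mon (m + 1) D), capd D X y ∧ r = fvv V η c X y}

/-- the penalised value -/
def fvo (η c : ℝ) (X : FSy m) : ℝ := sSup (fvs V η c X)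

theorem fvs_ne (η c : ℝ) (X : FSy m) : (fvs V η c X).Nonempty :=
  ⟨_, trivFD X.F, fun _ _ => ⟨Cpd_one (one_le_cpX D X), Cpd_one (one_le_cpX D X)⟩, rfl⟩

theorem fvv_le {η : ℝ} (h0 : 0 < η) (c : ℝ) (X : FSy m) (y : FD X.F (Mon (m + 1) D)) : fvv V η c X y ≤ V.M := by
  have h1 : fval2 (wv V η X) y ≤ V.M := by
    apply sum_mul_le (F := y.l.T)
    intro ω _
    unfold wv
    have e1 := min_le_right (V.v X (y.l.p.π ω) (y.g ω)) V.M
    have e2 := div_nonneg (add_nonneg (bX_nonneg η D X (y.l.p.π ω) (y.g ω)) (bX_nonneg η D X (y.l.p.π ω) (y.g' ω))) h0.le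
    linarith
  have h2 : 0 ≤ (y.l.leak (PA X c) + y.l.leak (PB X)) / η / X.F.n :=
    div_nonneg (div_nonneg (add_nonneg (y.l.leak_nonneg _) (y.l.leak_nonneg _)) h0.le) X.F.pos.le
  unfold fvv
  linarith

theorem fvs_bdd {η : ℝ} (h0 : 0 < η) (c : ℝ) (X : FSy m) : BddAbove (fvs V η c X) := by
  refine ⟨V.M, ?_⟩
  rintro r ⟨y, _, rfl⟩
  exact fvv_le V h0 c X y

theorem fvo_le {η : ℝ} (h0 : 0 < η) (c : ℝ) (X : FSy m) : fvo V η c X ≤ V.M := by
  apply csSup_le (fvs_ne V η c X)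
  rintro r ⟨y, _, rfl⟩
  exact fvv_le V h0 c X y

theorem fvv_le_fvo {η : ℝ} (h0 : 0 < η) (c : ℝ) (X : FSy m) {y : FD X.F (Mon (m + 1) D)} (hy : capd D X y) :
    fvv V η c X y ≤ fvo V η c X := le_csSup (fvs_bdd V h0 c X) ⟨y, hy, rfl⟩

theorem fvo_ge {η : ℝ} (h0 : 0 < η) (c : ℝ) (X : FSy m) : -(2 / η) ≤ fvo V η c X := by
  have hc : capd D X (trivFD X.F) := fun _ _ => ⟨Cpd_one (one_le_cpX D X), Cpd_one (one_le_cpX D X)⟩
  refine le_trans ?_ (fvv_le_fvo V h0 c X hc)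
  have h1 : -(2 / η) ≤ fval2 (wv V η X) (trivFD X.F) := by
    apply le_sum_mul (F := (trivFD (ι := Mon (m + 1) D) X.F).l.T)
    intro ω hω
    show -(2 / η) ≤ wv V η X _ _ _
    unfold wv
    have e1 : 0 ≤ min (V.v X ω 1) V.M := le_min (V.nn X ω 1 (Cpd_one (one_le_cpX D X))) V.M0
    have e2 : (bX η D X ω 1 + bX η D X ω 1) / η ≤ 2 / η := by
      apply div_le_div_of_nonneg_right _ h0.le
      have := bX_le_one η D X ω 1
      linarith
    have e3 : -(2 / η) ≤ min (V.v X ω 1) V.M - (bX η D X ω 1 + bX η D X ω 1) / η := by linarith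
    exact e3
  have h2 : (trivFD (ι := Mon (m + 1) D) X.F).l.leak (PA X c) = 0 := FLab.triv_leak _
  have h3 : (trivFD (ι := Mon (m + 1) D) X.F).l.leak (PB X) = 0 := FLab.triv_leak _
  unfold fvv
  rw [h2, h3]
  simpa using h1

/-! ### monotonicity in the penalty -/

theorem bX_anti {η η' : ℝ} (h : η ≤ η') (X : FSy m) (ω : X.F.Ω) (A : Matrix (Mon (m + 1) D) (Mon (m + 1) D) ℝ) :
    bX η' D X ω A ≤ bX η D X ω A := by
  by_cases h1 : phi (X.dl 1) A (ptX X ω) ≤ 2 ^ (η * X.F.n)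
  · have h2 : phi (X.dl 1) A (ptX X ω) ≤ 2 ^ (η' * X.F.n) :=
      h1.trans (Real.rpow_le_rpow_of_exponent_le (by norm_num) (mul_le_mul_of_nonneg_right h X.F.pos.le))
    have e1 : bX η' D X ω A = 0 := by
      unfold bX
      rw [if_neg (not_not.mpr h2)]
    rw [e1]
    exact bX_nonneg _ _ _ _ _
  · have e1 : bX η D X ω A = 1 := by
      unfold bX
      rw [if_pos h1]
    rw [e1]
    exact bX_le_one _ _ _ _ _

theorem wv_mono {η η' : ℝ} (h0 : 0 < η) (h : η ≤ η') (X : FSy m) (ω : X.F.Ω)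
    (A A' : Matrix (Mon (m + 1) D) (Mon (m + 1) D) ℝ) : wv V η X ω A A' ≤ wv V η' X ω A A' := by
  unfold wv
  have h1 := bX_anti (D := D) h X ω A
  have h2 := bX_anti (D := D) h X ω A'
  have h3 := bX_nonneg η' D X ω A
  have h4 := bX_nonneg η' D X ω A'
  have h5 : (bX η' D X ω A + bX η' D X ω A') / η' ≤ (bX η D X ω A + bX η D X ω A') / η :=
    div_le_div₀ (by linarith) (by linarith) h0 h
  linarith

theorem fval2_wv_mono {η η' : ℝ} (h0 : 0 < η) (h : η ≤ η') (X : FSy m) (y : FD X.F (Mon (m + 1) D)) :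
    fval2 (wv V η X) y ≤ fval2 (wv V η' X) y :=
  Finset.sum_le_sum fun ω _ => mul_le_mul_of_nonneg_left (wv_mono V h0 h X _ _ _) (y.l.T.nn ω)

theorem fvv_mono {η η' : ℝ} (h0 : 0 < η) (h : η ≤ η') (c : ℝ) (X : FSy m) (y : FD X.F (Mon (m + 1) D)) :
    fvv V η c X y ≤ fvv V η' c X y := by
  unfold fvv
  have h1 := fval2_wv_mono V h0 h X y
  have h2 : (y.l.leak (PA X c) + y.l.leak (PB X)) / η' / X.F.n ≤ (y.l.leak (PA X c) + y.l.leak (PB X)) / η / X.F.n := by
    apply div_le_div_of_nonneg_right _ X.F.pos.le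
    exact div_le_div_of_nonneg_left (add_nonneg (y.l.leak_nonneg _) (y.l.leak_nonneg _)) h0 h
  linarith

theorem fvo_mono {η η' : ℝ} (h0 : 0 < η) (h : η ≤ η') (c : ℝ) (X : FSy m) : fvo V η c X ≤ fvo V η' c X := by
  apply csSup_le (fvs_ne V η c X)
  rintro r ⟨y, hy, rfl⟩
  exact (fvv_mono V h0 h c X y).trans (fvv_le_fvo V (h0.trans_le h) c X hy)

/-! ### splitting -/

theorem wv_im (η : ℝ) (X : FSy m) {T : FSp} (p : FPj T X.F) (E : T.Ω → Prop) : wv V η (imf X p E) = wv V η X := by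
  funext ω A A'
  unfold wv
  rw [V.im X T p E ω A]
  rfl

theorem fvv_im (η c : ℝ) (X : FSy m) {T : FSp} (p : FPj T X.F) (E : T.Ω → Prop)
    (y : FD (FSp.im p E) (Mon (m + 1) D)) : fvv V η c (imf X p E) y = fval2 (F := FSp.im p E) (wv V η X) y -
      (y.l.leak (FSp.imap p E (PA X c)) + y.l.leak (FSp.imap p E (PB X))) / η / X.F.n := by
  unfold fvv
  rw [wv_im]
  rfl

/-- superadditivity -/
theorem fvv_glue {η : ℝ} (h0 : 0 < η) (c : ℝ) (X : FSy m) (T : FSp) (p : FPj T X.F) (E : T.Ω → Prop)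
    (y1 : FD (FSp.im p E) (Mon (m + 1) D)) (y2 : FD (FSp.im p (fun ω => ¬ E ω)) (Mon (m + 1) D)) :
    T.pb E * fvv V η c (imf X p E) y1 + (1 - T.pb E) * fvv V η c (imf X p (fun ω => ¬ E ω)) y2 ≤
      fvv V η c X (gluFD p E y1 y2) + (2 / η) / X.F.n := by
  have g1 := fval2_glu (p := p) (E := E) (wv V η X) y1 y2
  have g2 := Pool.Agent.Helper59.EV.glu_leak y1 y2 (PA X c)
  have g3 := Pool.Agent.Helper59.EV.glu_leak y1 y2 (PB X)
  have hn := X.F.pos
  rw [fvv_im, fvv_im]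
  unfold fvv
  rw [g1]
  generalize T.pb E = P at g2 g3 ⊢
  generalize fval2 (F := FSp.im p E) (wv V η X) y1 = v1
  generalize fval2 (F := FSp.im p (fun ω => ¬ E ω)) (wv V η X) y2 = v2
  generalize (gluFD p E y1 y2).l.leak (PA X c) = a0 at g2 ⊢
  generalize (gluFD p E y1 y2).l.leak (PB X) = b0 at g3 ⊢
  generalize y1.l.leak (FSp.imap p E (PA X c)) = a1 at g2 ⊢
  generalize y1.l.leak (FSp.imap p E (PB X)) = b1 at g3 ⊢
  generalize y2.l.leak (FSp.imap p (fun ω => ¬ E ω) (PA X c)) = a2 at g2 ⊢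
  generalize y2.l.leak (FSp.imap p (fun ω => ¬ E ω) (PB X)) = b2 at g3 ⊢
  have e4 : (a0 + b0) / η / X.F.n ≤ (P * ((a1 + b1) / η / X.F.n) + (1 - P) * ((a2 + b2) / η / X.F.n)) +
      2 / η / X.F.n := by
    have e5 : (P * ((a1 + b1) / η / X.F.n) + (1 - P) * ((a2 + b2) / η / X.F.n)) + 2 / η / X.F.n =
        ((P * a1 + (1 - P) * a2 + 1) + (P * b1 + (1 - P) * b2 + 1)) / η / X.F.n := by ring
    rw [e5]
    apply div_le_div_of_nonneg_right _ hn.le
    apply div_le_div_of_nonneg_right _ h0.le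
    linarith
  linarith

/-- subadditivity, with a smaller penalty -/
theorem fvv_split {η : ℝ} (h0 : 0 < η) (c : ℝ) (X : FSy m) (T : FSp) (p : FPj T X.F) (hn : T.n = X.F.n)
    (E : T.Ω → Prop) (y : FD X.F (Mon (m + 1) D)) :
    fvv V η c X y ≤ T.pb E * fvv V (2 * η) c (imf X p E) (imFD p E hn y) +
      (1 - T.pb E) * fvv V (2 * η) c (imf X p (fun ω => ¬ E ω)) (imFD p (fun ω => ¬ E ω) hn y) +
      (2 / η) / X.F.n := by
  have g1 := fval2_im (p := p) (E := E) hn (wv V η X) y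
  have m1 : fval2 (F := FSp.im p E) (wv V η X) (imFD p E hn y) ≤
      fval2 (F := FSp.im p E) (wv V (2 * η) X) (imFD p E hn y) :=
    Finset.sum_le_sum fun ω _ => mul_le_mul_of_nonneg_left (wv_mono V h0 (by linarith) X _ _ _)
      ((imFD p E hn y).l.T.nn ω)
  have m2 : fval2 (F := FSp.im p (fun ω => ¬ E ω)) (wv V η X) (imFD p (fun ω => ¬ E ω) hn y) ≤
      fval2 (F := FSp.im p (fun ω => ¬ E ω)) (wv V (2 * η) X) (imFD p (fun ω => ¬ E ω) hn y) :=
    Finset.sum_le_sum fun ω _ => mul_le_mul_of_nonneg_left (wv_mono V h0 (by linarith) X _ _ _)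
      ((imFD p (fun ω => ¬ E ω) hn y).l.T.nn ω)
  have g2 := im_leak (p := p) (E := E) hn y (PA X c)
  have g3 := im_leak (p := p) (E := E) hn y (PB X)
  have g2' := im_leak (p := p) (E := fun ω => ¬ E ω) hn y (PA X c)
  have g3' := im_leak (p := p) (E := fun ω => ¬ E ω) hn y (PB X)
  rw [pb_not] at g2' g3'
  have hpos := X.F.pos
  have hp0 := T.pb_nonneg E
  have hp1 : 0 ≤ 1 - T.pb E := sub_nonneg.mpr (T.pb_le_one E)
  rw [fvv_im, fvv_im]
  unfold fvv
  rw [g1]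
  have k1 := mul_le_mul_of_nonneg_left m1 hp0
  have k2 := mul_le_mul_of_nonneg_left m2 hp1
  generalize T.pb E = P at g2 g3 g2' g3' k1 k2 ⊢
  generalize fval2 (F := FSp.im p E) (wv V η X) (imFD p E hn y) = v1 at k1 ⊢
  generalize fval2 (F := FSp.im p (fun ω => ¬ E ω)) (wv V η X) (imFD p (fun ω => ¬ E ω) hn y) = v2 at k2 ⊢
  generalize fval2 (F := FSp.im p E) (wv V (2 * η) X) (imFD p E hn y) = v1' at k1 ⊢
  generalize fval2 (F := FSp.im p (fun ω => ¬ E ω)) (wv V (2 * η) X) (imFD p (fun ω => ¬ E ω) hn y) = v2' at k2 ⊢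
  generalize y.l.leak (PA X c) = a0 at g2 g2' ⊢
  generalize y.l.leak (PB X) = b0 at g3 g3' ⊢
  generalize (imFD p E hn y).l.leak (FSp.imap p E (PA X c)) = a1 at g2 ⊢
  generalize (imFD p E hn y).l.leak (FSp.imap p E (PB X)) = b1 at g3 ⊢
  generalize (imFD p (fun ω => ¬ E ω) hn y).l.leak (FSp.imap p (fun ω => ¬ E ω) (PA X c)) = a2 at g2' ⊢
  generalize (imFD p (fun ω => ¬ E ω) hn y).l.leak (FSp.imap p (fun ω => ¬ E ω) (PB X)) = b2 at g3' ⊢
  have e4 : P * ((a1 + b1) / (2 * η) / X.F.n) + (1 - P) * ((a2 + b2) / (2 * η) / X.F.n) ≤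
      (a0 + b0) / η / X.F.n + 2 / η / X.F.n := by
    have e5 : P * ((a1 + b1) / (2 * η) / X.F.n) + (1 - P) * ((a2 + b2) / (2 * η) / X.F.n) =
        (P * a1 + (1 - P) * a2 + (P * b1 + (1 - P) * b2)) / 2 / η / X.F.n := by ring
    rw [e5, ← add_div, ← add_div]
    apply div_le_div_of_nonneg_right _ hpos.le
    apply div_le_div_of_nonneg_right _ h0.le
    linarith
  linarith

theorem fvo_glue {η : ℝ} (h0 : 0 < η) (c : ℝ) (X : FSy m) (T : FSp) (p : FPj T X.F) (E : T.Ω → Prop) :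
    T.pb E * fvo V η c (imf X p E) + (1 - T.pb E) * fvo V η c (imf X p (fun ω => ¬ E ω)) ≤
      fvo V η c X + (2 / η) / X.F.n := by
  apply sup_avg (fvs_ne _ _ _ _) (fvs_ne _ _ _ _) (T.pb_nonneg E) (T.pb_le_one E)
  rintro a ⟨y1, k1, rfl⟩ b ⟨y2, k2, rfl⟩
  have h2 := fvv_glue V h0 c X T p E y1 y2
  have h3 := fvv_le_fvo V h0 c X (y := gluFD p E y1 y2) (fun w hw => glu_all (Cpd (cpX D X)) y1 y2 k1 k2 w hw)
  linarith

theorem fvo_split {η : ℝ} (h0 : 0 < η) (c : ℝ) (X : FSy m) (T : FSp) (p : FPj T X.F) (hn : T.n = X.F.n)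
    (E : T.Ω → Prop) :
    fvo V η c X ≤ T.pb E * fvo V (2 * η) c (imf X p E) + (1 - T.pb E) * fvo V (2 * η) c (imf X p (fun ω => ¬ E ω)) +
      (2 / η) / X.F.n := by
  apply csSup_le (fvs_ne V η c X)
  rintro r ⟨y, hy, rfl⟩
  have h2 : 0 < 2 * η := by linarith
  have h1 := fvv_split V h0 c X T p hn E y
  have e1 := fvv_le_fvo V h2 c (imf X p E) (y := imFD p E hn y)
    (fun w hw => im_all (p := p) (E := E) hn (Cpd (cpX D X)) y hy w hw)
  have e2 := fvv_le_fvo V h2 c (imf X p (fun ω => ¬ E ω)) (y := imFD p (fun ω => ¬ E ω) hn y)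
    (fun w hw => im_all (p := p) (E := fun ω => ¬ E ω) hn (Cpd (cpX D X)) y hy w hw)
  have k1 := mul_le_mul_of_nonneg_left e1 (T.pb_nonneg E)
  have k2 := mul_le_mul_of_nonneg_left e2 (sub_nonneg.mpr (T.pb_le_one E))
  linarith

/-! ### extensions -/

section
variable (X : FSy m) {T : FSp} (p : FPj T X.F) (hn : T.n = X.F.n)

include hn in
theorem dl_plf (r : ℝ) : (plf X p).dl r = X.dl r := by
  have h1 : (plf X p).F.n = X.F.n := hn
  unfold FSy.dl
  rw [h1]

include hn in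
theorem PA_plf (c : ℝ) : PA (plf X p) c = p.map (PA X c) := by
  have h1 := dl_plf X p hn
  unfold PA FSy.ka FSy.kx FSy.kt
  rw [h1, h1]
  rfl

include hn in
theorem PB_plf : PB (plf X p) = p.map (PB X) := by
  have h1 := dl_plf X p hn
  unfold PB FSy.kP FSy.kt
  rw [h1]
  rfl

include hn in
theorem bX_plf (η : ℝ) (ω : T.Ω) (A : Matrix (Mon (m + 1) D) (Mon (m + 1) D) ℝ) :
    bX η D (plf X p) ω A = bX η D X (p.π ω) A := by
  have h1 := dl_plf X p hn
  have h2 : (plf X p).F.n = X.F.n := hn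
  unfold bX
  rw [h1, h2]
  rfl

include hn in
theorem wv_plf (η : ℝ) (ω : T.Ω) (A A' : Matrix (Mon (m + 1) D) (Mon (m + 1) D) ℝ) :
    wv V η (plf X p) ω A A' = wv V η X (p.π ω) A A' := by
  unfold wv
  rw [V.pl X T p hn, bX_plf X p hn, bX_plf X p hn]

include hn in
theorem cpX_plf : cpX D (plf X p) = cpX D X := by
  have h2 : (plf X p).F.n = X.F.n := hn
  unfold cpX
  rw [h2]

/-- a label with forms of an extension as a label with forms of the space -/
def dnFD (y : FD T (Mon (m + 1) D)) : FD X.F (Mon (m + 1) D) where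
  l := Pool.Agent.Helper40.EL.FLab.down p hn y.l
  g := y.g
  g' := y.g'
  meas := fun ω ω' h h' hV hZ => y.meas ω ω' h h' hV hZ

/-- a label with forms of the space as a label with forms of an extension -/
def upFD (y : FD X.F (Mon (m + 1) D)) : FD T (Mon (m + 1) D) where
  l := y.l.up' p hn
  g := fun w => y.g w.1
  g' := fun w => y.g' w.1
  meas := by
    intro w w' h h' hV hZ
    have k5 := ((y.l.amx p).supp w h).2.1
    have k6 := ((y.l.amx p).supp w' h').2.1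
    have k7 : y.l.T.Z w.1 w'.1 := ((y.l.amx p).p1.hZ w w' h h').mp hZ
    exact y.meas w.1 w'.1 k5 k6 hV k7

theorem fval2_up (f : X.F.Ω → Matrix (Mon (m + 1) D) (Mon (m + 1) D) ℝ → Matrix (Mon (m + 1) D) (Mon (m + 1) D) ℝ → ℝ)
    (y : FD X.F (Mon (m + 1) D)) : fval2 (F := T) (fun ω => f (p.π ω)) (upFD X p hn y) = fval2 f y := by
  have h4 := sum_pull (y.l.amx p).p1 (fun a => f (y.l.p.π a) (y.g a) (y.g' a))
  refine Eq.trans (Finset.sum_congr rfl fun w _ => ?_) h4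
  by_cases h0 : (y.l.amx p).sp.μ w = 0
  · show (y.l.amx p).sp.μ w * _ = (y.l.amx p).sp.μ w * _
    rw [h0, zero_mul, zero_mul]
  · have h5 : y.l.p.π w.1 = p.π w.2 := ((y.l.amx p).supp w h0).1
    show (y.l.amx p).sp.μ w * f (p.π w.2) (y.g w.1) (y.g' w.1) =
      (y.l.amx p).sp.μ w * f (y.l.p.π w.1) (y.g w.1) (y.g' w.1)
    rw [h5]

include hn in
theorem fvo_plf {η : ℝ} (h0 : 0 < η) (c : ℝ) : fvo V η c (plf X p) = fvo V η c X := by
  have hpos := X.F.pos
  have hPA := PA_plf X p hn c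
  have hPB := PB_plf X p hn
  have hcp := cpX_plf (D := D) X p hn
  have hN : (plf X p).F.n = X.F.n := hn
  have hw : wv V η (plf X p) = fun ω => wv V η X (p.π ω) := by
    funext ω A A'
    exact wv_plf V X p hn η ω A A'
  apply le_antisymm
  · apply csSup_le (fvs_ne V η c _)
    rintro r ⟨y, hy, rfl⟩
    have hy' : capd D X (dnFD X p hn y) := by
      intro ω hω
      have := hy ω hω
      rw [hcp] at this
      exact this
    refine le_trans ?_ (fvv_le_fvo V h0 c X hy')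
    have e1 : (dnFD X p hn y).l.leak (PA X c) ≤ y.l.leak (p.map (PA X c)) := Pool.Agent.Helper40.EL.FLab.down_leak p hn y.l (PA X c)
    have e2 : (dnFD X p hn y).l.leak (PB X) ≤ y.l.leak (p.map (PB X)) := Pool.Agent.Helper40.EL.FLab.down_leak p hn y.l (PB X)
    have e3 : fval2 (F := T) (fun ω => wv V η X (p.π ω)) y = fval2 (wv V η X) (dnFD X p hn y) := rfl
    unfold fvv
    rw [hPA, hPB, hw, hN]
    have e4 : ((dnFD X p hn y).l.leak (PA X c) + (dnFD X p hn y).l.leak (PB X)) / η / X.F.n ≤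
        (y.l.leak (p.map (PA X c)) + y.l.leak (p.map (PB X))) / η / X.F.n :=
      div_le_div_of_nonneg_right (div_le_div_of_nonneg_right (add_le_add e1 e2) h0.le) hpos.le
    have e5 := sub_le_sub e3.le e4
    exact e5
  · apply csSup_le (fvs_ne V η c _)
    rintro r ⟨y, hy, rfl⟩
    have hy' : capd D (plf X p) (upFD X p hn y) := by
      intro w hw
      rw [hcp]
      exact hy w.1 ((y.l.amx p).supp w hw).2.1
    refine le_trans ?_ (fvv_le_fvo V h0 c (plf X p) hy')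
    have e1 : (upFD X p hn y).l.leak (p.map (PA X c)) ≤ y.l.leak (PA X c) := FLab.up'_leak y.l p hn (PA X c)
    have e2 : (upFD X p hn y).l.leak (p.map (PB X)) ≤ y.l.leak (PB X) := FLab.up'_leak y.l p hn (PB X)
    have e3 : fval2 (F := T) (fun ω => wv V η X (p.π ω)) (upFD X p hn y) = fval2 (wv V η X) y :=
      fval2_up X p hn (wv V η X) y
    unfold fvv
    rw [hPA, hPB, hw, hN]
    have e4 : ((upFD X p hn y).l.leak (p.map (PA X c)) + (upFD X p hn y).l.leak (p.map (PB X))) / η / X.F.n ≤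
        (y.l.leak (PA X c) + y.l.leak (PB X)) / η / X.F.n :=
      div_le_div_of_nonneg_right (div_le_div_of_nonneg_right (add_le_add e1 e2) h0.le) hpos.le
    exact sub_le_sub e3.ge e4

end

end

end Pool.Agent.Helper52.SL
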