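import Pool.Agent.Helper52.SL.Lvf

/-! Values of labels with forms, general version: the forms are evaluated at the points of a finite system `Y`, the
leaks are measured at two arbitrary informations `A`, `B` of the space. (`Fvl.lean` is the case `A = PA Y c`,
`B = PB Y`; for factors of systems `A`, `B` come from the big system.) -/

set_option autoImplicit false

namespace Pool.Agent.Helper52.SL

open Finset Filter Topology Matrix Pool.Agent.Helper69.RK Pool.Agent.Helper31.EC Pool.Agent.Helper31.EC.Sp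
open Pool.Agent.Helper40.EL Pool.Agent.Helper42.NS Pool.Agent.Helper52.KP
open Pool.Agent.Helper95.LF Pool.Agent.Helper3.LF Pool.Agent.Helper48.NS Pool.Agent.Helper89.LX
open Pool.Agent.Helper3.PR Pool.Agent.Helper59.EV

noncomputable section

variable {q D : ℕ} (V : FV q D)

/-- the penalised value of a label with forms; leaks at `A` and `B` -/
def gvv (η : ℝ) (Y : FSy q) (A B : FL Y.F) (y : FD Y.F (Mon (q + 1) D)) : ℝ :=
  fval2 (wv V η Y) y - (y.l.leak A + y.l.leak B) / η / Y.F.n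

/-- the values of all labels with forms -/
def gvs (η : ℝ) (Y : FSy q) (A B : FL Y.F) : Set ℝ :=
  {r | ∃ y : FD Y.F (Mon (q + 1) D), capd D Y y ∧ r = gvv V η Y A B y}

/-- the penalised value -/
def gvo (η : ℝ) (Y : FSy q) (A B : FL Y.F) : ℝ := sSup (gvs V η Y A B)

theorem gvs_ne (η : ℝ) (Y : FSy q) (A B : FL Y.F) : (gvs V η Y A B).Nonempty :=
  ⟨_, trivFD Y.F, fun _ _ => ⟨Cpd_one (one_le_cpX D Y), Cpd_one (one_le_cpX D Y)⟩, rfl⟩

theorem gvv_le {η : ℝ} (h0 : 0 < η) (Y : FSy q) (A B : FL Y.F) (y : FD Y.F (Mon (q + 1) D)) :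
    gvv V η Y A B y ≤ V.M := by
  have h1 : fval2 (wv V η Y) y ≤ V.M := by
    apply sum_mul_le (F := y.l.T)
    intro ω _
    unfold wv
    have e1 := min_le_right (V.v Y (y.l.p.π ω) (y.g ω)) V.M
    have e2 := div_nonneg (add_nonneg (bX_nonneg η D Y (y.l.p.π ω) (y.g ω)) (bX_nonneg η D Y (y.l.p.π ω) (y.g' ω))) h0.le
    linarith
  have h2 : 0 ≤ (y.l.leak A + y.l.leak B) / η / Y.F.n :=
    div_nonneg (div_nonneg (add_nonneg (y.l.leak_nonneg _) (y.l.leak_nonneg _)) h0.le) Y.F.pos.le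
  unfold gvv
  linarith

theorem gvs_bdd {η : ℝ} (h0 : 0 < η) (Y : FSy q) (A B : FL Y.F) : BddAbove (gvs V η Y A B) := by
  refine ⟨V.M, ?_⟩
  rintro r ⟨y, _, rfl⟩
  exact gvv_le V h0 Y A B y

theorem gvo_le {η : ℝ} (h0 : 0 < η) (Y : FSy q) (A B : FL Y.F) : gvo V η Y A B ≤ V.M := by
  apply csSup_le (gvs_ne V η Y A B)
  rintro r ⟨y, _, rfl⟩
  exact gvv_le V h0 Y A B y

theorem gvv_le_gvo {η : ℝ} (h0 : 0 < η) (Y : FSy q) (A B : FL Y.F) {y : FD Y.F (Mon (q + 1) D)}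
    (hy : capd D Y y) : gvv V η Y A B y ≤ gvo V η Y A B := le_csSup (gvs_bdd V h0 Y A B) ⟨y, hy, rfl⟩

theorem gvo_ge {η : ℝ} (h0 : 0 < η) (Y : FSy q) (A B : FL Y.F) : -(2 / η) ≤ gvo V η Y A B := by
  have hc : capd D Y (trivFD Y.F) := fun _ _ => ⟨Cpd_one (one_le_cpX D Y), Cpd_one (one_le_cpX D Y)⟩
  refine le_trans ?_ (gvv_le_gvo V h0 Y A B hc)
  have h1 : -(2 / η) ≤ fval2 (wv V η Y) (trivFD Y.F) := by
    apply le_sum_mul (F := (trivFD (ι := Mon (q + 1) D) Y.F).l.T)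
    intro ω hω
    show -(2 / η) ≤ wv V η Y _ _ _
    unfold wv
    have e1 : 0 ≤ min (V.v Y ω 1) V.M := le_min (V.nn Y ω 1 (Cpd_one (one_le_cpX D Y))) V.M0
    have e2 : (bX η D Y ω 1 + bX η D Y ω 1) / η ≤ 2 / η := by
      apply div_le_div_of_nonneg_right _ h0.le
      have := bX_le_one η D Y ω 1
      linarith
    have e3 : -(2 / η) ≤ min (V.v Y ω 1) V.M - (bX η D Y ω 1 + bX η D Y ω 1) / η := by linarith
    exact e3
  have h2 : (trivFD (ι := Mon (q + 1) D) Y.F).l.leak A = 0 := FLab.triv_leak _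
  have h3 : (trivFD (ι := Mon (q + 1) D) Y.F).l.leak B = 0 := FLab.triv_leak _
  unfold gvv
  rw [h2, h3]
  simpa using h1

/-! ### monotonicity in the penalty -/

theorem gvv_mono {η η' : ℝ} (h0 : 0 < η) (h : η ≤ η') (Y : FSy q) (A B : FL Y.F) (y : FD Y.F (Mon (q + 1) D)) :
    gvv V η Y A B y ≤ gvv V η' Y A B y := by
  unfold gvv
  have h1 := fval2_wv_mono V h0 h Y y
  have h2 : (y.l.leak A + y.l.leak B) / η' / Y.F.n ≤ (y.l.leak A + y.l.leak B) / η / Y.F.n := by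
    apply div_le_div_of_nonneg_right _ Y.F.pos.le
    exact div_le_div_of_nonneg_left (add_nonneg (y.l.leak_nonneg _) (y.l.leak_nonneg _)) h0 h
  linarith

theorem gvo_mono {η η' : ℝ} (h0 : 0 < η) (h : η ≤ η') (Y : FSy q) (A B : FL Y.F) :
    gvo V η Y A B ≤ gvo V η' Y A B := by
  apply csSup_le (gvs_ne V η Y A B)
  rintro r ⟨y, hy, rfl⟩
  exact (gvv_mono V h0 h Y A B y).trans (gvv_le_gvo V (h0.trans_le h) Y A B hy)

/-! ### other informations -/

/-- if the leaks at `A'` are at most the leaks at `A` up to `a`, ... -/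
theorem gvo_le_of {η : ℝ} (h0 : 0 < η) (Y : FSy q) (A B A' B' : FL Y.F) (a : ℝ)
    (h : ∀ l : FLab Y.F, l.leak A' + l.leak B' ≤ l.leak A + l.leak B + a * Y.F.n) :
    gvo V η Y A B ≤ gvo V η Y A' B' + a / η := by
  have hn := Y.F.pos
  apply csSup_le (gvs_ne V η Y A B)
  rintro r ⟨y, hy, rfl⟩
  have h1 := gvv_le_gvo V h0 Y A' B' hy
  have h2 := h y.l
  have h3 : gvv V η Y A B y ≤ gvv V η Y A' B' y + a / η := by
    unfold gvv
    have e1 : (y.l.leak A' + y.l.leak B') / η / Y.F.n ≤ (y.l.leak A + y.l.leak B) / η / Y.F.n + a / η := by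
      have e2 : (y.l.leak A + y.l.leak B) / η / Y.F.n + a / η =
          (y.l.leak A + y.l.leak B + a * Y.F.n) / η / Y.F.n := by
        field_simp
      rw [e2]
      apply div_le_div_of_nonneg_right _ hn.le
      exact div_le_div_of_nonneg_right h2 h0.le
    linarith
  linarith

/-! ### splitting -/

theorem gvv_im (η : ℝ) (Y : FSy q) (A B : FL Y.F) {T : FSp} (p : FPj T Y.F) (E : T.Ω → Prop)
    (y : FD (FSp.im p E) (Mon (q + 1) D)) : gvv V η (imf Y p E) (FSp.imap p E A) (FSp.imap p E B) y =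
      fval2 (F := FSp.im p E) (wv V η Y) y -
      (y.l.leak (FSp.imap p E A) + y.l.leak (FSp.imap p E B)) / η / Y.F.n := by
  unfold gvv
  rw [wv_im]
  rfl

/-- superadditivity -/
theorem gvv_glue {η : ℝ} (h0 : 0 < η) (Y : FSy q) (A B : FL Y.F) (T : FSp) (p : FPj T Y.F) (E : T.Ω → Prop)
    (y1 : FD (FSp.im p E) (Mon (q + 1) D)) (y2 : FD (FSp.im p (fun ω => ¬ E ω)) (Mon (q + 1) D)) :
    T.pb E * gvv V η (imf Y p E) (FSp.imap p E A) (FSp.imap p E B) y1 +
      (1 - T.pb E) * gvv V η (imf Y p (fun ω => ¬ E ω)) (FSp.imap p (fun ω => ¬ E ω) A)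
        (FSp.imap p (fun ω => ¬ E ω) B) y2 ≤
      gvv V η Y A B (gluFD p E y1 y2) + (2 / η) / Y.F.n := by
  have g1 := fval2_glu (p := p) (E := E) (wv V η Y) y1 y2
  have g2 := Pool.Agent.Helper59.EV.glu_leak y1 y2 A
  have g3 := Pool.Agent.Helper59.EV.glu_leak y1 y2 B
  have hn := Y.F.pos
  rw [gvv_im, gvv_im]
  unfold gvv
  rw [g1]
  generalize T.pb E = P at g2 g3 ⊢
  generalize fval2 (F := FSp.im p E) (wv V η Y) y1 = v1
  generalize fval2 (F := FSp.im p (fun ω => ¬ E ω)) (wv V η Y) y2 = v2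
  generalize (gluFD p E y1 y2).l.leak A = a0 at g2 ⊢
  generalize (gluFD p E y1 y2).l.leak B = b0 at g3 ⊢
  generalize y1.l.leak (FSp.imap p E A) = a1 at g2 ⊢
  generalize y1.l.leak (FSp.imap p E B) = b1 at g3 ⊢
  generalize y2.l.leak (FSp.imap p (fun ω => ¬ E ω) A) = a2 at g2 ⊢
  generalize y2.l.leak (FSp.imap p (fun ω => ¬ E ω) B) = b2 at g3 ⊢
  have e4 : (a0 + b0) / η / Y.F.n ≤ (P * ((a1 + b1) / η / Y.F.n) + (1 - P) * ((a2 + b2) / η / Y.F.n)) +
      2 / η / Y.F.n := by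
    have e5 : (P * ((a1 + b1) / η / Y.F.n) + (1 - P) * ((a2 + b2) / η / Y.F.n)) + 2 / η / Y.F.n =
        ((P * a1 + (1 - P) * a2 + 1) + (P * b1 + (1 - P) * b2 + 1)) / η / Y.F.n := by ring
    rw [e5]
    apply div_le_div_of_nonneg_right _ hn.le
    apply div_le_div_of_nonneg_right _ h0.le
    linarith
  linarith

/-- subadditivity, with a smaller penalty -/
theorem gvv_split {η : ℝ} (h0 : 0 < η) (Y : FSy q) (A B : FL Y.F) (T : FSp) (p : FPj T Y.F) (hn : T.n = Y.F.n)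
    (E : T.Ω → Prop) (y : FD Y.F (Mon (q + 1) D)) :
    gvv V η Y A B y ≤
      T.pb E * gvv V (2 * η) (imf Y p E) (FSp.imap p E A) (FSp.imap p E B) (imFD p E hn y) +
      (1 - T.pb E) * gvv V (2 * η) (imf Y p (fun ω => ¬ E ω)) (FSp.imap p (fun ω => ¬ E ω) A)
        (FSp.imap p (fun ω => ¬ E ω) B) (imFD p (fun ω => ¬ E ω) hn y) +
      (2 / η) / Y.F.n := by
  have g1 := fval2_im (p := p) (E := E) hn (wv V η Y) y
  have m1 : fval2 (F := FSp.im p E) (wv V η Y) (imFD p E hn y) ≤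
      fval2 (F := FSp.im p E) (wv V (2 * η) Y) (imFD p E hn y) :=
    Finset.sum_le_sum fun ω _ => mul_le_mul_of_nonneg_left (wv_mono V h0 (by linarith) Y _ _ _)
      ((imFD p E hn y).l.T.nn ω)
  have m2 : fval2 (F := FSp.im p (fun ω => ¬ E ω)) (wv V η Y) (imFD p (fun ω => ¬ E ω) hn y) ≤
      fval2 (F := FSp.im p (fun ω => ¬ E ω)) (wv V (2 * η) Y) (imFD p (fun ω => ¬ E ω) hn y) :=
    Finset.sum_le_sum fun ω _ => mul_le_mul_of_nonneg_left (wv_mono V h0 (by linarith) Y _ _ _)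
      ((imFD p (fun ω => ¬ E ω) hn y).l.T.nn ω)
  have g2 := im_leak (p := p) (E := E) hn y A
  have g3 := im_leak (p := p) (E := E) hn y B
  have g2' := im_leak (p := p) (E := fun ω => ¬ E ω) hn y A
  have g3' := im_leak (p := p) (E := fun ω => ¬ E ω) hn y B
  rw [pb_not] at g2' g3'
  have hpos := Y.F.pos
  have hp0 := T.pb_nonneg E
  have hp1 : 0 ≤ 1 - T.pb E := sub_nonneg.mpr (T.pb_le_one E)
  rw [gvv_im, gvv_im]
  unfold gvv
  rw [g1]
  have k1 := mul_le_mul_of_nonneg_left m1 hp0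
  have k2 := mul_le_mul_of_nonneg_left m2 hp1
  generalize T.pb E = P at g2 g3 g2' g3' k1 k2 ⊢
  generalize fval2 (F := FSp.im p E) (wv V η Y) (imFD p E hn y) = v1 at k1 ⊢
  generalize fval2 (F := FSp.im p (fun ω => ¬ E ω)) (wv V η Y) (imFD p (fun ω => ¬ E ω) hn y) = v2 at k2 ⊢
  generalize fval2 (F := FSp.im p E) (wv V (2 * η) Y) (imFD p E hn y) = v1' at k1 ⊢
  generalize fval2 (F := FSp.im p (fun ω => ¬ E ω)) (wv V (2 * η) Y) (imFD p (fun ω => ¬ E ω) hn y) = v2' at k2 ⊢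
  generalize y.l.leak A = a0 at g2 g2' ⊢
  generalize y.l.leak B = b0 at g3 g3' ⊢
  generalize (imFD p E hn y).l.leak (FSp.imap p E A) = a1 at g2 ⊢
  generalize (imFD p E hn y).l.leak (FSp.imap p E B) = b1 at g3 ⊢
  generalize (imFD p (fun ω => ¬ E ω) hn y).l.leak (FSp.imap p (fun ω => ¬ E ω) A) = a2 at g2' ⊢
  generalize (imFD p (fun ω => ¬ E ω) hn y).l.leak (FSp.imap p (fun ω => ¬ E ω) B) = b2 at g3' ⊢
  have e4 : P * ((a1 + b1) / (2 * η) / Y.F.n) + (1 - P) * ((a2 + b2) / (2 * η) / Y.F.n) ≤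
      (a0 + b0) / η / Y.F.n + 2 / η / Y.F.n := by
    have e5 : P * ((a1 + b1) / (2 * η) / Y.F.n) + (1 - P) * ((a2 + b2) / (2 * η) / Y.F.n) =
        (P * a1 + (1 - P) * a2 + (P * b1 + (1 - P) * b2)) / 2 / η / Y.F.n := by ring
    rw [e5, ← add_div, ← add_div]
    apply div_le_div_of_nonneg_right _ hpos.le
    apply div_le_div_of_nonneg_right _ h0.le
    linarith
  linarith

theorem gvo_glue {η : ℝ} (h0 : 0 < η) (Y : FSy q) (A B : FL Y.F) (T : FSp) (p : FPj T Y.F) (E : T.Ω → Prop) :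
    T.pb E * gvo V η (imf Y p E) (FSp.imap p E A) (FSp.imap p E B) +
      (1 - T.pb E) * gvo V η (imf Y p (fun ω => ¬ E ω)) (FSp.imap p (fun ω => ¬ E ω) A)
        (FSp.imap p (fun ω => ¬ E ω) B) ≤
      gvo V η Y A B + (2 / η) / Y.F.n := by
  apply sup_avg (gvs_ne _ _ _ _ _) (gvs_ne _ _ _ _ _) (T.pb_nonneg E) (T.pb_le_one E)
  rintro a ⟨y1, k1, rfl⟩ b ⟨y2, k2, rfl⟩
  have h2 := gvv_glue V h0 Y A B T p E y1 y2
  have h3 := gvv_le_gvo V h0 Y A B (y := gluFD p E y1 y2) (fun w hw => glu_all (Cpd (cpX D Y)) y1 y2 k1 k2 w hw)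
  linarith

theorem gvo_split {η : ℝ} (h0 : 0 < η) (Y : FSy q) (A B : FL Y.F) (T : FSp) (p : FPj T Y.F) (hn : T.n = Y.F.n)
    (E : T.Ω → Prop) :
    gvo V η Y A B ≤ T.pb E * gvo V (2 * η) (imf Y p E) (FSp.imap p E A) (FSp.imap p E B) +
      (1 - T.pb E) * gvo V (2 * η) (imf Y p (fun ω => ¬ E ω)) (FSp.imap p (fun ω => ¬ E ω) A)
        (FSp.imap p (fun ω => ¬ E ω) B) +
      (2 / η) / Y.F.n := by
  apply csSup_le (gvs_ne V η Y A B)
  rintro r ⟨y, hy, rfl⟩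
  have h2 : 0 < 2 * η := by linarith
  have h1 := gvv_split V h0 Y A B T p hn E y
  have e1 := gvv_le_gvo V h2 (imf Y p E) (FSp.imap p E A) (FSp.imap p E B) (y := imFD p E hn y)
    (fun w hw => im_all (p := p) (E := E) hn (Cpd (cpX D Y)) y hy w hw)
  have e2 := gvv_le_gvo V h2 (imf Y p (fun ω => ¬ E ω)) (FSp.imap p (fun ω => ¬ E ω) A)
    (FSp.imap p (fun ω => ¬ E ω) B) (y := imFD p (fun ω => ¬ E ω) hn y)
    (fun w hw => im_all (p := p) (E := fun ω => ¬ E ω) hn (Cpd (cpX D Y)) y hy w hw)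
  have k1 := mul_le_mul_of_nonneg_left e1 (T.pb_nonneg E)
  have k2 := mul_le_mul_of_nonneg_left e2 (sub_nonneg.mpr (T.pb_le_one E))
  linarith

/-! ### extensions -/

section
variable (Y : FSy q) (A B : FL Y.F) {T : FSp} (p : FPj T Y.F) (hn : T.n = Y.F.n)

include hn in
theorem gvo_plf {η : ℝ} (h0 : 0 < η) : gvo V η (plf Y p) (p.map A) (p.map B) = gvo V η Y A B := by
  have hpos := Y.F.pos
  have hcp := cpX_plf (D := D) Y p hn
  have hN : (plf Y p).F.n = Y.F.n := hn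
  have hw : wv V η (plf Y p) = fun ω => wv V η Y (p.π ω) := by
    funext ω A A'
    exact wv_plf V Y p hn η ω A A'
  apply le_antisymm
  · apply csSup_le (gvs_ne V η _ _ _)
    rintro r ⟨y, hy, rfl⟩
    have hy' : capd D Y (dnFD Y p hn y) := by
      intro ω hω
      have := hy ω hω
      rw [hcp] at this
      exact this
    refine le_trans ?_ (gvv_le_gvo V h0 Y A B hy')
    have e1 : (dnFD Y p hn y).l.leak A ≤ y.l.leak (p.map A) := Pool.Agent.Helper40.EL.FLab.down_leak p hn y.l A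
    have e2 : (dnFD Y p hn y).l.leak B ≤ y.l.leak (p.map B) := Pool.Agent.Helper40.EL.FLab.down_leak p hn y.l B
    have e3 : fval2 (F := T) (fun ω => wv V η Y (p.π ω)) y = fval2 (wv V η Y) (dnFD Y p hn y) := rfl
    unfold gvv
    rw [hw, hN]
    have e4 : ((dnFD Y p hn y).l.leak A + (dnFD Y p hn y).l.leak B) / η / Y.F.n ≤
        (y.l.leak (p.map A) + y.l.leak (p.map B)) / η / Y.F.n :=
      div_le_div_of_nonneg_right (div_le_div_of_nonneg_right (add_le_add e1 e2) h0.le) hpos.le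
    have e5 := sub_le_sub e3.le e4
    exact e5
  · apply csSup_le (gvs_ne V η _ _ _)
    rintro r ⟨y, hy, rfl⟩
    have hy' : capd D (plf Y p) (upFD Y p hn y) := by
      intro w hw
      rw [hcp]
      exact hy w.1 ((y.l.amx p).supp w hw).2.1
    refine le_trans ?_ (gvv_le_gvo V h0 (plf Y p) (p.map A) (p.map B) hy')
    have e1 : (upFD Y p hn y).l.leak (p.map A) ≤ y.l.leak A := FLab.up'_leak y.l p hn A
    have e2 : (upFD Y p hn y).l.leak (p.map B) ≤ y.l.leak B := FLab.up'_leak y.l p hn B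
    have e3 : fval2 (F := T) (fun ω => wv V η Y (p.π ω)) (upFD Y p hn y) = fval2 (wv V η Y) y :=
      fval2_up Y p hn (wv V η Y) y
    unfold gvv
    rw [hw, hN]
    have e4 : ((upFD Y p hn y).l.leak (p.map A) + (upFD Y p hn y).l.leak (p.map B)) / η / Y.F.n ≤
        (y.l.leak A + y.l.leak B) / η / Y.F.n :=
      div_le_div_of_nonneg_right (div_le_div_of_nonneg_right (add_le_add e1 e2) h0.le) hpos.le
    exact sub_le_sub e3.ge e4

end

end

end Pool.Agent.Helper52.SL
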