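import Pool.Agent.Helper52.SL.Gfv

/-! Values of labels with forms, general version, limits: `gvf V s' A B` is the supremum of the expected value of the
first forms over all sequences admissible for `(gau s' D, A, B)`; it is attained; it is additive over events of
extensions; it is monotone and continuous in the informations. -/

set_option autoImplicit false

namespace Pool.Agent.Helper52.SL

open Finset Filter Topology Matrix Pool.Agent.Helper69.RK Pool.Agent.Helper31.EC Pool.Agent.Helper31.EC.Sp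
open Pool.Agent.Helper40.EL Pool.Agent.Helper42.NS Pool.Agent.Helper52.KP
open Pool.Agent.Helper95.LF Pool.Agent.Helper3.LF Pool.Agent.Helper48.NS Pool.Agent.Helper89.LX
open Pool.Agent.Helper3.PR Pool.Agent.Helper59.EV

noncomputable section

variable {q D : ℕ} (V : FV q D)

section
variable {S : Sp} (s : Sys S q) (A B : Part S)

/-- the limit of the penalised values -/
def gvl (η : ℝ) : ℝ := ul (fun k => gvo V η (s.fin k) (A k) (B k))

theorem gvo_UB {η : ℝ} (h0 : 0 < η) : UB (fun k => gvo V η (s.fin k) (A k) (B k)) :=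
  ⟨2 / η + V.M, Eventually.of_forall fun k => by
    have h1 := gvo_ge V h0 (s.fin k) (A k) (B k)
    have h2 := gvo_le V h0 (s.fin k) (A k) (B k)
    have h3 := V.M0
    have h4 : 0 < 2 / η := by positivity
    rw [abs_le]
    constructor <;> linarith⟩

theorem gvl_le {η : ℝ} (h0 : 0 < η) : gvl V s A B η ≤ V.M :=
  ul_le_const (gvo_UB V s A B h0) (Eventually.of_forall fun k => gvo_le V h0 (s.fin k) (A k) (B k))

theorem gvl_mono {η η' : ℝ} (h0 : 0 < η) (h : η ≤ η') : gvl V s A B η ≤ gvl V s A B η' :=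
  ul_mono (gvo_UB V s A B h0) (gvo_UB V s A B (h0.trans_le h)) (Eventually.of_forall fun _ => gvo_mono V h0 h _ _ _)

theorem gvv_sys (η : ℝ) (k : ℕ) (w : FD (S.F k) (Mon (q + 1) D)) :
    gvv V η (s.fin k) (A k) (B k) w = ∑ ω, w.l.T.μ ω * min (V.v (s.fin k) (w.l.p.π ω) (w.g ω)) V.M -
      (w.l.T.pb (fun ω => ¬ sph s D k (w.l.p.π ω) (w.g ω) ≤ 2 ^ (η * (S.F k).n)) +
       w.l.T.pb (fun ω => ¬ sph s D k (w.l.p.π ω) (w.g' ω) ≤ 2 ^ (η * (S.F k).n))) / η -
      (w.l.leak (A k) + w.l.leak (B k)) / η / (S.F k).n :=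
  congrArg (fun z => z - (w.l.leak (A k) + w.l.leak (B k)) / η / (s.fin k).F.n) (fval2_wv V η (s.fin k) w)

/-- admissible labels with forms -/
theorem ev_le_gvl {η : ℝ} (h0 : 0 < η) {x : ∀ k, FD (S.F k) (Mon (q + 1) D)}
    (hA : (gau s D).Ad A B x) : ul (ev V s x) ≤ gvl V s A B η := by
  have hdm := Gau.Ad.dm (gau s D) hA
  have hbad : ∀ (g : ∀ k, (x k).l.T.Ω → Matrix (Mon (q + 1) D) (Mon (q + 1) D) ℝ)
      (_ : ∀ e : ℝ, 0 < e → ∀ᶠ k in UF, (x k).l.T.pb (fun ω => ¬ sph s D k ((x k).l.p.π ω) (g k ω) ≤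
        2 ^ (e * (S.F k).n)) ≤ e),
      Tendsto (fun k => (x k).l.T.pb (fun ω => ¬ sph s D k ((x k).l.p.π ω) (g k ω) ≤ 2 ^ (η * (S.F k).n))) UF (𝓝 0) := by
    intro g hg
    rw [Metric.tendsto_nhds]
    intro e he
    filter_upwards [hg (min η (e / 2)) (lt_min h0 (half_pos he))] with k hk
    rw [Real.dist_eq, sub_zero, abs_of_nonneg ((x k).l.T.pb_nonneg _)]
    have h2 : (x k).l.T.pb (fun ω => ¬ sph s D k ((x k).l.p.π ω) (g k ω) ≤ 2 ^ (η * (S.F k).n)) ≤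
        (x k).l.T.pb (fun ω => ¬ sph s D k ((x k).l.p.π ω) (g k ω) ≤ 2 ^ (min η (e / 2) * (S.F k).n)) := by
      apply FSp.pb_mono
      intro ω _ h3 h4
      apply h3
      refine h4.trans (Real.rpow_le_rpow_of_exponent_le (by norm_num) ?_)
      exact mul_le_mul_of_nonneg_right (min_le_left _ _) (S.F k).pos.le
    have h5 := min_le_right η (e / 2)
    linarith
  have t1 := hbad (fun k => (x k).g) fun e he => (hA e he).mono fun k hk => hk.2.2.2.1
  have t2 := hbad (fun k => (x k).g') fun e he => (hA e he).mono fun k hk => hk.2.2.2.2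
  have t3 := ul_tendsto (ev_UB V s hA)
  have t4 : Tendsto (fun k => ev V s x k -
      ((x k).l.T.pb (fun ω => ¬ sph s D k ((x k).l.p.π ω) ((x k).g ω) ≤ 2 ^ (η * (S.F k).n)) +
       (x k).l.T.pb (fun ω => ¬ sph s D k ((x k).l.p.π ω) ((x k).g' ω) ≤ 2 ^ (η * (S.F k).n))) / η -
      ((x k).l.leak (A k) / (S.F k).n + (x k).l.leak (B k) / (S.F k).n) / η) UF
      (𝓝 (ul (ev V s x) - (0 + 0) / η - (0 + 0) / η)) :=
    (t3.sub ((t1.add t2).div_const η)).sub
      ((Filter.Tendsto.add (show Tendsto _ _ _ from hdm.1) (show Tendsto _ _ _ from hdm.2)).div_const η)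
  rw [add_zero, zero_div, sub_zero, sub_zero] at t4
  refine le_of_tendsto_of_tendsto t4 (ul_tendsto (gvo_UB V s A B h0)) ?_
  filter_upwards [V.le S s, hA 1 one_pos] with k h1 h2
  have hn := (S.F k).pos
  have hcap : capd D (s.fin k) (x k) := fun ω hω => h2.2.2.1 ω hω
  refine le_trans (le_of_eq ?_) (gvv_le_gvo V h0 (s.fin k) (A k) (B k) hcap)
  have e2 : ∑ ω, (x k).l.T.μ ω * min (V.v (s.fin k) ((x k).l.p.π ω) ((x k).g ω)) V.M = ev V s x k := by
    refine Finset.sum_congr rfl fun ω _ => ?_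
    by_cases h0 : (x k).l.T.μ ω = 0
    · rw [h0, zero_mul, zero_mul]
    · congr 1
      exact min_eq_left (h1 _ ((x k).l.p.supp ω h0) _ (h2.2.2.1 ω h0).1)
  refine Eq.trans ?_ (gvv_sys V s A B η k (x k)).symm
  rw [e2]
  have e3 : ∀ a b c n : ℝ, (a / n + b / n) / c = (a + b) / c / n := fun a b c n => by ring
  exact congrArg (fun z => ev V s x k -
    ((x k).l.T.pb (fun ω => ¬ sph s D k ((x k).l.p.π ω) ((x k).g ω) ≤ 2 ^ (η * (S.F k).n)) +
     (x k).l.T.pb (fun ω => ¬ sph s D k ((x k).l.p.π ω) ((x k).g' ω) ≤ 2 ^ (η * (S.F k).n))) / η - z)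
    (e3 ((x k).l.leak (A k)) ((x k).l.leak (B k)) η (S.F k).n)

theorem gvl_nonneg {η : ℝ} (h0 : 0 < η) : 0 ≤ gvl V s A B η := by
  have hA := (gau s D).triv_Ad A B
  exact (const_le_ul (ev_UB V s hA) ((ev_bounds V s hA).mono fun _ h => h.1)).trans (ev_le_gvl V s A B h0 hA)

/-- labels with forms of large penalised value are admissible -/
theorem adm_of_gvv {η η' v : ℝ} (h0 : 0 < η) (hη : η * (V.M + 1) ≤ η') (hη' : η ≤ η')
    (hv : -1 ≤ v) {k : ℕ} {w : FD (S.F k) (Mon (q + 1) D)} (hcap : capd D (s.fin k) w)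
    (h1 : v ≤ gvv V η (s.fin k) (A k) (B k) w) :
    (gau s D).Adm A B η' k w ∧ v ≤ ∑ ω, w.l.T.μ ω * V.v (s.fin k) (w.l.p.π ω) (w.g ω) := by
  rw [gvv_sys] at h1
  have hn := (S.F k).pos
  have hm1 : ∑ ω, w.l.T.μ ω * min (V.v (s.fin k) (w.l.p.π ω) (w.g ω)) V.M ≤ V.M :=
    sum_mul_le (F := w.l.T) _ _ fun ω _ => min_le_right _ _
  have hm2 : ∑ ω, w.l.T.μ ω * min (V.v (s.fin k) (w.l.p.π ω) (w.g ω)) V.M ≤
      ∑ ω, w.l.T.μ ω * V.v (s.fin k) (w.l.p.π ω) (w.g ω) :=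
    Finset.sum_le_sum fun ω _ => mul_le_mul_of_nonneg_left (min_le_left _ _) (w.l.T.nn ω)
  have ha := w.l.leak_nonneg (A k)
  have hb := w.l.leak_nonneg (B k)
  have kb : ∀ g : w.l.T.Ω → Matrix (Mon (q + 1) D) (Mon (q + 1) D) ℝ,
      w.l.T.pb (fun ω => ¬ (gau s D).φ k (w.l.p.π ω) (g ω) ≤ 2 ^ (η' * (S.F k).n)) ≤
      w.l.T.pb (fun ω => ¬ sph s D k (w.l.p.π ω) (g ω) ≤ 2 ^ (η * (S.F k).n)) := by
    intro g
    apply FSp.pb_mono
    intro ω _ h4 h5
    apply h4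
    have h6 : (gau s D).φ k (w.l.p.π ω) (g ω) ≤ 2 ^ (η * (S.F k).n) := h5
    refine h6.trans (Real.rpow_le_rpow_of_exponent_le (by norm_num) ?_)
    exact mul_le_mul_of_nonneg_right hη' hn.le
  have kb1 := kb w.g
  have kb2 := kb w.g'
  have hb10 : 0 ≤ w.l.T.pb (fun ω => ¬ sph s D k (w.l.p.π ω) (w.g ω) ≤ 2 ^ (η * (S.F k).n)) := w.l.T.pb_nonneg _
  have hb20 : 0 ≤ w.l.T.pb (fun ω => ¬ sph s D k (w.l.p.π ω) (w.g' ω) ≤ 2 ^ (η * (S.F k).n)) := w.l.T.pb_nonneg _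
  generalize w.l.T.pb (fun ω => ¬ sph s D k (w.l.p.π ω) (w.g ω) ≤ 2 ^ (η * (S.F k).n)) = b1 at h1 kb1 hb10
  generalize w.l.T.pb (fun ω => ¬ sph s D k (w.l.p.π ω) (w.g' ω) ≤ 2 ^ (η * (S.F k).n)) = b2 at h1 kb2 hb20
  generalize ∑ ω, w.l.T.μ ω * min (V.v (s.fin k) (w.l.p.π ω) (w.g ω)) V.M = M1 at h1 hm1 hm2
  have hl0 : 0 ≤ (w.l.leak (A k) + w.l.leak (B k)) / η / (S.F k).n := by positivity
  have hb0 : 0 ≤ (b1 + b2) / η := by positivity
  have k1 : (b1 + b2) / η ≤ V.M + 1 := by linarith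
  have k2 : (w.l.leak (A k) + w.l.leak (B k)) / η / (S.F k).n ≤ V.M + 1 := by linarith
  rw [div_le_iff₀ h0] at k1
  rw [div_div, div_le_iff₀ (by positivity)] at k2
  have k4 : (V.M + 1) * (η * (S.F k).n) ≤ η' * (S.F k).n := by
    have := mul_le_mul_of_nonneg_right hη hn.le
    linarith
  have c1 : w.l.leak (A k) ≤ η' * (S.F k).n := by linarith
  have c2 : w.l.leak (B k) ≤ η' * (S.F k).n := by linarith
  exact ⟨⟨c1, c2, fun ω hω => hcap ω hω, by linarith, by linarith⟩, by linarith⟩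

/-- THE VALUE -/
def gvf : ℝ := ⨅ j : ℕ, gvl V s A B (1 / ((j : ℝ) + 1))

theorem gvf_bdd : BddBelow (Set.range fun j : ℕ => gvl V s A B (1 / ((j : ℝ) + 1))) :=
  ⟨0, by rintro r ⟨j, rfl⟩; exact gvl_nonneg V s A B (inv_pos_j j)⟩

theorem gvf_nonneg : 0 ≤ gvf V s A B := le_ciInf fun j => gvl_nonneg V s A B (inv_pos_j j)

theorem gvf_le_gvl {η : ℝ} (h0 : 0 < η) : gvf V s A B ≤ gvl V s A B η := by
  obtain ⟨j, hj⟩ := exists_index h0
  exact (ciInf_le (gvf_bdd V s A B) j).trans (gvl_mono V s A B (inv_pos_j j) hj)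

theorem gvf_le : gvf V s A B ≤ V.M := (gvf_le_gvl V s A B one_pos).trans (gvl_le V s A B one_pos)

theorem gvf_tendsto : Tendsto (fun j : ℕ => gvl V s A B (1 / ((j : ℝ) + 1))) atTop (𝓝 (gvf V s A B)) := by
  apply tendsto_atTop_ciInf _ (gvf_bdd V s A B)
  intro i j hij
  apply gvl_mono V s A B (inv_pos_j j)
  apply one_div_le_one_div_of_le (by positivity)
  have : (i : ℝ) ≤ j := by exact_mod_cast hij
  linarith

/-- values of admissible labels -/
theorem ev_le_gvf {x : ∀ k, FD (S.F k) (Mon (q + 1) D)} (hA : (gau s D).Ad A B x) :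
    ul (ev V s x) ≤ gvf V s A B := le_ciInf fun j => ev_le_gvl V s A B (inv_pos_j j) hA

/-- the value is attained -/
theorem gvf_attained : ∃ x : ∀ k, FD (S.F k) (Mon (q + 1) D), (gau s D).Ad A B x ∧
    ul (ev V s x) = gvf V s A B := by
  set η : ℕ → ℝ := fun j => 1 / (((j : ℝ) + 1) * (V.M + 1)) with hηd
  have hM := V.M0
  have hη0 : ∀ j, 0 < η j := fun j => by rw [hηd]; positivity
  have hηM : ∀ j, η j * (V.M + 1) ≤ 1 / ((j : ℝ) + 1) := fun j => by
    rw [hηd]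
    have h1 : (1 : ℝ) / (((j : ℝ) + 1) * (V.M + 1)) * (V.M + 1) = 1 / ((j : ℝ) + 1) := by
      field_simp
    rw [h1]
  have hηl : ∀ j, η j ≤ 1 / ((j : ℝ) + 1) := fun j => by
    rw [hηd]
    apply one_div_le_one_div_of_le (by positivity)
    have : (0 : ℝ) ≤ j := Nat.cast_nonneg j
    nlinarith
  have hf := gvf_nonneg V s A B
  have h1 : ∀ j : ℕ, ∃ y : ∀ k, FD (S.F k) (Mon (q + 1) D), ∀ᶠ k in UF, capd D (s.fin k) (y k) ∧
      gvf V s A B - 1 / ((j : ℝ) + 1) ≤ gvv V (η j) (s.fin k) (A k) (B k) (y k) := by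
    intro j
    have hpj := inv_pos_j j
    have h2 := eventually_gt_of_lt_ul (c := gvf V s A B - 1 / ((j : ℝ) + 1)) (gvo_UB V s A B (hη0 j))
      (lt_of_lt_of_le (by linarith) (gvf_le_gvl V s A B (hη0 j)))
    classical
    refine ⟨fun k => if hk : ∃ y : FD (S.F k) (Mon (q + 1) D), capd D (s.fin k) y ∧
      gvf V s A B - 1 / ((j : ℝ) + 1) ≤ gvv V (η j) (s.fin k) (A k) (B k) y then hk.choose else trivFD (S.F k), ?_⟩
    filter_upwards [h2] with k hk
    obtain ⟨r, ⟨y, hy, rfl⟩, hr⟩ := exists_lt_of_lt_csSup (gvs_ne _ _ _ _ _) hk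
    have hk' : ∃ y : FD (S.F k) (Mon (q + 1) D), capd D (s.fin k) y ∧
      gvf V s A B - 1 / ((j : ℝ) + 1) ≤ gvv V (η j) (s.fin k) (A k) (B k) y := ⟨y, hy, hr.le⟩
    rw [dif_pos hk']
    exact hk'.choose_spec
  choose y hy using h1
  obtain ⟨z, J, hJ, hzA, hz⟩ := (gau s D).diag A B y
    (fun j k w => gvf V s A B - 1 / ((j : ℝ) + 1) ≤ ∑ ω, w.l.T.μ ω * V.v (s.fin k) (w.l.p.π ω) (w.g ω)) (by
      intro j
      have h2 : (1 : ℝ) / ((j : ℝ) + 1) ≤ 1 := by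
        rw [div_le_one (by positivity)]
        have : (0 : ℝ) ≤ j := Nat.cast_nonneg j
        linarith
      filter_upwards [hy j] with k hk
      exact adm_of_gvv V s A B (hη0 j) (hηM j) (hηl j) (by linarith) hk.1 hk.2)
  refine ⟨z, hzA, le_antisymm (ev_le_gvf V s A B hzA) ?_⟩
  have t0 : Tendsto (fun k => gvf V s A B - 1 / ((J k : ℝ) + 1)) UF (𝓝 (gvf V s A B)) := by
    have := ((tendsto_one_div_add_atTop_nhds_zero_nat (𝕜 := ℝ)).comp hJ).const_sub (gvf V s A B)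
    rwa [sub_zero] at this
  refine le_of_tendsto_of_tendsto t0 (ul_tendsto (ev_UB V s hzA)) ?_
  filter_upwards [hz] with k hk using hk

end

/-! ### continuity and monotonicity in the informations -/

/-- labels with small leaks at `(A, B)` have small leaks at `(A', B')`, up to `a n` -/
theorem gvf_le_of {S : Sp} (s : Sys S q) (A B A' B' : Part S) {a : ℝ}
    (h : ∀ e : ℝ, 0 < e → ∀ᶠ k in UF, ∀ l : FLab (S.F k),
      l.leak (A' k) + l.leak (B' k) ≤ l.leak (A k) + l.leak (B k) + (a + e) * (S.F k).n) {η : ℝ} (h0 : 0 < η) :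
    gvl V s A B η ≤ gvl V s A' B' η + a / η := by
  apply le_of_forall_pos_le_add
  intro d hd
  have h1 := h (d * η) (by positivity)
  have t1 := (ul_tendsto (gvo_UB V s A' B' h0)).add_const ((a + d * η) / η)
  have h2 := le_of_tendsto_of_tendsto (ul_tendsto (gvo_UB V s A B h0)) t1 (by
    filter_upwards [h1] with k hk
    exact gvo_le_of V h0 (s.fin k) (A k) (B k) (A' k) (B' k) (a + d * η) hk)
  have e1 : (a + d * η) / η = a / η + d := by
    field_simp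
  rw [e1] at h2
  unfold gvl
  linarith

/-- the value is nondecreasing under inclusions of the labels -/
theorem gvf_mono {S : Sp} (s : Sys S q) {A B A' B' : Part S} (h : ∀ l : Lab S, l.DM A B → l.DM A' B') :
    gvf V s A B ≤ gvf V s A' B' := by
  obtain ⟨x, hx, h1⟩ := gvf_attained V s A B
  rw [← h1]
  apply ev_le_gvf V s A' B'
  have h2 : Lab.DM (fun k => (x k).l) A' B' := h _ (Gau.Ad.dm (gau s D) hx)
  intro η hη
  filter_upwards [hx η hη, h2.1.eventually (gt_mem_nhds hη), h2.2.eventually (gt_mem_nhds hη)] with k a b c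
  have hn := (S.F k).pos
  rw [div_lt_iff₀ hn] at b c
  exact ⟨b.le, c.le, a.2.2.1, a.2.2.2.1, a.2.2.2.2⟩

/-! ### events and extensions -/

section
variable {S T : Sp} (s : Sys S q) (A B : Part S) (p : Pj T S) (E : ∀ k, (T.F k).Ω → Prop)
  (hE : 0 < ul (T.pr E))

/-- superadditivity over events -/
theorem gvf_glue (hE' : 0 < ul (T.pr fun k ω => ¬ E k ω)) :
    ul (T.pr E) * gvf V (s.im p E hE) (A.im p E) (B.im p E) +
      (1 - ul (T.pr E)) * gvf V (s.im p (fun k ω => ¬ E k ω) hE') (A.im p fun k ω => ¬ E k ω) (B.im p fun k ω => ¬ E k ω) ≤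
      gvf V s A B := by
  have hP0 : 0 ≤ ul (T.pr E) := hE.le
  have hP1 : 0 ≤ 1 - ul (T.pr E) := by
    have : ul (T.pr E) ≤ 1 := ul_le_const (Sp.UB_pr E) (Eventually.of_forall fun k => (T.F k).pb_le_one _)
    linarith
  refine le_ciInf fun j => ?_
  have hj := inv_pos_j j
  have h1 := mul_le_mul_of_nonneg_left (gvf_le_gvl V (s.im p E hE) (A.im p E) (B.im p E) hj) hP0
  have h2 := mul_le_mul_of_nonneg_left (gvf_le_gvl V (s.im p (fun k ω => ¬ E k ω) hE') (A.im p fun k ω => ¬ E k ω)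
    (B.im p fun k ω => ¬ E k ω) hj) hP1
  refine (add_le_add h1 h2).trans ?_
  have t1 : Tendsto (fun k => T.pr E k * gvo V (1 / ((j : ℝ) + 1)) ((s.im p E hE).fin k) (A.im p E k)
        (B.im p E k) +
      (1 - T.pr E k) * gvo V (1 / ((j : ℝ) + 1)) ((s.im p (fun k ω => ¬ E k ω) hE').fin k) (A.im p (fun k ω => ¬ E k ω) k)
        (B.im p (fun k ω => ¬ E k ω) k)) UF
      (𝓝 (ul (T.pr E) * gvl V (s.im p E hE) (A.im p E) (B.im p E) (1 / ((j : ℝ) + 1)) +
        (1 - ul (T.pr E)) * gvl V (s.im p (fun k ω => ¬ E k ω) hE') (A.im p fun k ω => ¬ E k ω) (B.im p fun k ω => ¬ E k ω)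
          (1 / ((j : ℝ) + 1)))) :=
    ((ul_tendsto (Sp.UB_pr E)).mul (ul_tendsto (gvo_UB V _ _ _ hj))).add
      (((ul_tendsto (Sp.UB_pr E)).const_sub 1).mul (ul_tendsto (gvo_UB V _ _ _ hj)))
  have t2 := (ul_tendsto (gvo_UB V s A B hj)).add (S.div_n_tendsto (2 / (1 / ((j : ℝ) + 1))))
  rw [add_zero] at t2
  exact le_of_tendsto_of_tendsto t1 t2 (Eventually.of_forall fun k =>
    gvo_glue V hj (s.fin k) (A k) (B k) (T.F k) (p.fp k) (E k))

/-- subadditivity over events -/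
theorem gvf_split (hE' : 0 < ul (T.pr fun k ω => ¬ E k ω)) :
    gvf V s A B ≤ ul (T.pr E) * gvf V (s.im p E hE) (A.im p E) (B.im p E) +
      (1 - ul (T.pr E)) * gvf V (s.im p (fun k ω => ¬ E k ω) hE') (A.im p fun k ω => ¬ E k ω) (B.im p fun k ω => ¬ E k ω) := by
  have t := ((gvf_tendsto V (s.im p E hE) (A.im p E) (B.im p E)).const_mul (ul (T.pr E))).add
    ((gvf_tendsto V (s.im p (fun k ω => ¬ E k ω) hE') (A.im p fun k ω => ¬ E k ω) (B.im p fun k ω => ¬ E k ω)).const_mul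
      (1 - ul (T.pr E)))
  refine ge_of_tendsto' t fun j => ?_
  have hj : (0 : ℝ) < 1 / ((j : ℝ) + 1) / 2 := by positivity
  have e2 : 2 * ((1 : ℝ) / ((j : ℝ) + 1) / 2) = 1 / ((j : ℝ) + 1) := by ring
  refine (gvf_le_gvl V s A B hj).trans ?_
  have hq0 := inv_pos_j j
  have t1 : Tendsto (fun k => T.pr E k * gvo V (1 / ((j : ℝ) + 1)) ((s.im p E hE).fin k) (A.im p E k)
        (B.im p E k) +
      (1 - T.pr E k) * gvo V (1 / ((j : ℝ) + 1)) ((s.im p (fun k ω => ¬ E k ω) hE').fin k) (A.im p (fun k ω => ¬ E k ω) k)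
        (B.im p (fun k ω => ¬ E k ω) k) + (2 / (1 / ((j : ℝ) + 1) / 2)) / (S.F k).n) UF
      (𝓝 (ul (T.pr E) * gvl V (s.im p E hE) (A.im p E) (B.im p E) (1 / ((j : ℝ) + 1)) +
        (1 - ul (T.pr E)) * gvl V (s.im p (fun k ω => ¬ E k ω) hE') (A.im p fun k ω => ¬ E k ω) (B.im p fun k ω => ¬ E k ω)
          (1 / ((j : ℝ) + 1)) + 0)) :=
    (((ul_tendsto (Sp.UB_pr E)).mul (ul_tendsto (gvo_UB V _ _ _ hq0))).add
      (((ul_tendsto (Sp.UB_pr E)).const_sub 1).mul (ul_tendsto (gvo_UB V _ _ _ hq0)))).add (S.div_n_tendsto _)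
  rw [add_zero] at t1
  refine le_of_tendsto_of_tendsto (ul_tendsto (gvo_UB V s A B hj)) t1 (Eventually.of_forall fun k => ?_)
  have h1 := gvo_split V hj (s.fin k) (A k) (B k) (T.F k) (p.fp k) (p.hn k) (E k)
  rw [e2] at h1
  exact h1

/-- ADDITIVITY OVER EVENTS -/
theorem gvf_add (hE' : 0 < ul (T.pr fun k ω => ¬ E k ω)) :
    gvf V s A B = ul (T.pr E) * gvf V (s.im p E hE) (A.im p E) (B.im p E) +
      (1 - ul (T.pr E)) * gvf V (s.im p (fun k ω => ¬ E k ω) hE') (A.im p fun k ω => ¬ E k ω) (B.im p fun k ω => ¬ E k ω) :=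
  le_antisymm (gvf_split V s A B p E hE hE') (gvf_glue V s A B p E hE hE')

/-- typical events -/
theorem gvf_typ (ht : Typ E) : gvf V s A B ≤ gvf V (s.im p E hE) (A.im p E) (B.im p E) := by
  refine ge_of_tendsto' (gvf_tendsto V (s.im p E hE) (A.im p E) (B.im p E)) fun j => ?_
  have hj : (0 : ℝ) < 1 / ((j : ℝ) + 1) / 2 := by positivity
  have e2 : 2 * ((1 : ℝ) / ((j : ℝ) + 1) / 2) = 1 / ((j : ℝ) + 1) := by ring
  refine (gvf_le_gvl V s A B hj).trans ?_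
  have hq0 := inv_pos_j j
  have tp := (Typ_iff E).mp ht
  have t1 : Tendsto (fun k => T.pr E k * gvo V (1 / ((j : ℝ) + 1)) ((s.im p E hE).fin k) (A.im p E k)
        (B.im p E k) + (1 - T.pr E k) * V.M + (2 / (1 / ((j : ℝ) + 1) / 2)) / (S.F k).n) UF
      (𝓝 (1 * gvl V (s.im p E hE) (A.im p E) (B.im p E) (1 / ((j : ℝ) + 1)) + (1 - 1) * V.M + 0)) :=
    ((tp.mul (ul_tendsto (gvo_UB V _ _ _ hq0))).add ((tp.const_sub 1).mul_const V.M)).add (S.div_n_tendsto _)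
  rw [add_zero, sub_self, zero_mul, add_zero, one_mul] at t1
  refine le_of_tendsto_of_tendsto (ul_tendsto (gvo_UB V s A B hj)) t1 (Eventually.of_forall fun k => ?_)
  have h1 := gvo_split V hj (s.fin k) (A k) (B k) (T.F k) (p.fp k) (p.hn k) (E k)
  rw [e2] at h1
  refine h1.trans ?_
  have h2 : (1 - (T.F k).pb (E k)) * gvo V (1 / ((j : ℝ) + 1)) (imf (s.fin k) (p.fp k) (fun ω => ¬ E k ω))
      (FSp.imap (p.fp k) (fun ω => ¬ E k ω) (A k)) (FSp.imap (p.fp k) (fun ω => ¬ E k ω) (B k)) ≤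
      (1 - (T.F k).pb (E k)) * V.M :=
    mul_le_mul_of_nonneg_left (gvo_le V hq0 _ _ _) (sub_nonneg.mpr ((T.F k).pb_le_one _))
  have h3 := add_le_add_right h2 ((T.F k).pb (E k) * gvo V (1 / ((j : ℝ) + 1)) (imf (s.fin k) (p.fp k) (E k))
    (FSp.imap (p.fp k) (E k) (A k)) (FSp.imap (p.fp k) (E k) (B k)))
  exact add_le_add_left h3 _

/-- extensions -/
theorem gvf_pull : gvf V (s.pull p) (A.pull p) (B.pull p) = gvf V s A B := by
  have h1 : ∀ j : ℕ, gvl V (s.pull p) (A.pull p) (B.pull p)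
      (1 / ((j : ℝ) + 1)) = gvl V s A B (1 / ((j : ℝ) + 1)) := by
    intro j
    unfold gvl
    congr 1
    funext k
    exact gvo_plf V (s.fin k) (A k) (B k) (p.fp k) (p.hn k) (inv_pos_j j)
  unfold gvf
  exact congrArg iInf (funext h1)

end

end

end Pool.Agent.Helper52.SL
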