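import Pool.Agent.Helper52.SL.Stage

/-! THE LAGRANGIAN TRICK. Superadditive functionals `f_j ≥ 0`, lower semicontinuous along diagonals: the systems which
minimise `Σ λ_j f_j` form a class closed under diagonals and restrictions to events of extensions. So upper bounds for
`Σ λ_j f_j` at one system are inherited by a whole class. -/

set_option autoImplicit false

namespace Pool.Agent.Helper52.SL

open Finset Filter Topology Pool.Agent.Helper69.RK Pool.Agent.Helper31.EC Pool.Agent.Helper31.EC.Sp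
open Pool.Agent.Helper40.EL Pool.Agent.Helper42.NS Pool.Agent.Helper52.KP

noncomputable section

variable {m : ℕ}

/-- lower semicontinuity along diagonals -/
def DiagLsc (f : ∀ S : Sp, Sys S m → ℝ) : Prop :=
  ∀ (S : ℕ → Sp) (s : ∀ j, Sys (S j) m),
    ∃ E : ℕ → ℕ → ℕ → Prop, (∀ i j, ∀ᶠ k in UF, E i j k) ∧
      ∀ (T : Sp) (u : Sys T m) (J : ℕ → ℕ), IsDiag S s E u J →
        ∀ M : ℝ, (∀ k, f (S (J k)) (s (J k)) ≤ M) → f T u ≤ ul (fun k => f (S (J k)) (s (J k)))

/-- superadditive functionals -/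
structure SFn (m : ℕ) where
  f : ∀ S : Sp, Sys S m → ℝ
  nn : ∀ S s, 0 ≤ f S s
  lsc : DiagLsc f
  spl : ∀ (S : Sp) (s : Sys S m) (T : Sp) (p : Pj T S) (E : ∀ k, (T.F k).Ω → Prop) (hE : 0 < ul (T.pr E))
    (hE' : 0 < ul (T.pr fun k ω => ¬ E k ω)),
    ul (T.pr E) * f _ (s.im p E hE) + (1 - ul (T.pr E)) * f _ (s.im p (fun k ω => ¬ E k ω) hE') ≤ f S s
  typ : ∀ (S : Sp) (s : Sys S m) (T : Sp) (p : Pj T S) (E : ∀ k, (T.F k).Ω → Prop) (hE : 0 < ul (T.pr E)),
    Typ E → f _ (s.im p E hE) ≤ f S s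

/-- partial sums -/
def psm (f : ℕ → SFn m) (la : ℕ → ℝ) (N : ℕ) {S : Sp} (s : Sys S m) : ℝ := ∑ j ∈ Finset.range N, la j * (f j).f S s

section
variable {f : ℕ → SFn m} {la : ℕ → ℝ}

theorem psm_mono (hla : ∀ j, 0 ≤ la j) {N N' : ℕ} (h : N ≤ N') {S : Sp} (s : Sys S m) : psm f la N s ≤ psm f la N' s :=
  Finset.sum_le_sum_of_subset_of_nonneg (Finset.range_mono h) fun j _ _ => mul_nonneg (hla j) ((f j).nn S s)

theorem psm_nn (hla : ∀ j, 0 ≤ la j) (N : ℕ) {S : Sp} (s : Sys S m) : 0 ≤ psm f la N s :=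
  Finset.sum_nonneg fun j _ => mul_nonneg (hla j) ((f j).nn S s)

theorem psm_spl (hla : ∀ j, 0 ≤ la j) (N : ℕ) {S : Sp} (s : Sys S m) {T : Sp} (p : Pj T S)
    (E : ∀ k, (T.F k).Ω → Prop) (hE : 0 < ul (T.pr E)) (hE' : 0 < ul (T.pr fun k ω => ¬ E k ω)) :
    ul (T.pr E) * psm f la N (s.im p E hE) + (1 - ul (T.pr E)) * psm f la N (s.im p (fun k ω => ¬ E k ω) hE') ≤
      psm f la N s := by
  unfold psm
  rw [Finset.mul_sum, Finset.mul_sum, ← Finset.sum_add_distrib]
  refine Finset.sum_le_sum fun j _ => ?_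
  have h1 := mul_le_mul_of_nonneg_left ((f j).spl S s T p E hE hE') (hla j)
  linarith

theorem psm_typ (hla : ∀ j, 0 ≤ la j) (N : ℕ) {S : Sp} (s : Sys S m) {T : Sp} (p : Pj T S)
    (E : ∀ k, (T.F k).Ω → Prop) (hE : 0 < ul (T.pr E)) (ht : Typ E) :
    psm f la N (s.im p E hE) ≤ psm f la N s :=
  Finset.sum_le_sum fun j _ => mul_le_mul_of_nonneg_left ((f j).typ S s T p E hE ht) (hla j)

/-- each term is bounded by the sum -/
theorem le_psm (hla : ∀ j, 0 ≤ la j) {S : Sp} (s : Sys S m) {B : ℝ} (h : ∀ N, psm f la N s ≤ B) (j : ℕ) :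
    la j * (f j).f S s ≤ B := by
  refine le_trans ?_ (h (j + 1))
  exact Finset.single_le_sum (f := fun j => la j * (f j).f S s) (fun j _ => mul_nonneg (hla j) ((f j).nn S s))
    (Finset.mem_range.mpr (Nat.lt_succ_self j))

/-- a diagonal of systems with bounded sums -/
theorem psm_diag (hla : ∀ j, 0 < la j) (S : ℕ → Sp) (s : ∀ j, Sys (S j) m) (B : ℕ → ℝ) (M : ℝ) (hM : ∀ j, B j ≤ M)
    (hB : ∀ j N, psm f la N (s j) ≤ B j) :
    ∃ E : ℕ → ℕ → ℕ → Prop, (∀ i j, ∀ᶠ k in UF, E i j k) ∧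
      ∀ (T : Sp) (u : Sys T m) (J : ℕ → ℕ), IsDiag S s E u J → ∀ N, psm f la N u ≤ ul (fun k => B (J k)) := by
  have hla' : ∀ j, 0 ≤ la j := fun j => (hla j).le
  choose E hE h1 using fun q => (f q).lsc S s
  refine ⟨fun i j k => E (Nat.unpair i).1 (Nat.unpair i).2 j k, fun i j => hE _ _ j, fun T u J hd N => ?_⟩
  have hq : ∀ q, IsDiag S s (E q) u J := fun q => ⟨hd.tend, hd.fin, fun i => by
    have h2 := hd.slow (Nat.pair q i)
    simp only [Nat.unpair_pair] at h2
    exact h2⟩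
  have hub : ∀ q k, (f q).f (S (J k)) (s (J k)) ≤ M / la q := by
    intro q k
    rw [le_div_iff₀ (hla q), mul_comm]
    exact (le_psm hla' (s (J k)) (hB (J k)) q).trans (hM _)
  have hU : ∀ q, UB (fun k => (f q).f (S (J k)) (s (J k))) := fun q =>
    UB_of_nonneg_le (Eventually.of_forall fun k => (f q).nn _ _) (Eventually.of_forall fun k => hub q k)
  have hUB : UB (fun k => B (J k)) :=
    UB_of_nonneg_le (Eventually.of_forall fun k => (psm_nn hla' 0 (s (J k))).trans (hB (J k) 0))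
      (Eventually.of_forall fun k => hM _)
  have t1 : Tendsto (fun k => psm f la N (s (J k))) UF
      (𝓝 (∑ q ∈ Finset.range N, la q * ul (fun k => (f q).f (S (J k)) (s (J k))))) := by
    unfold psm
    exact tendsto_finsetSum _ fun q _ => (ul_tendsto (hU q)).const_mul (la q)
  have h3 : ∑ q ∈ Finset.range N, la q * ul (fun k => (f q).f (S (J k)) (s (J k))) ≤ ul (fun k => B (J k)) :=
    le_of_tendsto_of_tendsto t1 (ul_tendsto hUB) (Eventually.of_forall fun k => hB (J k) N)
  refine le_trans (Finset.sum_le_sum fun q _ => ?_) h3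
  exact mul_le_mul_of_nonneg_left (h1 q T u J (hq q) (M / la q) fun k => hub q k) (hla' q)

/-- THE CLASS OF MINIMISERS -/
theorem exists_min (hla : ∀ j, 0 < la j) {S0 : Sp} (s0 : Sys S0 m) {B : ℝ} (h0 : ∀ N, psm f la N s0 ≤ B) :
    ∃ B0 : ℝ, B0 ≤ B ∧ Cls (fun (S : Sp) (s : Sys S m) => ∀ N, psm f la N s ≤ B0) := by
  have hla' : ∀ j, 0 ≤ la j := fun j => (hla j).le
  set V : Set ℝ := {r | ∃ (S : Sp) (s : Sys S m), ∀ N, psm f la N s ≤ r} with hV
  have hVb : BddBelow V := ⟨0, by rintro r ⟨S, s, h⟩; exact (psm_nn hla' 0 s).trans (h 0)⟩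
  have hVn : V.Nonempty := ⟨B, S0, s0, h0⟩
  have hmin : ∀ (S : Sp) (s : Sys S m) (r : ℝ), (∀ N, psm f la N s ≤ r) → sInf V ≤ r :=
    fun S s r h => csInf_le hVb ⟨S, s, h⟩
  refine ⟨sInf V, csInf_le hVb ⟨S0, s0, h0⟩, ?_, ?_, ?_⟩
  · -- diagonals
    intro S s hs
    obtain ⟨E, hE, h1⟩ := psm_diag hla S s (fun _ => sInf V) (sInf V) (fun _ => le_rfl) hs
    refine ⟨E, hE, fun T u J hd N => ?_⟩
    have := h1 T u J hd N
    rwa [ul_const] at this
  · -- restrictions
    intro S s hs T p E hE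
    rcases typ_or E with ht | hE'
    · exact fun N => (psm_typ hla' N s p E hE ht).trans (hs N)
    · intro N
      apply le_of_forall_pos_le_add
      intro e he
      set P := ul (T.pr E) with hP
      have hP1 : P ≤ 1 := ul_pr_le_one E
      -- the other part has nearly the minimal value
      obtain ⟨N1, hN1⟩ : ∃ N1, sInf V - e * P ≤ psm f la N1 (s.im p (fun k ω => ¬ E k ω) hE') := by
        by_contra hc
        push Not at hc
        have := hmin _ _ _ fun N => (hc N).le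
        have := mul_pos he hE
        linarith
      have h2 := psm_spl (f := f) hla' (max N N1) s p E hE hE'
      have h3 := psm_mono (f := f) hla' (le_max_left N N1) (s.im p E hE)
      have h4 := psm_mono (f := f) hla' (le_max_right N N1) (s.im p (fun k ω => ¬ E k ω) hE')
      have h5 := hs (max N N1)
      have h6 : P * psm f la N (s.im p E hE) ≤ P * (sInf V + e) := by
        have a1 := mul_le_mul_of_nonneg_left h3 hE.le
        have a2 := mul_le_mul_of_nonneg_left (hN1.trans h4) (sub_nonneg.mpr hP1)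
        have a3 : (1 - P) * (e * P) ≤ 1 * (e * P) :=
          mul_le_mul_of_nonneg_right (by linarith) (mul_pos he hE).le
        have a4 : (1 - P) * (sInf V - e * P) = sInf V - P * sInf V - (1 - P) * (e * P) := by ring
        rw [a4] at a2
        have a5 : P * (sInf V + e) = P * sInf V + e * P := by ring
        rw [a5]
        linarith
      exact le_of_mul_le_mul_left h6 hE
  · -- existence
    have h2 : ∀ j : ℕ, ∃ r ∈ V, r < sInf V + 1 / ((j : ℝ) + 1) := by
      intro j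
      apply exists_lt_of_csInf_lt hVn
      have : (0 : ℝ) < 1 / ((j : ℝ) + 1) := by positivity
      linarith
    choose r hr hr' using h2
    choose S s hs using hr
    have hM : ∀ j, r j ≤ sInf V + 1 := by
      intro j
      refine (hr' j).le.trans ?_
      have : (1 : ℝ) / ((j : ℝ) + 1) ≤ 1 := by
        rw [div_le_one (by positivity)]
        have : (0 : ℝ) ≤ j := Nat.cast_nonneg j
        linarith
      linarith
    obtain ⟨E, hE, h1⟩ := psm_diag hla S s r (sInf V + 1) hM (fun j N => hs j N)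
    obtain ⟨T, u, J, hd⟩ := exists_isDiag S s E hE
    refine ⟨T, u, fun N => (h1 T u J hd N).trans (le_of_eq ?_)⟩
    apply ul_eq
    have t0 : Tendsto (fun k => sInf V + 1 / ((J k : ℝ) + 1)) UF (𝓝 (sInf V)) := by
      have := (tendsto_one_div_add_atTop_nhds_zero_nat (𝕜 := ℝ)).comp hd.tend
      have h3 := this.const_add (sInf V)
      rwa [add_zero] at h3
    exact tendsto_of_tendsto_of_tendsto_of_le_of_le tendsto_const_nhds t0
      (fun k => csInf_le hVb ⟨S (J k), s (J k), hs (J k)⟩) (fun k => (hr' (J k)).le)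

end

end

end Pool.Agent.Helper52.SL
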