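import Pool.Agent.Helper52.SL.Glv
import Pool.Agent.Helper42.NS.Obp
import Pool.Agent.Helper3.SG.Eta

/-! Forms on the space of a factor `s'` of a system `s` carried by labels of the windows of `s`: the logarithmic volume
determinant `lvolP s s' D c` of the canonical form; optimality, monotonicity, right continuity in the window, additivity
over events, extensions; for fixed linear projections it is a functional in the sense of helper42. -/

set_option autoImplicit false

namespace Pool.Agent.Helper52.SL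

open Finset Filter Topology Matrix Pool.Agent.Helper69.RK Pool.Agent.Helper31.EC Pool.Agent.Helper31.EC.Sp
open Pool.Agent.Helper40.EL Pool.Agent.Helper42.NS Pool.Agent.Helper52.KP
open Pool.Agent.Helper95.LF Pool.Agent.Helper3.LF Pool.Agent.Helper48.NS Pool.Agent.Helper89.LX
open Pool.Agent.Helper3.PR Pool.Agent.Helper59.EV Pool.Agent.Helper3.SG

noncomputable section

variable {m q D : ℕ}

/-! ### the value of the volume is the volume of optimal forms -/

/-- the volume of optimal forms, any two informations -/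
theorem gvf_vol {S : Sp} (s' : Sys S q) {A B : Part S} {x : ∀ k, FD (S.F k) (Mon (q + 1) D)}
    (hx : (gau s' D).Opt A B x) : gvf (FV.vol q D) s' A B = ul (fun k => lgd s' D x k / (S.F k).n) / 2 := by
  apply le_antisymm
  · obtain ⟨y, hy, h1⟩ := gvf_attained (FV.vol q D) s' A B
    rw [← h1, funext (ev_vol s' y), ul_eq ((ul_tendsto (lgd_UB s' hy)).div_const 2)]
    have h2 := lgd_le_opt s' hx hy
    linarith
  · have h1 := ev_le_gvf (FV.vol q D) s' A B hx.1
    rw [funext (ev_vol s' x), ul_eq ((ul_tendsto (lgd_UB s' hx.1)).div_const 2)] at h1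
    exact h1

/-- the volume of admissible forms -/
theorem lgd_le_gvf {S : Sp} (s' : Sys S q) {A B : Part S} {x : ∀ k, FD (S.F k) (Mon (q + 1) D)}
    (hx : (gau s' D).Ad A B x) : ul (fun k => lgd s' D x k / (S.F k).n) ≤ 2 * gvf (FV.vol q D) s' A B := by
  have h1 := ev_le_gvf (FV.vol q D) s' A B hx
  rw [funext (ev_vol s' x), ul_eq ((ul_tendsto (lgd_UB s' hx)).div_const 2)] at h1
  linarith

/-- the score of optimal forms, any two informations -/
theorem gvf_det {S : Sp} (s' : Sys S q) {A B : Part S} {x : ∀ k, FD (S.F k) (Mon (q + 1) D)}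
    (hx : (gau s' D).Opt A B x) : gvf (FV.det q D) s' A B = ul (fun k => (x k).sc / (S.F k).n) := by
  apply le_antisymm
  · obtain ⟨y, hy, h1⟩ := gvf_attained (FV.det q D) s' A B
    rw [← h1, funext (ev_det s' y)]
    exact hx.2 y hy
  · have h1 := ev_le_gvf (FV.det q D) s' A B hx.1
    rwa [funext (ev_det s' x)] at h1

/-! ### the volume of the labels of a window of the big system -/

section
variable {S : Sp} (s : Sys S m) (s' : Sys S q)

/-- the logarithmic volume determinant (exponent) of the canonical form on the space of `s'` carried by labels of the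
window `c` of `s` -/
def lvolP (D : ℕ) (c : ℝ) : ℝ := 2 * gvf (FV.vol q D) s' (cA s c) (cB s)

theorem lvolP_eq {c : ℝ} {x : ∀ k, FD (S.F k) (Mon (q + 1) D)} (hx : (gau s' D).Opt (cA s c) (cB s) x) :
    ul (fun k => lgd s' D x k / (S.F k).n) = lvolP s s' D c := by
  unfold lvolP
  rw [gvf_vol s' hx]
  ring

theorem lvolP_can {c : ℝ} {x : ∀ k, FD (S.F k) (Mon (q + 1) D)} (hx : IsCanP s s' D c x) :
    ul (fun k => lgd s' D x k / (S.F k).n) = lvolP s s' D c := lvolP_eq s s' hx.1

theorem lgd_le_lvolP {c : ℝ} {x : ∀ k, FD (S.F k) (Mon (q + 1) D)} (hx : (gau s' D).Ad (cA s c) (cB s) x) :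
    ul (fun k => lgd s' D x k / (S.F k).n) ≤ lvolP s s' D c := lgd_le_gvf s' hx

theorem lvolP_self (s : Sys S m) (c : ℝ) : lvolP s s D c = lvol s D c := by
  obtain ⟨x, hx⟩ := exists_can s D c
  rw [← lvolP_eq s s hx.1, lvol_eq s hx.1]

theorem lvolP_nonneg (c : ℝ) : 0 ≤ lvolP s s' D c := by
  have := gvf_nonneg (FV.vol q D) s' (cA s c) (cB s)
  unfold lvolP
  linarith

theorem lvolP_le (c : ℝ) : lvolP s s' D c ≤ 2 * vM q D := by
  have := gvf_le (FV.vol q D) s' (cA s c) (cB s)
  unfold lvolP
  exact mul_le_mul_of_nonneg_left this (by norm_num)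

variable {s s'}

/-- a factor of the window: the labels of the factor are among the labels of the system -/
theorem lvol_le_lvolP (h : Fac s s') (c : ℝ) : lvol s' D c ≤ lvolP s s' D c := by
  rw [← lvolP_self s' c]
  unfold lvolP
  have := gvf_mono (FV.vol q D) s' (A := cA s' c) (B := cB s') (A' := cA s c) (B' := cB s) (fun l hl => h.DMc hl)
  linarith

/-- factors of factors: bigger systems have more labels -/
theorem lvolP_fac {p : ℕ} {s₁ : Sys S p} (h : Fac s₁ s) (s' : Sys S q) (c : ℝ) :
    lvolP s s' D c ≤ lvolP s₁ s' D c := by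
  unfold lvolP
  have := gvf_mono (FV.vol q D) s' (A := cA s c) (B := cB s) (A' := cA s₁ c) (B' := cB s₁) (fun l hl => h.DMc hl)
  linarith

end

/-! ### the window -/

section
variable (V : FV q D) {S : Sp} (s : Sys S m) (s' : Sys S q)

theorem gvf_window_mono {c c' : ℝ} (h : c ≤ c') : gvf V s' (cA s c) (cB s) ≤ gvf V s' (cA s c') (cB s) :=
  gvf_mono V s' fun _ hl => DMc.mono h hl

theorem gvl_window {c c' : ℝ} (h : c ≤ c') {η : ℝ} (h0 : 0 < η) :
    gvl V s' (cA s c') (cB s) η ≤ gvl V s' (cA s c) (cB s) η + (c' - c) / η := by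
  apply gvf_le_of V s' (cA s c') (cB s) (cA s c) (cB s) (a := c' - c) _ h0
  intro e he
  filter_upwards [leak_window s h e he] with k hk l
  have := hk l
  linarith

/-- RIGHT CONTINUITY of the values in the window -/
theorem gvf_right {c v : ℝ} (h : ∀ c', c < c' → v ≤ gvf V s' (cA s c') (cB s)) : v ≤ gvf V s' (cA s c) (cB s) := by
  refine le_ciInf fun j => ?_
  have hj := inv_pos_j j
  apply le_of_forall_pos_le_add
  intro e he
  have h1 := h (c + e * (1 / ((j : ℝ) + 1))) (by
    have : 0 < e * (1 / ((j : ℝ) + 1)) := by positivity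
    linarith)
  have h2 := gvf_le_gvl V s' (cA s (c + e * (1 / ((j : ℝ) + 1)))) (cB s) hj
  have h3 := gvl_window V s s' (c := c) (c' := c + e * (1 / ((j : ℝ) + 1))) (by
    have : 0 < e * (1 / ((j : ℝ) + 1)) := by positivity
    linarith) hj
  have e1 : (c + e * (1 / ((j : ℝ) + 1)) - c) / (1 / ((j : ℝ) + 1)) = e := by
    rw [add_sub_cancel_left, mul_div_assoc, div_self hj.ne', mul_one]
  rw [e1] at h3
  linarith

end

section
variable {S : Sp} (s : Sys S m) (s' : Sys S q)

theorem lvolP_mono {c c' : ℝ} (h : c ≤ c') : lvolP s s' D c ≤ lvolP s s' D c' := by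
  have := gvf_window_mono (FV.vol q D) s s' h
  unfold lvolP
  linarith

/-- RIGHT CONTINUITY -/
theorem lvolP_right {c v : ℝ} (h : ∀ c', c < c' → v ≤ lvolP s s' D c') : v ≤ lvolP s s' D c := by
  have h1 := gvf_right (FV.vol q D) s s' (c := c) (v := v / 2) (fun c' hc' => by
    have := h c' hc'
    unfold lvolP at this
    linarith)
  unfold lvolP
  linarith

/-- ADDITIVITY OVER EVENTS of extensions -/
theorem lvolP_add {T : Sp} (p : Pj T S) (E : ∀ k, (T.F k).Ω → Prop) (hE : 0 < ul (T.pr E))
    (hE' : 0 < ul (T.pr fun k ω => ¬ E k ω)) (c : ℝ) :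
    lvolP s s' D c = ul (T.pr E) * lvolP (s.im p E hE) (s'.im p E hE) D c +
      (1 - ul (T.pr E)) * lvolP (s.im p (fun k ω => ¬ E k ω) hE') (s'.im p (fun k ω => ¬ E k ω) hE') D c := by
  have h1 := gvf_add (FV.vol q D) s' (cA s c) (cB s) p E hE hE'
  have h2 : gvf (FV.vol q D) s' (cA s c) (cB s) =
      ul (T.pr E) * gvf (FV.vol q D) (s'.im p E hE) (cA (s.im p E hE) c) (cB (s.im p E hE)) +
      (1 - ul (T.pr E)) * gvf (FV.vol q D) (s'.im p (fun k ω => ¬ E k ω) hE')
        (cA (s.im p (fun k ω => ¬ E k ω) hE') c) (cB (s.im p (fun k ω => ¬ E k ω) hE')) := h1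
  unfold lvolP
  rw [h2]
  ring

theorem lvolP_typ {T : Sp} (p : Pj T S) (E : ∀ k, (T.F k).Ω → Prop) (hE : 0 < ul (T.pr E)) (ht : Typ E) (c : ℝ) :
    lvolP s s' D c ≤ lvolP (s.im p E hE) (s'.im p E hE) D c := by
  have h1 : gvf (FV.vol q D) s' (cA s c) (cB s) ≤
      gvf (FV.vol q D) (s'.im p E hE) (cA (s.im p E hE) c) (cB (s.im p E hE)) :=
    gvf_typ (FV.vol q D) s' (cA s c) (cB s) p E hE ht
  unfold lvolP
  linarith

theorem lvolP_pull {T : Sp} (p : Pj T S) (c : ℝ) : lvolP (s.pull p) (s'.pull p) D c = lvolP s s' D c := by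
  have h1 := gvf_pull (FV.vol q D) s' (cA s c) (cB s) p
  rw [cA_pull, cB_pull] at h1
  unfold lvolP
  rw [h1]

end

/-! ### the functional -/

section
variable (V : FV q D) (R : Matrix (Fin q) (Fin m) ℝ) (c : ℝ)

/-- the penalised value of the projection, labels of the window `c` of the system -/
def pvo (η : ℝ) (X : FSy m) : ℝ := gvo V η (fpr R X) (PA X c) (PB X)

theorem pvo_UB {η : ℝ} (h0 : 0 < η) {S : Sp} (s : Sys S m) : UB (fun k => pvo V R c η (s.fin k)) :=
  gvo_UB V (prB R s) (cA s c) (cB s) h0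

/-- the value of the projection by a fixed matrix, labels of the window `c` of the system, as a functional -/
def pvF : Fnl m where
  f := fun _ s => gvf V (prB R s) (cA s c) (cB s)
  nn := fun _ s => gvf_nonneg V (prB R s) (cA s c) (cB s)
  usc := by
    intro S s _
    choose E hE h1 using fun j : ℕ => diag_val (pvo V R c (1 / ((j : ℝ) + 1)))
      (fun S s => pvo_UB V R c (inv_pos_j j) s) S s
    refine ⟨fun i j k => E (Nat.unpair i).1 (Nat.unpair i).2 j k, fun i j => hE _ _ j, fun T u J hd => ?_⟩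
    have hq : ∀ q, IsDiag S s (E q) u J := fun q => ⟨hd.tend, hd.fin, fun i => by
      have h2 := hd.slow (Nat.pair q i)
      simp only [Nat.unpair_pair] at h2
      exact h2⟩
    refine le_ciInf fun q => ?_
    have h2 := h1 q T u J (hq q)
    have h3 : gvl V (prB R u) (cA u c) (cB u) (1 / ((q : ℝ) + 1)) =
        ul (fun k => gvl V (prB R (s (J k))) (cA (s (J k)) c) (cB (s (J k))) (1 / ((q : ℝ) + 1))) := h2
    rw [h3]
    apply ul_mono
    · exact UB_of_nonneg_le (Eventually.of_forall fun k => gvf_nonneg V (prB R (s (J k))) _ _)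
        (Eventually.of_forall fun k => gvf_le V (prB R (s (J k))) _ _)
    · exact UB_of_nonneg_le (Eventually.of_forall fun k => gvl_nonneg V (prB R (s (J k))) _ _ (inv_pos_j q))
        (Eventually.of_forall fun k => gvl_le V (prB R (s (J k))) _ _ (inv_pos_j q))
    · exact Eventually.of_forall fun k => gvf_le_gvl V (prB R (s (J k))) _ _ (inv_pos_j q)
  spl := by
    intro S s T p E hE hE'
    exact gvf_split V (prB R s) (cA s c) (cB s) p E hE hE'
  typ := by
    intro S s T p E hE ht
    exact gvf_typ V (prB R s) (cA s c) (cB s) p E hE ht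
  pull := by
    intro S s T p
    have h1 := gvf_pull V (prB R s) (cA s c) (cB s) p
    rw [cA_pull, cB_pull] at h1
    exact h1

end

end

end Pool.Agent.Helper52.SL
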