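import Pool.Agent.Helper52.KP.IcF
import Pool.Agent.Helper80.MX.Rich

/-! Selection of the system (39c (4.1)), first part: the profile `F(u,r) = h(x_u, P_r | t)` is a robust functional. -/

set_option autoImplicit false

namespace Pool.Agent.Helper52.SL

open Finset Filter Topology Pool.Agent.Helper69.RK Pool.Agent.Helper31.EC Pool.Agent.Helper31.EC.Sp
open Pool.Agent.Helper40.EL Pool.Agent.Helper42.NS Pool.Agent.Helper52.KP Pool.Agent.Helper80.MX

noncomputable section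

variable {m : ℕ}

/-- extensions do not change the profile -/
theorem F_pull {T S : Sp} (p : Pj T S) (s : Sys S m) (u r : ℝ) : (s.pull p).F u r = s.F u r := by
  unfold Sys.F Sys.T
  rw [Sys.pull_P]
  show h ((p.vv s.x).dg u ⊔ (p.vv s.P).dg r) ((p.vv s.t).dg 1) = _
  rw [← p.map_dg, ← p.map_dg, ← p.map_dg, ← p.map_sup, p.h_map]

theorem F_im {T S : Sp} (s : Sys S m) (p : Pj T S) (E : ∀ k, (T.F k).Ω → Prop) (hE : 0 < ul (T.pr E)) (u r : ℝ) :
    (s.im p E hE).F u r = ((s.pull p).rest E hE).F u r := by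
  rw [← Sys.im_pull, F_pull]

/-- the profile is an average -/
theorem F_im_split {T S : Sp} (s : Sys S m) (p : Pj T S) (E : ∀ k, (T.F k).Ω → Prop) (hE : 0 < ul (T.pr E))
    (hE' : 0 < ul (T.pr fun k ω => ¬ E k ω)) (u r : ℝ) :
    s.F u r = ul (T.pr E) * (s.im p E hE).F u r + (1 - ul (T.pr E)) * (s.im p (fun k ω => ¬ E k ω) hE').F u r := by
  rw [F_im, F_im, ← F_pull p s]
  exact (s.pull p).F_rest E hE hE' u r

/-- the profile as a functional -/
def prF (u r : ℝ) : Fnl m where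
  f := fun _ s => s.F u r
  nn := fun _ s => s.F_nonneg u r
  usc := by
    intro S s _
    obtain ⟨E, hE, h1⟩ := diag_val (fun X : FSy m => X.q (X.kx u ⊓ X.kP r) (X.kt 1)) (fun S s => s.F_UB u r) S s
    refine ⟨E, hE, fun T v J hd => ?_⟩
    have h2 := h1 T v J hd
    simp only [← Sys.F_eq] at h2
    exact h2.ge
  spl := fun _ s _ p E hE hE' => (F_im_split s p E hE hE' u r).le
  typ := fun _ s _ p E hE ht => by
    rw [F_im, (s.pull p).F_rest_typ E hE ht, F_pull]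
  pull := fun _ s _ p => F_pull p s u r

/-- bound of the profile -/
theorem F_le {S : Sp} (s : Sys S m) {u r : ℝ} (hu : 0 ≤ u) (hr : 0 ≤ r) : s.F u r ≤ m * (u + r) := by
  have h1 := s.F_lip_left (u := 0) (r := r) hu
  have h2 := s.F_lip_right (u := 0) (r := 0) hr
  have h3 : s.F 0 0 = 0 := by
    unfold Sys.F
    rw [s.x.dg_nonpos le_rfl, s.P.dg_nonpos le_rfl, bot_sup_eq]
    exact h_zero bot_le
  rw [h3] at h2
  nlinarith

/-- ROBUST PROFILE: the profile does not change on events of positive probability of extensions -/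
def RobP {S : Sp} (s : Sys S m) : Prop :=
  ∀ (u r : ℝ), 0 ≤ u → u ≤ 1 → 0 ≤ r → r ≤ 1 → RobF (prF u r) s

/-- comparison at rational levels is enough -/
theorem F_le_of_rat {S S' : Sp} (s : Sys S m) (s' : Sys S' m)
    (h : ∀ u r : ℚ, (0 : ℝ) ≤ u → (u : ℝ) ≤ 1 → (0 : ℝ) ≤ r → (r : ℝ) ≤ 1 → s.F u r ≤ s'.F u r) {u r : ℝ}
    (hu0 : 0 ≤ u) (hu1 : u ≤ 1) (hr0 : 0 ≤ r) (hr1 : r ≤ 1) : s.F u r ≤ s'.F u r := by
  apply le_of_forall_pos_le_add
  intro e he
  have hm : (0 : ℝ) ≤ m := Nat.cast_nonneg m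
  set d : ℝ := e / (2 * (m + 1)) with hd
  have hdp : 0 < d := by positivity
  have hde : 2 * m * d ≤ e := by
    rw [hd]
    have : 2 * (m : ℝ) * (e / (2 * (m + 1))) = e * (m / (m + 1)) := by field_simp
    rw [this]
    have h2 : (m : ℝ) / (m + 1) ≤ 1 := by rw [div_le_one (by positivity)]; linarith
    nlinarith
  have hq : ∀ u : ℝ, 0 ≤ u → u ≤ 1 → ∃ q : ℚ, (0 : ℝ) ≤ q ∧ (q : ℝ) ≤ 1 ∧ u ≤ q ∧ (q : ℝ) ≤ u + d := by
    intro u h0 h1
    rcases h1.eq_or_lt with rfl | h1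
    · exact ⟨1, by norm_num, by norm_num, by norm_num, by push_cast; linarith⟩
    · obtain ⟨q, h2, h3⟩ := exists_rat_btwn (show u < min 1 (u + d) from lt_min h1 (by linarith))
      exact ⟨q, by linarith, h3.le.trans (min_le_left _ _), h2.le, h3.le.trans (min_le_right _ _)⟩
  obtain ⟨a, a0, a1, a2, a3⟩ := hq u hu0 hu1
  obtain ⟨b, b0, b1, b2, b3⟩ := hq r hr0 hr1
  have h1 := h a b a0 a1 b0 b1
  have h2 := s.F_mono a2 b2
  have h3 := s'.F_lip_left (r := (b : ℝ)) a2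
  have h4 := s'.F_lip_right (u := u) b2
  have h5 : (m : ℝ) * (a - u) ≤ m * d := mul_le_mul_of_nonneg_left (by linarith) hm
  have h6 : (m : ℝ) * (b - r) ≤ m * d := mul_le_mul_of_nonneg_left (by linarith) hm
  linarith

theorem robP_of_rat {S : Sp} {s : Sys S m}
    (h : ∀ u r : ℚ, (0 : ℝ) ≤ u → (u : ℝ) ≤ 1 → (0 : ℝ) ≤ r → (r : ℝ) ≤ 1 → RobF (prF u r) s) : RobP s := by
  intro u r hu0 hu1 hr0 hr1 T p E hE
  exact le_antisymm
    (F_le_of_rat _ _ (fun u r a b c d => (h u r a b c d T p E hE).le) hu0 hu1 hr0 hr1)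
    (F_le_of_rat _ _ (fun u r a b c d => (h u r a b c d T p E hE).ge) hu0 hu1 hr0 hr1)

namespace RobP

variable {S : Sp} {s : Sys S m}

theorem F_eq (h : RobP s) {T : Sp} (p : Pj T S) (E : ∀ k, (T.F k).Ω → Prop) (hE : 0 < ul (T.pr E)) {u r : ℝ}
    (hu0 : 0 ≤ u) (hu1 : u ≤ 1) (hr0 : 0 ≤ r) (hr1 : r ≤ 1) : (s.im p E hE).F u r = s.F u r :=
  h u r hu0 hu1 hr0 hr1 T p E hE

theorem im (h : RobP s) {T : Sp} (p : Pj T S) (E : ∀ k, (T.F k).Ω → Prop) (hE : 0 < ul (T.pr E)) :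
    RobP (s.im p E hE) := fun u r a b c d => (h u r a b c d).im p E hE

theorem pull (h : RobP s) {T : Sp} (p : Pj T S) : RobP (s.pull p) := fun u r a b c d => (h u r a b c d).pull p

theorem rest (h : RobP s) (E : ∀ k, (S.F k).Ω → Prop) (hE : 0 < ul (S.pr E)) : RobP (s.rest E hE) :=
  fun u r a b c d => (h u r a b c d).rest E hE

theorem F_rest_eq (h : RobP s) (E : ∀ k, (S.F k).Ω → Prop) (hE : 0 < ul (S.pr E)) {u r : ℝ}
    (hu0 : 0 ≤ u) (hu1 : u ≤ 1) (hr0 : 0 ≤ r) (hr1 : r ≤ 1) : (s.rest E hE).F u r = s.F u r := by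
  have h1 := h.F_eq (Pj.id S) E hE hu0 hu1 hr0 hr1
  rw [← h1, ← F_pull (imq (Pj.id S) E) (s.im (Pj.id S) E hE)]
  rfl

end RobP

/-- levels of the truncation -/
theorem F_trn {S : Sp} (s : Sys S m) (l : ℝ) (h0 : 0 < l) (h1 : l ≤ 1) {u r : ℝ} (hu : u ≤ 1) (hr : r ≤ 1) :
    (trn s l h0 h1).F u r = s.F (l * u) (l * r) / l := by
  have a1 : (trn s l h0 h1).x.dg u = chgL _ l h0 (s.x.dg (l * u)) := VV.chg_dg _ l h0 s.x u
  have a2 : (trn s l h0 h1).P.dg r = chgL _ l h0 (s.P.dg (l * r)) := VV.chg_dg _ l h0 s.P r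
  have a3 : (trn s l h0 h1).T = chgL _ l h0 (s.t.dg (l * 1)) := VV.chg_dg _ l h0 s.t 1
  have e2 : ∀ x : S.L, hZ S.tr x = H x := by
    intro x
    induction x using cl_ind
    rw [hZ_cl, H_cl]
  unfold Sys.F
  rw [a1, a2, a3, ← chgL_sup, mul_one]
  have e3 : h (chgL S.tr l h0 (s.x.dg (l * u) ⊔ s.P.dg (l * r))) (chgL S.tr l h0 (s.t.dg l)) =
      h (s.x.dg (l * u) ⊔ s.P.dg (l * r)) (s.t.dg l) / l := by
    unfold Pool.Agent.Helper31.EC.h
    rw [← chgL_sup, H_chgL, H_chgL, e2, e2]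
    ring
  rw [e3]
  congr 1
  -- the digits of the height above level `l` are independent of the lines
  have hlu : l * u ≤ l := by nlinarith
  have hlr : l * r ≤ l := by nlinarith
  have eT : s.t.dg l ⊔ s.T = s.T := sup_eq_right.mpr (s.t.dg_mono h1)
  have h5 : I s.T (s.xi 1) (s.t.dg l) = 0 := by
    have h6 : I (s.t.dg l ⊔ s.T) (s.xi 1) ⊥ = 0 := by
      rw [eT]
      exact s.I_T le_rfl
    rw [I_chain, sup_bot_eq] at h6
    have a := I_nonneg (s.t.dg l) (s.xi 1) ⊥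
    have b := I_nonneg s.T (s.xi 1) (s.t.dg l)
    linarith
  have hX : s.x.dg (l * u) ⊔ s.P.dg (l * r) ≤ s.xi 1 ⊔ s.t.dg l := by
    apply sup_le
    · exact (s.x_le_xi (hlu.trans h1)).trans le_sup_left
    · refine (VV.pt_dg_le s.a s.x s.t (l * r)).trans (sup_le_sup ?_ (s.t.dg_mono hlr))
      exact sup_le (s.a_le_xi (hlr.trans h1)) (s.x_le_xi (hlr.trans h1))
  have h7 : I s.T (s.x.dg (l * u) ⊔ s.P.dg (l * r)) (s.t.dg l) = 0 := I_zero_mono h5 le_sup_left hX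
  rw [I_zero_iff_h'] at h7
  rw [← h7, sup_comm s.T, eT]

end

end Pool.Agent.Helper52.SL
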