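import Pool.Agent.Helper52.SL.Prf

/-! Selection of the system (39c (4.1)): ROBUST CLASSES. A class closed under diagonals and restrictions to events of
extensions contains a subclass, closed under the same operations, on which the values of countably many functionals are
constant (so every member is robust for them). The step can be repeated: the functionals of the second step may depend
on the values of the first step. -/

set_option autoImplicit false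

namespace Pool.Agent.Helper52.SL

open Finset Filter Topology Pool.Agent.Helper69.RK Pool.Agent.Helper31.EC Pool.Agent.Helper31.EC.Sp
open Pool.Agent.Helper40.EL Pool.Agent.Helper42.NS Pool.Agent.Helper52.KP

noncomputable section

variable {m : ℕ}

/-- nonempty classes closed under diagonals and under restrictions to events of positive probability of extensions -/
structure Cls (C : ∀ S : Sp, Sys S m → Prop) : Prop where
  dg : DiagCl C
  im : ImCl C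
  ne : ∃ (S : Sp) (s : Sys S m), C S s

/-- lower bounds for countably many usc functionals -/
theorem diagCl_ge {C : ∀ S : Sp, Sys S m → Prop} (hC : DiagCl C) (Φ : ℕ → Fnl m) (M : ℝ)
    (hM : ∀ q S s, C S s → (Φ q).f S s ≤ M) (v : ℕ → ℝ) :
    DiagCl (fun S s => C S s ∧ ∀ q, v q ≤ (Φ q).f S s) := by
  have h1 : DiagCl (fun (S : Sp) (s : Sys S m) => ∀ q, C S s ∧ v q ≤ (Φ q).f S s) :=
    DiagCl.all fun q => DiagUsc.cl hC ((Φ q).usc.mono fun _ _ _ => trivial) (v q) M (hM q)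
  have e : (fun (S : Sp) (s : Sys S m) => C S s ∧ ∀ q, v q ≤ (Φ q).f S s) =
      fun (S : Sp) (s : Sys S m) => ∀ q, C S s ∧ v q ≤ (Φ q).f S s := by
    funext S s
    apply propext
    exact ⟨fun h q => ⟨h.1, h.2 q⟩, fun h => ⟨(h 0).1, fun q => (h q).2⟩⟩
  rw [e]
  exact h1

/-- ONE STEP: a subclass on which countably many functionals are constant -/
theorem stage {C : ∀ S : Sp, Sys S m → Prop} (hC : Cls C) (Φ : ℕ → Fnl m) (M : ℝ)
    (hM : ∀ q S s, C S s → (Φ q).f S s ≤ M) :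
    ∃ v : ℕ → ℝ, Cls (fun S s => C S s ∧ ∀ q, (Φ q).f S s = v q) := by
  obtain ⟨S0, u, hu, hr⟩ := exists_rigid C hC.dg hC.ne (fun q => (Φ q).f)
    (fun q => (Φ q).usc.mono fun _ _ _ => trivial) M (fun q S s _ => (Φ q).nn S s) hM
  -- members above `u` have the same values
  have key : ∀ (S : Sp) (s : Sys S m), C S s → (∀ q, (Φ q).f S0 u ≤ (Φ q).f S s) → ∀ q, (Φ q).f S s = (Φ q).f S0 u := by
    intro S s hs h
    refine hr S s S s 1 hs hs one_pos le_rfl fun q => ?_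
    have := h q
    linarith
  have heq : (fun (S : Sp) (s : Sys S m) => C S s ∧ ∀ q, (Φ q).f S s = (Φ q).f S0 u) =
      fun (S : Sp) (s : Sys S m) => C S s ∧ ∀ q, (Φ q).f S0 u ≤ (Φ q).f S s := by
    funext S s
    apply propext
    exact ⟨fun h => ⟨h.1, fun q => (h.2 q).ge⟩, fun h => ⟨h.1, key S s h.1 h.2⟩⟩
  refine ⟨fun q => (Φ q).f S0 u, ?_, ?_, S0, u, hu, fun _ => rfl⟩
  · rw [heq]
    exact diagCl_ge hC.dg Φ M hM _
  · intro S s hs T p E hE
    have hs1 := hC.im S s hs.1 T p E hE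
    refine ⟨hs1, ?_⟩
    rcases typ_or E with ht | hE'
    · exact key _ _ hs1 fun q => (hs.2 q).ge.trans ((Φ q).typ S s T p E hE ht)
    · exact hr _ (s.im p E hE) _ (s.im p (fun k ω => ¬ E k ω) hE') (ul (T.pr E)) hs1
        (hC.im S s hs.1 T p _ hE') hE (ul_pr_le_one E) fun q =>
          (hs.2 q).ge.trans ((Φ q).spl S s T p E hE hE')

/-- ONE STEP, functionals indexed by a countable type -/
theorem stage' {C : ∀ S : Sp, Sys S m → Prop} (hC : Cls C) {ι : Type} [Countable ι] [Nonempty ι] (Φ : ι → Fnl m) (M : ℝ)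
    (hM : ∀ q S s, C S s → (Φ q).f S s ≤ M) :
    ∃ v : ι → ℝ, Cls (fun S s => C S s ∧ ∀ q, (Φ q).f S s = v q) := by
  obtain ⟨g, hg⟩ := exists_surjective_nat ι
  obtain ⟨v, hv⟩ := stage hC (fun n => Φ (g n)) M (fun n S s hs => hM (g n) S s hs)
  obtain ⟨S0, u, hu⟩ := hv.ne
  have heq : (fun (S : Sp) (s : Sys S m) => C S s ∧ ∀ q, (Φ q).f S s = (Φ q).f S0 u) =
      fun (S : Sp) (s : Sys S m) => C S s ∧ ∀ n, (Φ (g n)).f S s = v n := by
    funext S s
    apply propext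
    constructor
    · rintro ⟨h1, h2⟩
      exact ⟨h1, fun n => (h2 (g n)).trans (hu.2 n)⟩
    · rintro ⟨h1, h2⟩
      refine ⟨h1, fun q => ?_⟩
      obtain ⟨n, rfl⟩ := hg q
      exact (h2 n).trans (hu.2 n).symm
  refine ⟨fun q => (Φ q).f S0 u, ?_⟩
  rw [heq]
  exact hv

/-- members of a class with constant values are robust -/
theorem Cls.robF {C : ∀ S : Sp, Sys S m → Prop} (hC : Cls C) {Φ : Fnl m} {v : ℝ} (hv : ∀ S s, C S s → Φ.f S s = v)
    {S : Sp} {s : Sys S m} (hs : C S s) : RobF Φ s := fun T p E hE =>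
  (hv _ _ (hC.im S s hs T p E hE)).trans (hv S s hs).symm

/-- subclasses of a class, closed under the same operations -/
theorem Cls.and {C C' : ∀ S : Sp, Sys S m → Prop} (hC : Cls C) (hd : DiagCl C') (hi : ImCl C')
    (hne : ∃ (S : Sp) (s : Sys S m), C S s ∧ C' S s) : Cls (fun S s => C S s ∧ C' S s) where
  dg := hC.dg.and hd
  im := fun S s hs T p E hE => ⟨hC.im S s hs.1 T p E hE, hi S s hs.2 T p E hE⟩
  ne := hne

/-! ### the functionals of a list of gauges and of a list of truncation levels -/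

/-- levels of truncation -/
abbrev Lv : Type := {l : ℝ // 0 < l ∧ l ≤ 1}

/-- the basic functionals: the profile, `i(c)`, `psi(c, σ)` of the gauges `G` at rational parameters, the functionals
`Φ`; of the system and of its truncations at the levels `L` -/
def bas (G : ℕ → Gg m) (Φ : ℕ → Fnl m) : ({x : ℚ × ℚ // (0 ≤ x.1 ∧ x.1 ≤ 1) ∧ (0 ≤ x.2 ∧ x.2 ≤ 1)} ⊕
    {c : ℚ // 0 ≤ c ∧ c ≤ 1}) ⊕ ((ℕ × ℚ × ℚ) ⊕ ℕ) → Fnl m
  | Sum.inl (Sum.inl x) => prF (x.1.1 : ℝ) (x.1.2 : ℝ)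
  | Sum.inl (Sum.inr c) => icF (c := (c.1 : ℝ)) (by exact_mod_cast c.2.1) (by exact_mod_cast c.2.2)
  | Sum.inr (Sum.inl x) => psiF (G x.1) (x.2.1 : ℝ) (x.2.2 : ℝ)
  | Sum.inr (Sum.inr q) => Φ q

/-- with truncations -/
def basT (G : ℕ → Gg m) (Φ : ℕ → Fnl m) (L : ℕ → Lv) :
    (({x : ℚ × ℚ // (0 ≤ x.1 ∧ x.1 ≤ 1) ∧ (0 ≤ x.2 ∧ x.2 ≤ 1)} ⊕ {c : ℚ // 0 ≤ c ∧ c ≤ 1}) ⊕ ((ℕ × ℚ × ℚ) ⊕ ℕ)) ×
      Option ℕ → Fnl m
  | (x, none) => bas G Φ x
  | (x, some q) => (bas G Φ x).trn (L q).1 (L q).2.1 (L q).2.2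

theorem bas_le (G : ℕ → Gg m) (Φ : ℕ → Fnl m) (M : ℝ) (hM : ∀ q S s, (Φ q).f S s ≤ M) (x) (S : Sp) (s : Sys S m) :
    (bas G Φ x).f S s ≤ max M (2 * m + 1) := by
  have hm : (0 : ℝ) ≤ m := Nat.cast_nonneg m
  have h0 : 2 * (m : ℝ) + 1 ≤ max M (2 * m + 1) := le_max_right _ _
  rcases x with (x | c) | (x | q)
  · have a1 : ((x.1.1 : ℚ) : ℝ) ≤ 1 := by exact_mod_cast x.2.1.2
    have a2 : ((x.1.2 : ℚ) : ℝ) ≤ 1 := by exact_mod_cast x.2.2.2
    have a3 : (0 : ℝ) ≤ ((x.1.1 : ℚ) : ℝ) := by exact_mod_cast x.2.1.1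
    have a4 : (0 : ℝ) ≤ ((x.1.2 : ℚ) : ℝ) := by exact_mod_cast x.2.2.1
    have h1 := F_le s a3 a4
    have h2 : (m : ℝ) * (((x.1.1 : ℚ) : ℝ) + ((x.1.2 : ℚ) : ℝ)) ≤ m * 2 :=
      mul_le_mul_of_nonneg_left (by linarith) hm
    show s.F _ _ ≤ _
    linarith
  · have a1 : ((c.1 : ℚ) : ℝ) ≤ 1 := by exact_mod_cast c.2.2
    have a3 : (0 : ℝ) ≤ ((c.1 : ℚ) : ℝ) := by exact_mod_cast c.2.1
    have h1 := ic_le_m s a3 a1
    show Helper40.EL.ic s _ ≤ _
    linarith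
  · have h1 := psi_le_one (G := G x.1) s ((x.2.1 : ℚ) : ℝ) ((x.2.2 : ℚ) : ℝ)
    show psi (G x.1) s _ _ ≤ _
    linarith
  · exact (hM q S s).trans (le_max_left _ _)

theorem basT_le (G : ℕ → Gg m) (Φ : ℕ → Fnl m) (L : ℕ → Lv) (M : ℝ) (hM : ∀ q S s, (Φ q).f S s ≤ M) (x) (S : Sp)
    (s : Sys S m) : (basT G Φ L x).f S s ≤ max M (2 * m + 1) := by
  obtain ⟨x, o⟩ := x
  cases o with
  | none => exact bas_le G Φ M hM x S s
  | some q => exact bas_le G Φ M hM x _ _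

/-- everything robust -/
structure RobA (G : ℕ → Gg m) (Φ : ℕ → Fnl m) {S : Sp} (s : Sys S m) : Prop where
  p : RobP s
  i : RobustI s
  g : RobustG G s
  f : ∀ q, RobF (Φ q) s

theorem robA_of {G : ℕ → Gg m} {Φ : ℕ → Fnl m} {S : Sp} {s : Sys S m} (h : ∀ x, RobF (bas G Φ x) s) : RobA G Φ s where
  p := robP_of_rat fun u r a b c d => h (Sum.inl (Sum.inl ⟨(u, r),
    ⟨by exact_mod_cast a, by exact_mod_cast b⟩, ⟨by exact_mod_cast c, by exact_mod_cast d⟩⟩))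
  i := robustI_of_rat fun c h0 h1 => h (Sum.inl (Sum.inr ⟨c, by exact_mod_cast h0, by exact_mod_cast h1⟩))
  g := robustG_of fun i c σ => h (Sum.inr (Sum.inl (i, c, σ)))
  f := fun q => h (Sum.inr (Sum.inr q))

namespace RobA

variable {G : ℕ → Gg m} {Φ : ℕ → Fnl m} {S : Sp} {s : Sys S m}

theorem im (h : RobA G Φ s) {T : Sp} (p : Pj T S) (E : ∀ k, (T.F k).Ω → Prop) (hE : 0 < ul (T.pr E)) :
    RobA G Φ (s.im p E hE) := ⟨h.p.im p E hE, h.i.im p E hE, h.g.im p E hE, fun q => (h.f q).im p E hE⟩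

theorem pull (h : RobA G Φ s) {T : Sp} (p : Pj T S) : RobA G Φ (s.pull p) :=
  ⟨h.p.pull p, h.i.pull p, h.g.pull p, fun q => (h.f q).pull p⟩

theorem rest (h : RobA G Φ s) (E : ∀ k, (S.F k).Ω → Prop) (hE : 0 < ul (S.pr E)) : RobA G Φ (s.rest E hE) :=
  ⟨h.p.rest E hE, h.i.rest E hE, h.g.rest E hE, fun q => (h.f q).rest E hE⟩

end RobA

/-- the members of the class have the profile `F0`, the function `i0` and the functions `ψ0` -/
structure Val (G : ℕ → Gg m) (Φ : ℕ → Fnl m) (F0 : ℝ → ℝ → ℝ) (i0 : ℝ → ℝ) (ψ0 : ℕ → ℝ → ℝ → ℝ) (φ0 : ℕ → ℝ)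
    {S : Sp} (s : Sys S m) : Prop where
  F : ∀ u r, 0 ≤ u → u ≤ 1 → 0 ≤ r → r ≤ 1 → s.F u r = F0 u r
  i : ∀ c, 0 ≤ c → c ≤ 1 → Helper40.EL.ic s c = i0 c
  g : ∀ i c σ, psi (G i) s c σ = ψ0 i c σ
  f : ∀ q, (Φ q).f S s = φ0 q

theorem Val.of_bas {G : ℕ → Gg m} {Φ : ℕ → Fnl m} {S S0 : Sp} {s : Sys S m} {s0 : Sys S0 m}
    (hx : ∀ q, (bas G Φ q).f S s = (bas G Φ q).f S0 s0) :
    Val G Φ s0.F (Helper40.EL.ic s0) (fun i => psi (G i) s0) (fun q => (Φ q).f S0 s0) s where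
  F := by
    intro u r a b c d
    apply le_antisymm
    · refine F_le_of_rat _ _ (fun u r a b c d => ?_) a b c d
      exact (hx (Sum.inl (Sum.inl ⟨(u, r),
        ⟨by exact_mod_cast a, by exact_mod_cast b⟩, ⟨by exact_mod_cast c, by exact_mod_cast d⟩⟩))).le
    · refine F_le_of_rat _ _ (fun u r a b c d => ?_) a b c d
      exact (hx (Sum.inl (Sum.inl ⟨(u, r),
        ⟨by exact_mod_cast a, by exact_mod_cast b⟩, ⟨by exact_mod_cast c, by exact_mod_cast d⟩⟩))).ge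
  i := by
    intro c a b
    apply le_antisymm
    · exact ic_le_of_rat _ _ (fun c a b => (hx (Sum.inl (Sum.inr ⟨c, a, b⟩))).le) a b
    · exact ic_le_of_rat _ _ (fun c a b => (hx (Sum.inl (Sum.inr ⟨c, a, b⟩))).ge) a b
  g := by
    intro i c σ
    apply le_antisymm
    · exact psi_le_of_rat (G := G i) s s0 (fun c σ => (hx (Sum.inr (Sum.inl (i, c, σ)))).le) c σ
    · exact psi_le_of_rat (G := G i) s0 s (fun c σ => (hx (Sum.inr (Sum.inl (i, c, σ)))).ge) c σ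
  f := fun q => hx (Sum.inr (Sum.inr q))

/-- TWO STEPS: first the profile, `i` and the `psi` of the gauges are made constant on a subclass (their values are the
functions `F0`, `i0`, `ψ0`); the truncation levels may then be chosen depending on these functions, and the same
functionals of the truncations become constant on a smaller subclass. All classes are closed under diagonals and
restrictions to events of extensions. -/
theorem two_steps {C : ∀ S : Sp, Sys S m → Prop} (hC : Cls C) (G : ℕ → Gg m) (Φ : ℕ → Fnl m) (M : ℝ)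
    (hM : ∀ q S s, (Φ q).f S s ≤ M) :
    ∃ (F0 : ℝ → ℝ → ℝ) (i0 : ℝ → ℝ) (ψ0 : ℕ → ℝ → ℝ → ℝ) (φ0 : ℕ → ℝ) (C' : ∀ S : Sp, Sys S m → Prop), Cls C' ∧
      (∀ S s, C' S s → C S s ∧ Val G Φ F0 i0 ψ0 φ0 s ∧ RobA G Φ s) ∧
      ∀ L : ℕ → Lv, ∃ (F1 : ℕ → ℝ → ℝ → ℝ) (i1 : ℕ → ℝ → ℝ) (ψ1 : ℕ → ℕ → ℝ → ℝ → ℝ) (φ1 : ℕ → ℕ → ℝ)
        (C'' : ∀ S : Sp, Sys S m → Prop), Cls C'' ∧ (∀ S s, C'' S s → C' S s) ∧
        ∀ S (s : Sys S m), C'' S s → ∀ q, Val G Φ (F1 q) (i1 q) (ψ1 q) (φ1 q) (trn s (L q).1 (L q).2.1 (L q).2.2) ∧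
          RobA G Φ (trn s (L q).1 (L q).2.1 (L q).2.2) := by
  obtain ⟨v, hv⟩ := stage' hC (bas G Φ) (max M (2 * m + 1)) (fun x S s _ => bas_le G Φ M hM x S s)
  obtain ⟨S0, s0, h0⟩ := hv.ne
  refine ⟨s0.F, Helper40.EL.ic s0, fun i => psi (G i) s0, fun q => (Φ q).f S0 s0,
    fun S s => C S s ∧ ∀ q, (bas G Φ q).f S s = v q, hv, ?_, ?_⟩
  · intro S s hs
    exact ⟨hs.1, Val.of_bas fun q => (hs.2 q).trans (h0.2 q).symm,
      robA_of fun x => hv.robF (v := v x) (fun S s h => h.2 x) hs⟩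
  · intro L
    obtain ⟨w, hw⟩ := stage' hv (basT G Φ L) (max M (2 * m + 1)) (fun x S s _ => basT_le G Φ L M hM x S s)
    obtain ⟨S1, s1, h1⟩ := hw.ne
    refine ⟨fun q => (trn s1 (L q).1 (L q).2.1 (L q).2.2).F, fun q => Helper40.EL.ic (trn s1 (L q).1 (L q).2.1 (L q).2.2),
      fun q i => psi (G i) (trn s1 (L q).1 (L q).2.1 (L q).2.2),
      fun q q' => (Φ q').f _ (trn s1 (L q).1 (L q).2.1 (L q).2.2),
      fun S s => (C S s ∧ ∀ q, (bas G Φ q).f S s = v q) ∧ ∀ q, (basT G Φ L q).f S s = w q, hw, fun S s hs => hs.1, ?_⟩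
    intro S s hs q
    exact ⟨Val.of_bas fun x => (hs.2 (x, some q)).trans (h1.2 (x, some q)).symm,
      robA_of fun x => robF_trn (hw.robF (v := w (x, some q)) (fun S s h => h.2 _) hs)⟩

end

end Pool.Agent.Helper52.SL
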