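import Pool.Agent.Helper52.SL.Cnn
import Pool.Agent.Helper59.EV.Fdg

/-! THEOREM ROB, second part: the penalised volume of labels with forms at the window zero as a superadditive
functional. -/

set_option autoImplicit false

namespace Pool.Agent.Helper52.SL

open Finset Filter Topology Matrix Pool.Agent.Helper69.RK Pool.Agent.Helper31.EC Pool.Agent.Helper31.EC.Sp
open Pool.Agent.Helper40.EL Pool.Agent.Helper42.NS Pool.Agent.Helper52.KP
open Pool.Agent.Helper95.LF Pool.Agent.Helper3.LF Pool.Agent.Helper48.NS Pool.Agent.Helper89.LX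
open Pool.Agent.Helper3.PR Pool.Agent.Helper59.EV

noncomputable section

variable {m : ℕ}

/-- exponential upper bound of the volume determinant, uniform for all systems -/
theorem GG_ub_exp {S : Sp} (s : Sys S m) (D : ℕ) : ∀ᶠ k in UF, ∀ ω, (S.F k).μ ω ≠ 0 →
    ∀ A : Matrix (Mon (m + 1) D) (Mon (m + 1) D) ℝ, Cpd ((gau s D).cp k) A →
      GG (S.dl 1 k) A (ptf s k ω) ≤ 2 ^ ((m * (2 * D + 6)) * (S.F k).n) := by
  obtain ⟨K, hK, hb⟩ := ptf_bd s
  have hnn := nn_one (m + 1) D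
  have hCm := Cm_one (m + 1) D
  set L : ℕ → ℝ := fun k => ((m + 1 : ℕ) * nn (m + 1) D * Cm (m + 1) D ^ 2) *
    (nn (m + 1) D * Fintype.card (Mon (m + 1) D) * (K k + 1) ^ (2 * D)) with hL
  have hLs : S.Sub L := by
    refine (S.Sub_const (by positivity)).mul ((S.Sub_const (by positivity)).mul ?_)
    exact Sub_pow' (hK.add (S.Sub_const zero_le_one)) _
  filter_upwards [hb, hK.1, hLs.eventually_le one_pos, eventually_le_two_pow S 2] with k h1 hK0 h2 h3 ω hω A hA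
  have hr := S.dl_pos 1 k
  have hpd : PdM A := pdM_of_one_le hA.1 hA.2.1
  have h4 := phi_le A ((gau s D).cp k) hA.2.2 (by have := (gau s D).one_le_cp k; linarith) (S.dl 1 k) (K k + 1)
    hr.le (by linarith) (ptf s k ω) (fun i => add_le_add (h1 ω hω i) (dl_one_le S k))
  have h5 := gam_le A hpd (S.dl 1 k) hr (ptf s k ω)
  have h6 := trJ_le_gam (S.dl 1 k) hpd.nonneg (ptf s k ω)
  have h7 := trJ_nonneg (S.dl 1 k) hpd.nonneg (ptf s k ω)
  have hn := (S.F k).pos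
  have hcp : (gau s D).cp k = 2 ^ ((2 * D + 2) * (S.F k).n) := by
    unfold Gau.cp gau
    congr 1
    ring
  have hdl : S.dl 1 k ^ 2 * 2 ^ (2 * (S.F k).n) = 1 := by
    unfold dl
    rw [← Real.rpow_natCast, ← Real.rpow_mul (by norm_num), ← Real.rpow_add (by norm_num)]
    have : -(1 * (S.F k).n) * ((2 : ℕ) : ℝ) + 2 * (S.F k).n = 0 := by push_cast; ring
    rw [this, Real.rpow_zero]
  have h8 : gam (S.dl 1 k) A (ptf s k ω) ≤ 2 ^ (2 * (S.F k).n) * (L k * 2 ^ ((2 * D + 2) * (S.F k).n)) := by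
    have h9 : S.dl 1 k ^ 2 * gam (S.dl 1 k) A (ptf s k ω) ≤ L k * 2 ^ ((2 * D + 2) * (S.F k).n) := by
      refine h5.trans ?_
      rw [hL, ← hcp]
      calc ((m + 1 : ℕ) : ℝ) * nn (m + 1) D * Cm (m + 1) D ^ 2 * phi (S.dl 1 k) A (ptf s k ω) ≤
          ((m + 1 : ℕ) : ℝ) * nn (m + 1) D * Cm (m + 1) D ^ 2 *
            (nn (m + 1) D * Fintype.card (Mon (m + 1) D) * (K k + 1) ^ (2 * D) * (gau s D).cp k) :=
            mul_le_mul_of_nonneg_left h4 (by positivity)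
        _ = _ := by ring
    calc gam (S.dl 1 k) A (ptf s k ω) = 2 ^ (2 * (S.F k).n) * (S.dl 1 k ^ 2 * gam (S.dl 1 k) A (ptf s k ω)) := by
          rw [← mul_assoc, mul_comm ((2 : ℝ) ^ (2 * (S.F k).n)), hdl, one_mul]
      _ ≤ _ := mul_le_mul_of_nonneg_left h9 (by positivity)
  have h10 : L k ≤ 2 ^ (1 * (S.F k).n) := by linarith
  have hx : ∀ a : ℝ, 0 ≤ a → (1 : ℝ) ≤ 2 ^ (a * (S.F k).n) := fun a ha =>
    Real.one_le_rpow (by norm_num) (mul_nonneg ha hn.le)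
  have h11 : 1 + trJ (S.dl 1 k) A (ptf s k ω) ≤ 2 ^ ((2 * D + 6) * (S.F k).n) := by
    have h12 : trJ (S.dl 1 k) A (ptf s k ω) ≤ 2 ^ ((2 * D + 5) * (S.F k).n) := by
      refine (h6.trans h8).trans ?_
      have h13 : (2 : ℝ) ^ ((2 * D + 5) * (S.F k).n) =
          2 ^ (2 * (S.F k).n) * (2 ^ (1 * (S.F k).n) * 2 ^ ((2 * D + 2) * (S.F k).n)) := by
        rw [← Real.rpow_add (by norm_num), ← Real.rpow_add (by norm_num)]
        congr 1
        ring
      rw [h13]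
      gcongr
    have h14 : (2 : ℝ) ^ ((2 * D + 6) * (S.F k).n) = 2 ^ (S.F k).n * 2 ^ ((2 * D + 5) * (S.F k).n) := by
      rw [← Real.rpow_add (by norm_num)]
      congr 1
      ring
    rw [h14]
    have h15 := hx (2 * D + 5) (by positivity)
    have h16 : (2 : ℝ) * 2 ^ ((2 * D + 5) * (S.F k).n) ≤ 2 ^ (S.F k).n * 2 ^ ((2 * D + 5) * (S.F k).n) :=
      mul_le_mul_of_nonneg_right h3 (by positivity)
    linarith
  refine (GG_le_trJ _ A hpd _).trans ((pow_le_pow_left₀ (by linarith) h11 m).trans (le_of_eq ?_))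
  rw [← Real.rpow_natCast, ← Real.rpow_mul (by norm_num)]
  congr 1
  ring

/-! ### the functional -/

/-- the point of a finite system -/
def ptX (X : FSy m) (ω : X.F.Ω) : Fin (m + 1) → ℝ := pl (X.a ω) (X.x ω) (X.t ω 0)

/-- the exponent of the volume determinant -/
def gX (D : ℕ) (X : FSy m) (ω : X.F.Ω) (A : Matrix (Mon (m + 1) D) (Mon (m + 1) D) ℝ) : ℝ :=
  Real.logb 2 (GG (X.dl 1) A (ptX X ω)) / (2 * X.F.n)

open Classical in
/-- indicator of the bad event -/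
def bX (η : ℝ) (D : ℕ) (X : FSy m) (ω : X.F.Ω) (A : Matrix (Mon (m + 1) D) (Mon (m + 1) D) ℝ) : ℝ :=
  if ¬ phi (X.dl 1) A (ptX X ω) ≤ 2 ^ (η * X.F.n) then 1 else 0

/-- the truncation level -/
def vM (m D : ℕ) : ℝ := m * (D + 3)

theorem vM_nonneg (m D : ℕ) : 0 ≤ vM m D := by unfold vM; positivity

/-- the integrand -/
def wX (η : ℝ) (D : ℕ) (X : FSy m) (ω : X.F.Ω) (A A' : Matrix (Mon (m + 1) D) (Mon (m + 1) D) ℝ) : ℝ :=
  min (gX D X ω A) (vM m D) - (bX η D X ω A + bX η D X ω A') / η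

/-- the cap -/
def cpX (D : ℕ) (X : FSy m) : ℝ := 2 ^ ((2 * (D : ℝ) + 1 + 1) * X.F.n)

theorem one_le_cpX (D : ℕ) (X : FSy m) : 1 ≤ cpX D X :=
  Real.one_le_rpow (by norm_num) (mul_nonneg (by positivity) X.F.pos.le)

/-- forms between the identity and the cap -/
def capd (D : ℕ) (X : FSy m) (y : FD X.F (Mon (m + 1) D)) : Prop :=
  ∀ ω, y.l.T.μ ω ≠ 0 → Cpd (cpX D X) (y.g ω) ∧ Cpd (cpX D X) (y.g' ω)

/-- the penalised volume of a label with forms -/
def vval (η : ℝ) (D : ℕ) (X : FSy m) (y : FD X.F (Mon (m + 1) D)) : ℝ :=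
  fval2 (wX η D X) y - (y.l.leak (PA X 0) + y.l.leak (PB X)) / η / X.F.n

/-- the values of all labels with forms -/
def vset (η : ℝ) (D : ℕ) (X : FSy m) : Set ℝ := {r | ∃ y : FD X.F (Mon (m + 1) D), capd D X y ∧ r = vval η D X y}

/-- the penalised volume -/
def vol (η : ℝ) (D : ℕ) (X : FSy m) : ℝ := sSup (vset η D X)

theorem bX_nonneg (η : ℝ) (D : ℕ) (X : FSy m) (ω : X.F.Ω) (A : Matrix (Mon (m + 1) D) (Mon (m + 1) D) ℝ) :
    0 ≤ bX η D X ω A := by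
  unfold bX
  split_ifs
  · exact le_refl (0 : ℝ)
  · exact zero_le_one (α := ℝ)

theorem bX_le_one (η : ℝ) (D : ℕ) (X : FSy m) (ω : X.F.Ω) (A : Matrix (Mon (m + 1) D) (Mon (m + 1) D) ℝ) :
    bX η D X ω A ≤ 1 := by
  unfold bX
  split_ifs
  · exact zero_le_one (α := ℝ)
  · exact le_refl (1 : ℝ)

theorem gX_nonneg (D : ℕ) (X : FSy m) (ω : X.F.Ω) {c : ℝ} {A : Matrix (Mon (m + 1) D) (Mon (m + 1) D) ℝ}
    (hA : Cpd c A) : 0 ≤ gX D X ω A :=
  div_nonneg (logGG_nonneg _ hA.pdM _) (mul_nonneg (by norm_num) X.F.pos.le)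

theorem vset_ne (η : ℝ) (D : ℕ) (X : FSy m) : (vset η D X).Nonempty :=
  ⟨_, trivFD X.F, fun _ _ => ⟨Cpd_one (one_le_cpX D X), Cpd_one (one_le_cpX D X)⟩, rfl⟩

/-- expectations of functions bounded below -/
theorem le_sum_mul {F : FSp} (f : F.Ω → ℝ) (c : ℝ) (h : ∀ ω, F.μ ω ≠ 0 → c ≤ f ω) : c ≤ ∑ ω, F.μ ω * f ω := by
  have h1 := sum_mul_le (F := F) (fun ω => - f ω) (-c) fun ω h0 => neg_le_neg (h ω h0)
  have h2 : ∑ ω, F.μ ω * (- f ω) = - ∑ ω, F.μ ω * f ω := by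
    rw [← Finset.sum_neg_distrib]
    exact Finset.sum_congr rfl fun ω _ => by ring
  rw [h2] at h1
  linarith

theorem vval_le {η : ℝ} (h0 : 0 < η) (D : ℕ) (X : FSy m) (y : FD X.F (Mon (m + 1) D)) : vval η D X y ≤ vM m D := by
  have h1 : fval2 (wX η D X) y ≤ vM m D := by
    apply sum_mul_le (F := y.l.T)
    intro ω _
    unfold wX
    have e1 := min_le_right (gX D X (y.l.p.π ω) (y.g ω)) (vM m D)
    have e2 := div_nonneg (add_nonneg (bX_nonneg η D X (y.l.p.π ω) (y.g ω)) (bX_nonneg η D X (y.l.p.π ω) (y.g' ω))) h0.le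
    linarith
  have h2 : 0 ≤ (y.l.leak (PA X 0) + y.l.leak (PB X)) / η / X.F.n :=
    div_nonneg (div_nonneg (add_nonneg (y.l.leak_nonneg _) (y.l.leak_nonneg _)) h0.le) X.F.pos.le
  unfold vval
  linarith

theorem vset_bdd {η : ℝ} (h0 : 0 < η) (D : ℕ) (X : FSy m) : BddAbove (vset η D X) := by
  refine ⟨vM m D, ?_⟩
  rintro r ⟨y, _, rfl⟩
  exact vval_le h0 D X y

theorem vol_le {η : ℝ} (h0 : 0 < η) (D : ℕ) (X : FSy m) : vol η D X ≤ vM m D := by
  apply csSup_le (vset_ne η D X)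
  rintro r ⟨y, _, rfl⟩
  exact vval_le h0 D X y

theorem vval_le_vol {η : ℝ} (h0 : 0 < η) (D : ℕ) (X : FSy m) {y : FD X.F (Mon (m + 1) D)} (hy : capd D X y) :
    vval η D X y ≤ vol η D X := le_csSup (vset_bdd h0 D X) ⟨y, hy, rfl⟩

theorem vol_ge {η : ℝ} (h0 : 0 < η) (D : ℕ) (X : FSy m) : -(2 / η) ≤ vol η D X := by
  have hc : capd D X (trivFD X.F) := fun _ _ => ⟨Cpd_one (one_le_cpX D X), Cpd_one (one_le_cpX D X)⟩
  refine le_trans ?_ (vval_le_vol h0 D X hc)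
  have h1 : -(2 / η) ≤ fval2 (wX η D X) (trivFD X.F) := by
    apply le_sum_mul (F := (trivFD (ι := Mon (m + 1) D) X.F).l.T)
    intro ω hω
    show -(2 / η) ≤ wX η D X _ _ _
    unfold wX
    have e1 : 0 ≤ min (gX D X ω 1) (vM m D) := le_min (gX_nonneg D X ω (Cpd_one (le_refl 1))) (vM_nonneg m D)
    have e2 : (bX η D X ω 1 + bX η D X ω 1) / η ≤ 2 / η := by
      apply div_le_div_of_nonneg_right _ h0.le
      have := bX_le_one η D X ω 1
      linarith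
    have e3 : -(2 / η) ≤ min (gX D X ω 1) (vM m D) - (bX η D X ω 1 + bX η D X ω 1) / η := by linarith
    exact e3
  have h2 : (trivFD (ι := Mon (m + 1) D) X.F).l.leak (PA X 0) = 0 := FLab.triv_leak _
  have h3 : (trivFD (ι := Mon (m + 1) D) X.F).l.leak (PB X) = 0 := FLab.triv_leak _
  unfold vval
  rw [h2, h3]
  simpa using h1

/-- glued labels with forms -/
theorem vval_glue {η : ℝ} (h0 : 0 < η) (D : ℕ) (X : FSy m) (T : FSp) (p : FPj T X.F) (E : T.Ω → Prop)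
    (y1 : FD (FSp.im p E) (Mon (m + 1) D)) (y2 : FD (FSp.im p (fun ω => ¬ E ω)) (Mon (m + 1) D)) :
    T.pb E * vval η D (imf X p E) y1 + (1 - T.pb E) * vval η D (imf X p (fun ω => ¬ E ω)) y2 ≤
      vval η D X (gluFD p E y1 y2) + (2 / η) / X.F.n := by
  have g1 := fval2_glu (p := p) (E := E) (wX η D X) y1 y2
  have g2 := Pool.Agent.Helper59.EV.glu_leak y1 y2 (PA X 0)
  have g3 := Pool.Agent.Helper59.EV.glu_leak y1 y2 (PB X)
  have hn := X.F.pos
  have e1 : vval η D (imf X p E) y1 = fval2 (F := FSp.im p E) (wX η D X) y1 -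
      (y1.l.leak (FSp.imap p E (PA X 0)) + y1.l.leak (FSp.imap p E (PB X))) / η / X.F.n := rfl
  have e2 : vval η D (imf X p (fun ω => ¬ E ω)) y2 = fval2 (F := FSp.im p (fun ω => ¬ E ω)) (wX η D X) y2 -
      (y2.l.leak (FSp.imap p (fun ω => ¬ E ω) (PA X 0)) + y2.l.leak (FSp.imap p (fun ω => ¬ E ω) (PB X))) / η /
        X.F.n := rfl
  rw [e1, e2]
  unfold vval
  rw [g1]
  set P := T.pb E
  set v1 := fval2 (F := FSp.im p E) (wX η D X) y1
  set v2 := fval2 (F := FSp.im p (fun ω => ¬ E ω)) (wX η D X) y2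
  set a0 := (gluFD p E y1 y2).l.leak (PA X 0)
  set b0 := (gluFD p E y1 y2).l.leak (PB X)
  set a1 := y1.l.leak (FSp.imap p E (PA X 0))
  set b1 := y1.l.leak (FSp.imap p E (PB X))
  set a2 := y2.l.leak (FSp.imap p (fun ω => ¬ E ω) (PA X 0))
  set b2 := y2.l.leak (FSp.imap p (fun ω => ¬ E ω) (PB X))
  have e4 : (a0 + b0) / η / X.F.n ≤ (P * ((a1 + b1) / η / X.F.n) + (1 - P) * ((a2 + b2) / η / X.F.n)) +
      2 / η / X.F.n := by
    have e5 : (P * ((a1 + b1) / η / X.F.n) + (1 - P) * ((a2 + b2) / η / X.F.n)) + 2 / η / X.F.n =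
        ((P * a1 + (1 - P) * a2 + 1) + (P * b1 + (1 - P) * b2 + 1)) / η / X.F.n := by ring
    rw [e5]
    apply div_le_div_of_nonneg_right _ hn.le
    apply div_le_div_of_nonneg_right _ h0.le
    linarith
  linarith

/-- the penalised volume as a functional -/
def volF (η : ℝ) (h0 : 0 < η) (D : ℕ) : FinF m where
  g := fun X => vol η D X + 2 / η
  nn := fun X => by have := vol_ge h0 D X; linarith
  ub := fun S s => UB_of_nonneg_le (C := vM m D + 2 / η)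
    (Eventually.of_forall fun k => by have := vol_ge h0 D (s.fin k); linarith)
    (Eventually.of_forall fun k => by have := vol_le h0 D (s.fin k); linarith)
  c := 2 / η
  spl := by
    intro X T p E
    have h1 : T.pb E * vol η D (imf X p E) + (1 - T.pb E) * vol η D (imf X p (fun ω => ¬ E ω)) ≤
        vol η D X + 2 / η / X.F.n := by
      apply sup_avg (vset_ne _ _ _) (vset_ne _ _ _) (T.pb_nonneg E) (T.pb_le_one E)
      rintro a ⟨y1, k1, rfl⟩ b ⟨y2, k2, rfl⟩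
      have h2 := vval_glue h0 D X T p E y1 y2
      have h3 := vval_le_vol h0 D X (y := gluFD p E y1 y2) (fun w hw => glu_all (Cpd (cpX D X)) y1 y2 k1 k2 w hw)
      linarith
    have h4 : T.pb E * (vol η D (imf X p E) + 2 / η) + (1 - T.pb E) * (vol η D (imf X p (fun ω => ¬ E ω)) + 2 / η) =
        T.pb E * vol η D (imf X p E) + (1 - T.pb E) * vol η D (imf X p (fun ω => ¬ E ω)) + 2 / η := by ring
    rw [h4]
    linarith

/-- the limit of the penalised volumes -/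
def volL (η : ℝ) (D : ℕ) {S : Sp} (s : Sys S m) : ℝ := ul (fun k => vol η D (s.fin k))

theorem vol_UB {η : ℝ} (h0 : 0 < η) (D : ℕ) {S : Sp} (s : Sys S m) : UB (fun k => vol η D (s.fin k)) :=
  ⟨2 / η + vM m D, Eventually.of_forall fun k => by
    have h1 := vol_ge h0 D (s.fin k)
    have h2 := vol_le h0 D (s.fin k)
    have h3 := vM_nonneg m D
    have h4 : 0 < 2 / η := by positivity
    rw [abs_le]
    constructor <;> linarith⟩

theorem volF_f {η : ℝ} (h0 : 0 < η) (D : ℕ) {S : Sp} (s : Sys S m) : (volF η h0 D).f S s = volL η D s + 2 / η :=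
  ul_eq ((ul_tendsto (vol_UB h0 D s)).add_const (2 / η))

/-! ### comparison with the volume of the canonical form -/

/-- probabilities of the bad events -/
theorem sum_bX (η : ℝ) (D : ℕ) (X : FSy m) (T : FSp) (p : T.Ω → X.F.Ω)
    (g : T.Ω → Matrix (Mon (m + 1) D) (Mon (m + 1) D) ℝ) :
    ∑ ω, T.μ ω * bX η D X (p ω) (g ω) = T.pb (fun ω => ¬ phi (X.dl 1) (g ω) (ptX X (p ω)) ≤ 2 ^ (η * X.F.n)) := by
  rw [pb_sum]
  refine Finset.sum_congr rfl fun ω _ => congrArg (fun z => T.μ ω * z) ?_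
  unfold bX
  split_ifs <;> rfl

theorem fval2_wX (η : ℝ) (D : ℕ) (X : FSy m) (y : FD X.F (Mon (m + 1) D)) :
    fval2 (wX η D X) y = ∑ ω, y.l.T.μ ω * min (gX D X (y.l.p.π ω) (y.g ω)) (vM m D) -
      (y.l.T.pb (fun ω => ¬ phi (X.dl 1) (y.g ω) (ptX X (y.l.p.π ω)) ≤ 2 ^ (η * X.F.n)) +
       y.l.T.pb (fun ω => ¬ phi (X.dl 1) (y.g' ω) (ptX X (y.l.p.π ω)) ≤ 2 ^ (η * X.F.n))) / η := by
  rw [← sum_bX η D X y.l.T y.l.p.π y.g, ← sum_bX η D X y.l.T y.l.p.π y.g', ← Finset.sum_add_distrib,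
    Finset.sum_div, ← Finset.sum_sub_distrib]
  unfold fval2 wX
  refine Finset.sum_congr rfl fun ω _ => ?_
  ring

theorem vval_sys (η : ℝ) (D : ℕ) {S : Sp} (s : Sys S m) (k : ℕ) (w : FD (S.F k) (Mon (m + 1) D)) :
    vval η D (s.fin k) w = ∑ ω, w.l.T.μ ω * min (gX D (s.fin k) (w.l.p.π ω) (w.g ω)) (vM m D) -
      (w.l.T.pb (fun ω => ¬ sph s D k (w.l.p.π ω) (w.g ω) ≤ 2 ^ (η * (S.F k).n)) +
       w.l.T.pb (fun ω => ¬ sph s D k (w.l.p.π ω) (w.g' ω) ≤ 2 ^ (η * (S.F k).n))) / η -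
      (w.l.leak (cA s 0 k) + w.l.leak (cB s k)) / η / (S.F k).n :=
  congrArg (fun z => z - (w.l.leak (PA (s.fin k) 0) + w.l.leak (PB (s.fin k))) / η / (s.fin k).F.n)
    (fval2_wX η D (s.fin k) w)

theorem sum_gX {S : Sp} (s : Sys S m) (D : ℕ) (x : ∀ k, FD (S.F k) (Mon (m + 1) D)) (k : ℕ) :
    ∑ ω, (x k).l.T.μ ω * gX D (s.fin k) ((x k).l.p.π ω) ((x k).g ω) = lgd s D x k / (S.F k).n / 2 := by
  unfold lgd
  rw [Finset.sum_div, Finset.sum_div]
  refine Finset.sum_congr rfl fun ω _ => ?_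
  have h1 : gX D (s.fin k) ((x k).l.p.π ω) ((x k).g ω) =
      Real.logb 2 (GG (S.dl 1 k) ((x k).g ω) (ptf s k ((x k).l.p.π ω))) / (2 * (S.F k).n) := rfl
  rw [h1]
  ring

/-- the penalised volume is at least the volume of the canonical form -/
theorem lvol_le_volL {η : ℝ} (h0 : 0 < η) (D : ℕ) {S : Sp} (s : Sys S m) : lvol s D 0 / 2 ≤ volL η D s := by
  obtain ⟨x, hx⟩ := exists_can s D 0
  have hA := hx.1.1
  have hdm := Gau.Ad.dm (gau s D) hA
  have e1 := lvol_eq s hx.1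
  -- the bad events
  have hbad : ∀ (g : ∀ k, (x k).l.T.Ω → Matrix (Mon (m + 1) D) (Mon (m + 1) D) ℝ)
      (_ : ∀ e : ℝ, 0 < e → ∀ᶠ k in UF, (x k).l.T.pb (fun ω => ¬ sph s D k ((x k).l.p.π ω) (g k ω) ≤
        2 ^ (e * (S.F k).n)) ≤ e),
      Tendsto (fun k => (x k).l.T.pb (fun ω => ¬ sph s D k ((x k).l.p.π ω) (g k ω) ≤ 2 ^ (η * (S.F k).n))) UF (𝓝 0) := by
    intro g hg
    rw [Metric.tendsto_nhds]
    intro e he
    filter_upwards [hg (min η (e / 2)) (lt_min h0 (half_pos he))] with k hk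
    rw [Real.dist_eq, sub_zero, abs_of_nonneg ((x k).l.T.pb_nonneg _)]
    have h2 : (x k).l.T.pb (fun ω => ¬ sph s D k ((x k).l.p.π ω) (g k ω) ≤ 2 ^ (η * (S.F k).n)) ≤
        (x k).l.T.pb (fun ω => ¬ sph s D k ((x k).l.p.π ω) (g k ω) ≤ 2 ^ (min η (e / 2) * (S.F k).n)) := by
      apply FSp.pb_mono
      intro ω _ h3 h4
      apply h3
      refine h4.trans (Real.rpow_le_rpow_of_exponent_le (by norm_num) ?_)
      exact mul_le_mul_of_nonneg_right (min_le_left _ _) (S.F k).pos.le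
    have h5 := min_le_right η (e / 2)
    linarith
  have t1 := hbad (fun k => (x k).g) fun e he => (hA e he).mono fun k hk => hk.2.2.2.1
  have t2 := hbad (fun k => (x k).g') fun e he => (hA e he).mono fun k hk => hk.2.2.2.2
  have t3 : Tendsto (fun k => lgd s D x k / (S.F k).n / 2) UF (𝓝 (lvol s D 0 / 2)) := by
    rw [← e1]
    exact (ul_tendsto (lgd_UB s hA)).div_const 2
  have t4 : Tendsto (fun k => lgd s D x k / (S.F k).n / 2 -
      ((x k).l.T.pb (fun ω => ¬ sph s D k ((x k).l.p.π ω) ((x k).g ω) ≤ 2 ^ (η * (S.F k).n)) +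
       (x k).l.T.pb (fun ω => ¬ sph s D k ((x k).l.p.π ω) ((x k).g' ω) ≤ 2 ^ (η * (S.F k).n))) / η -
      ((x k).l.leak (cA s 0 k) / (S.F k).n + (x k).l.leak (cB s k) / (S.F k).n) / η) UF
      (𝓝 (lvol s D 0 / 2 - (0 + 0) / η - (0 + 0) / η)) :=
    (t3.sub ((t1.add t2).div_const η)).sub
      ((Filter.Tendsto.add (show Tendsto _ _ _ from hdm.1) (show Tendsto _ _ _ from hdm.2)).div_const η)
  rw [add_zero, zero_div, sub_zero, sub_zero] at t4
  refine le_of_tendsto_of_tendsto t4 (ul_tendsto (vol_UB h0 D s)) ?_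
  filter_upwards [GG_ub_exp s D, hA 1 one_pos] with k h1 h2
  have hn := (S.F k).pos
  have hcap : capd D (s.fin k) (x k) := fun ω hω => h2.2.2.1 ω hω
  refine le_trans (le_of_eq ?_) (vval_le_vol h0 D (s.fin k) hcap)
  have e2 : ∑ ω, (x k).l.T.μ ω * min (gX D (s.fin k) ((x k).l.p.π ω) ((x k).g ω)) (vM m D) =
      lgd s D x k / (S.F k).n / 2 := by
    rw [← sum_gX]
    refine Finset.sum_congr rfl fun ω _ => ?_
    by_cases h0 : (x k).l.T.μ ω = 0
    · rw [h0, zero_mul, zero_mul]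
    · congr 1
      apply min_eq_left
      have h3 := h1 ((x k).l.p.π ω) ((x k).l.p.supp ω h0) ((x k).g ω) (h2.2.2.1 ω h0).1
      have h4 : gX D (s.fin k) ((x k).l.p.π ω) ((x k).g ω) =
        Real.logb 2 (GG (S.dl 1 k) ((x k).g ω) (ptf s k ((x k).l.p.π ω))) / (2 * (S.F k).n) := rfl
      rw [h4, div_le_iff₀ (by positivity), Real.logb_le_iff_le_rpow (by norm_num)
        (GG_pos' _ (h2.2.2.1 ω h0).1.pdM _)]
      refine h3.trans (le_of_eq ?_)
      congr 1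
      unfold vM
      ring
  refine Eq.trans ?_ (vval_sys η D s k (x k)).symm
  rw [e2]
  have e3 : ∀ a b c n : ℝ, (a / n + b / n) / c = (a + b) / c / n := fun a b c n => by ring
  exact congrArg (fun z => lgd s D x k / (S.F k).n / 2 -
    ((x k).l.T.pb (fun ω => ¬ sph s D k ((x k).l.p.π ω) ((x k).g ω) ≤ 2 ^ (η * (S.F k).n)) +
     (x k).l.T.pb (fun ω => ¬ sph s D k ((x k).l.p.π ω) ((x k).g' ω) ≤ 2 ^ (η * (S.F k).n))) / η - z)
    (e3 ((x k).l.leak (cA s 0 k)) ((x k).l.leak (cB s k)) η (S.F k).n)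

/-- labels with forms of large penalised volume are admissible -/
theorem adm_of_vval {D : ℕ} {S : Sp} (s : Sys S m) {η η' v : ℝ} (h0 : 0 < η) (hη : η * vM m D ≤ η') (hη' : η ≤ η')
    (hv : 0 ≤ v) {k : ℕ} {w : FD (S.F k) (Mon (m + 1) D)} (hcap : capd D (s.fin k) w)
    (h1 : v < vval η D (s.fin k) w) :
    (gau s D).Adm (cA s 0) (cB s) η' k w ∧ v ≤ ∑ ω, w.l.T.μ ω * gX D (s.fin k) (w.l.p.π ω) (w.g ω) := by
  rw [vval_sys] at h1
  have hn := (S.F k).pos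
  have hm1 : ∑ ω, w.l.T.μ ω * min (gX D (s.fin k) (w.l.p.π ω) (w.g ω)) (vM m D) ≤ vM m D :=
    sum_mul_le (F := w.l.T) _ _ fun ω _ => min_le_right _ _
  have hm2 : ∑ ω, w.l.T.μ ω * min (gX D (s.fin k) (w.l.p.π ω) (w.g ω)) (vM m D) ≤
      ∑ ω, w.l.T.μ ω * gX D (s.fin k) (w.l.p.π ω) (w.g ω) :=
    Finset.sum_le_sum fun ω _ => mul_le_mul_of_nonneg_left (min_le_left _ _) (w.l.T.nn ω)
  have ha := w.l.leak_nonneg (cA s 0 k)
  have hb := w.l.leak_nonneg (cB s k)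
  have kb : ∀ g : w.l.T.Ω → Matrix (Mon (m + 1) D) (Mon (m + 1) D) ℝ,
      w.l.T.pb (fun ω => ¬ (gau s D).φ k (w.l.p.π ω) (g ω) ≤ 2 ^ (η' * (S.F k).n)) ≤
      w.l.T.pb (fun ω => ¬ sph s D k (w.l.p.π ω) (g ω) ≤ 2 ^ (η * (S.F k).n)) := by
    intro g
    apply FSp.pb_mono
    intro ω _ h4 h5
    apply h4
    have h6 : (gau s D).φ k (w.l.p.π ω) (g ω) ≤ 2 ^ (η * (S.F k).n) := h5
    refine h6.trans (Real.rpow_le_rpow_of_exponent_le (by norm_num) ?_)
    exact mul_le_mul_of_nonneg_right hη' hn.le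
  have kb1 := kb w.g
  have kb2 := kb w.g'
  have hb10 : 0 ≤ w.l.T.pb (fun ω => ¬ sph s D k (w.l.p.π ω) (w.g ω) ≤ 2 ^ (η * (S.F k).n)) := w.l.T.pb_nonneg _
  have hb20 : 0 ≤ w.l.T.pb (fun ω => ¬ sph s D k (w.l.p.π ω) (w.g' ω) ≤ 2 ^ (η * (S.F k).n)) := w.l.T.pb_nonneg _
  generalize w.l.T.pb (fun ω => ¬ sph s D k (w.l.p.π ω) (w.g ω) ≤ 2 ^ (η * (S.F k).n)) = b1 at h1 kb1 hb10
  generalize w.l.T.pb (fun ω => ¬ sph s D k (w.l.p.π ω) (w.g' ω) ≤ 2 ^ (η * (S.F k).n)) = b2 at h1 kb2 hb20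
  generalize ∑ ω, w.l.T.μ ω * min (gX D (s.fin k) (w.l.p.π ω) (w.g ω)) (vM m D) = M1 at h1 hm1 hm2
  have hl0 : 0 ≤ (w.l.leak (cA s 0 k) + w.l.leak (cB s k)) / η / (S.F k).n := by positivity
  have hb0 : 0 ≤ (b1 + b2) / η := by positivity
  have k1 : (b1 + b2) / η ≤ vM m D := by linarith
  have k2 : (w.l.leak (cA s 0 k) + w.l.leak (cB s k)) / η / (S.F k).n ≤ vM m D := by linarith
  rw [div_le_iff₀ h0] at k1
  rw [div_div, div_le_iff₀ (by positivity)] at k2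
  have k4 : vM m D * (η * (S.F k).n) ≤ η' * (S.F k).n := by
    have := mul_le_mul_of_nonneg_right hη hn.le
    linarith
  have c1 : w.l.leak (cA s 0 k) ≤ η' * (S.F k).n := by linarith
  have c2 : w.l.leak (cB s k) ≤ η' * (S.F k).n := by linarith
  exact ⟨⟨c1, c2, fun ω hω => hcap ω hω, by linarith, by linarith⟩, by linarith⟩

/-- for small penalties the penalised volume is close to the volume of the canonical form -/
theorem volL_small (D : ℕ) {S : Sp} (s : Sys S m) (e : ℝ) (he : 0 < e) :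
    ∃ η : ℝ, 0 < η ∧ volL η D s ≤ lvol s D 0 / 2 + e := by
  by_contra hc
  push Not at hc
  have hM := vM_nonneg m D
  have hlv := lvol_nonneg (D := D) s 0
  set η : ℕ → ℝ := fun j => 1 / (((j : ℝ) + 1) * (vM m D + 1)) with hηd
  have hη0 : ∀ j, 0 < η j := fun j => by rw [hηd]; positivity
  have hηM : ∀ j, η j * vM m D ≤ 1 / ((j : ℝ) + 1) := fun j => by
    rw [hηd]
    have h1 : (1 : ℝ) / (((j : ℝ) + 1) * (vM m D + 1)) * vM m D = 1 / ((j : ℝ) + 1) * (vM m D / (vM m D + 1)) := by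
      field_simp
    rw [h1]
    have h2 : vM m D / (vM m D + 1) ≤ 1 := by
      rw [div_le_one (by linarith)]
      linarith
    have h3 : (0 : ℝ) < 1 / ((j : ℝ) + 1) := by positivity
    nlinarith
  have hηl : ∀ j, η j ≤ 1 / ((j : ℝ) + 1) := fun j => by
    rw [hηd]
    apply one_div_le_one_div_of_le (by positivity)
    have : (0 : ℝ) ≤ j := Nat.cast_nonneg j
    nlinarith
  have h1 : ∀ j : ℕ, ∃ y : ∀ k, FD (S.F k) (Mon (m + 1) D), ∀ᶠ k in UF, capd D (s.fin k) (y k) ∧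
      lvol s D 0 / 2 + e < vval (η j) D (s.fin k) (y k) := by
    intro j
    have h2 := eventually_gt_of_lt_ul (vol_UB (hη0 j) D s) (hc _ (hη0 j))
    classical
    refine ⟨fun k => if hk : ∃ y : FD (S.F k) (Mon (m + 1) D), capd D (s.fin k) y ∧
      lvol s D 0 / 2 + e < vval (η j) D (s.fin k) y then hk.choose else trivFD (S.F k), ?_⟩
    filter_upwards [h2] with k hk
    obtain ⟨r, ⟨y, hy, rfl⟩, hr⟩ := exists_lt_of_lt_csSup (vset_ne _ _ _) hk
    have hk' : ∃ y : FD (S.F k) (Mon (m + 1) D), capd D (s.fin k) y ∧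
      lvol s D 0 / 2 + e < vval (η j) D (s.fin k) y := ⟨y, hy, hr⟩
    rw [dif_pos hk']
    exact hk'.choose_spec
  choose y hy using h1
  obtain ⟨z, J, hJ, hzA, hz⟩ := (gau s D).diag (cA s 0) (cB s) y
    (fun _ k w => lvol s D 0 / 2 + e ≤ ∑ ω, w.l.T.μ ω * gX D (s.fin k) (w.l.p.π ω) (w.g ω)) (by
      intro j
      filter_upwards [hy j] with k hk
      exact adm_of_vval s (hη0 j) (hηM j) (hηl j) (by linarith) hk.1 hk.2)
  have h4 := lgd_le_lvol s hzA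
  have h5 : lvol s D 0 / 2 + e ≤ ul (fun k => lgd s D z k / (S.F k).n) / 2 := by
    refine ge_of_tendsto ((ul_tendsto (lgd_UB s hzA)).div_const 2) ?_
    filter_upwards [hz] with k hk
    rw [← sum_gX]
    exact hk
  linarith

end

end Pool.Agent.Helper52.SL
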